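import Pool.Agent.DMP.Defs

/-! Basic facts about degree monotone paths with five vertices. -/

open scoped Classical

namespace DMP

variable {V : Type*} [Fintype V]

/-- The five vertices `a b c d e` form a path of `G` along which `f` is non-decreasing. -/
structure M5 (G : SimpleGraph V) (f : V → ℕ) (a b c d e : V) : Prop where
  nd : [a, b, c, d, e].Nodup
  ab : G.Adj a b
  bc : G.Adj b c
  cd : G.Adj c d
  de : G.Adj d e
  fab : f a ≤ f b
  fbc : f b ≤ f c
  fcd : f c ≤ f d
  fde : f d ≤ f e

/-- `G` has a degree monotone path with five vertices. -/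
def Has5 (G : SimpleGraph V) : Prop := ∃ a b c d e, M5 G (fun x => G.degree x) a b c d e

omit [Fintype V] in
theorem chain5_of_list {α : Type*} {R : α → α → Prop} {a b c d e : α} {t : List α}
    (h : (a :: b :: c :: d :: e :: t).IsChain R) : R a b ∧ R b c ∧ R c d ∧ R d e := by
  simp only [List.isChain_cons_cons] at h
  tauto

omit [Fintype V] in
theorem exists_five {α : Type*} {l : List α} (h : 5 ≤ l.length) :
    ∃ a b c d e t, l = a :: b :: c :: d :: e :: t := by
  match l, h with
  | a :: b :: c :: d :: e :: t, _ => exact ⟨a, b, c, d, e, t, rfl⟩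

theorem has5_of_isDegMonoPath {G : SimpleGraph V} {l : List V} (h : IsDegMonoPath G l)
    (hl : 5 ≤ l.length) : Has5 G := by
  obtain ⟨-, hnd, hch, hmono⟩ := h
  obtain ⟨a, b, c, d, e, t, rfl⟩ := exists_five hl
  have hnd' : [a, b, c, d, e].Nodup := by
    have : (a :: b :: c :: d :: e :: t) = [a, b, c, d, e] ++ t := rfl
    rw [this] at hnd
    exact (List.nodup_append.1 hnd).1
  obtain ⟨h1, h2, h3, h4⟩ := chain5_of_list hch
  rcases hmono with hm | hm
  · obtain ⟨m1, m2, m3, m4⟩ := chain5_of_list hm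
    exact ⟨a, b, c, d, e, ⟨hnd', h1, h2, h3, h4, m1, m2, m3, m4⟩⟩
  · obtain ⟨m1, m2, m3, m4⟩ := chain5_of_list hm
    refine ⟨e, d, c, b, a, ⟨?_, h4.symm, h3.symm, h2.symm, h1.symm, m4, m3, m2, m1⟩⟩
    have := List.nodup_reverse.2 hnd'
    simpa using this

theorem mp_set_bddAbove (G : SimpleGraph V) :
    BddAbove {m | ∃ l : List V, IsDegMonoPath G l ∧ l.length = m} := by
  refine ⟨Fintype.card V, ?_⟩
  rintro m ⟨l, hl, rfl⟩
  exact List.Nodup.length_le_card hl.2.1

theorem five_le_mp_iff (G : SimpleGraph V) : 5 ≤ mp G ↔ Has5 G := by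
  constructor
  · intro h
    have hne : {m | ∃ l : List V, IsDegMonoPath G l ∧ l.length = m}.Nonempty := by
      by_contra hempty
      rw [Set.not_nonempty_iff_eq_empty] at hempty
      rw [mp, hempty] at h
      simp at h
    have hmem := Nat.sSup_mem hne (mp_set_bddAbove G)
    obtain ⟨l, hl, hlen⟩ := hmem
    exact has5_of_isDegMonoPath hl (by rw [hlen]; exact h)
  · rintro ⟨a, b, c, d, e, h⟩
    refine le_csSup (mp_set_bddAbove G) ⟨[a, b, c, d, e], ⟨by simp, h.nd, ?_, Or.inl ?_⟩, rfl⟩
    · simp [List.isChain_cons_cons, h.ab, h.bc, h.cd, h.de]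
    · simp [List.isChain_cons_cons, h.fab, h.fbc, h.fcd, h.fde]

theorem saturated_five_iff (G : SimpleGraph V) : Saturated 5 G ↔
    ¬ Has5 G ∧ ∀ u v : V, u ≠ v → ¬ G.Adj u v → Has5 (G ⊔ SimpleGraph.edge u v) := by
  unfold Saturated
  simp only [five_le_mp_iff]
  constructor
  · rintro ⟨h1, h2⟩
    refine ⟨fun h => ?_, h2⟩
    have := (five_le_mp_iff G).2 h
    omega
  · rintro ⟨h1, h2⟩
    refine ⟨?_, h2⟩
    by_contra h
    exact h1 ((five_le_mp_iff G).1 (by omega))

omit [Fintype V] in
theorem adj_sup_edge (G : SimpleGraph V) {u v : V} (huv : u ≠ v) (x y : V) :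
    (G ⊔ SimpleGraph.edge u v).Adj x y ↔
      G.Adj x y ∨ (x = u ∧ y = v) ∨ (x = v ∧ y = u) := by
  rw [SimpleGraph.sup_adj, SimpleGraph.edge_adj]
  constructor
  · rintro (h | ⟨h, -⟩)
    · exact Or.inl h
    · tauto
  · rintro (h | ⟨rfl, rfl⟩ | ⟨rfl, rfl⟩)
    · exact Or.inl h
    · exact Or.inr ⟨Or.inl ⟨rfl, rfl⟩, huv⟩
    · exact Or.inr ⟨Or.inr ⟨rfl, rfl⟩, huv.symm⟩

theorem neighborFinset_sup_edge_left (G : SimpleGraph V) {u v : V} (huv : u ≠ v) :
    (G ⊔ SimpleGraph.edge u v).neighborFinset u = insert v (G.neighborFinset u) := by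
  ext y
  simp only [SimpleGraph.mem_neighborFinset, adj_sup_edge G huv, Finset.mem_insert]
  constructor
  · rintro (h | ⟨-, h⟩ | ⟨h, -⟩)
    · exact Or.inr h
    · exact Or.inl h
    · exact absurd h huv
  · rintro (h | h)
    · exact Or.inr (Or.inl ⟨trivial, h⟩)
    · exact Or.inl h

theorem neighborFinset_sup_edge_right (G : SimpleGraph V) {u v : V} (huv : u ≠ v) :
    (G ⊔ SimpleGraph.edge u v).neighborFinset v = insert u (G.neighborFinset v) := by
  ext y
  simp only [SimpleGraph.mem_neighborFinset, adj_sup_edge G huv, Finset.mem_insert]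
  constructor
  · rintro (h | ⟨h, -⟩ | ⟨-, h⟩)
    · exact Or.inr h
    · exact absurd h.symm huv
    · exact Or.inl h
  · rintro (h | h)
    · exact Or.inr (Or.inr ⟨trivial, h⟩)
    · exact Or.inl h

theorem neighborFinset_sup_edge_other (G : SimpleGraph V) {u v w : V} (huv : u ≠ v)
    (hu : w ≠ u) (hv : w ≠ v) :
    (G ⊔ SimpleGraph.edge u v).neighborFinset w = G.neighborFinset w := by
  ext y
  simp only [SimpleGraph.mem_neighborFinset, adj_sup_edge G huv]
  tauto

theorem degree_sup_edge_aux (G : SimpleGraph V) {u v : V} (huv : u ≠ v) (hn : ¬ G.Adj u v)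
    (w : V) :
    (G ⊔ SimpleGraph.edge u v).degree w = G.degree w + if w = u ∨ w = v then 1 else 0 := by
  by_cases hu : w = u
  · subst hu
    rw [← SimpleGraph.card_neighborFinset_eq_degree, neighborFinset_sup_edge_left G huv,
      Finset.card_insert_of_notMem (by simpa using hn), SimpleGraph.card_neighborFinset_eq_degree]
    simp
  · by_cases hv : w = v
    · subst hv
      rw [← SimpleGraph.card_neighborFinset_eq_degree, neighborFinset_sup_edge_right G huv,
        Finset.card_insert_of_notMem (by simpa using fun h => hn h.symm),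
        SimpleGraph.card_neighborFinset_eq_degree]
      simp
    · rw [← SimpleGraph.card_neighborFinset_eq_degree, neighborFinset_sup_edge_other G huv hu hv,
        SimpleGraph.card_neighborFinset_eq_degree]
      simp [hu, hv]

omit [Fintype V] in
/-- The degree does not depend on the instance. -/
theorem degree_inst (H : SimpleGraph V) (w : V) (i1 i2 : Fintype (H.neighborSet w)) :
    @SimpleGraph.degree V H w i1 = @SimpleGraph.degree V H w i2 := by
  cases Subsingleton.elim i1 i2
  rfl

/-- The degrees after adding a new edge (for any instances). -/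
theorem degree_sup_edge (G : SimpleGraph V) {u v : V} (huv : u ≠ v) (hn : ¬ G.Adj u v) (w : V)
    [Fintype ((G ⊔ SimpleGraph.edge u v).neighborSet w)] :
    (G ⊔ SimpleGraph.edge u v).degree w = G.degree w + if w = u ∨ w = v then 1 else 0 := by
  exact (degree_inst _ w _ _).trans (degree_sup_edge_aux G huv hn w)

end DMP
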