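import Pool.Agent.DMP.Count

/-! Maximum degree at least four, no leaf. -/

open scoped Classical

namespace DMP

variable {V : Type*} [Fintype V] {G : SimpleGraph V}

/-- The configuration excluded on eight vertices. -/
theorem Ctx.R {a : V} (h : Ctx G a) {x g k k' : V} (hx : G.degree x = 3) (hxa : G.Adj x a)
    (hg : G.degree g = 2) (hgx : G.Adj g x) (hga : ¬ G.Adj g a) (h4 : 4 ≤ G.degree a)
    (hg' : ∀ r, G.Adj g r → r ≠ x → G.degree r = 2) (hkx : G.Adj x k) (hkg : k ≠ g)
    (hka : k ≠ a) (hk : G.degree k = 2) (hkk' : G.Adj k k') (hk'x : k' ≠ x)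
    (hk' : 3 ≤ G.degree k') : False := by
  have hga' : g ≠ a := by rintro rfl; omega
  rcases h.hS.A1 h.hmax (by omega : G.degree g < G.degree a) hga with
    ⟨p1, p2, p3, hp, hp1, hp2, hp3⟩ | ⟨y, z, hyz, hy, hz, hdy, hdz⟩
  swap
  · by_cases e : y = x
    · have := hg' z hz (fun e' => hyz (e.trans e'.symm))
      omega
    · have := hg' y hy e
      omega
  have f12 := hp.f12
  have f23 := hp.f23
  by_cases e : p3 = x
  · subst e
    have e2 : p2 = k := by
      rcases nbr_three hx.le hxa hgx.symm hkx hga'.symm hka.symm hkg.symm hp.a23.symm with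
        e | e | e
      · exact absurd e hp2
      · exact absurd e hp.n24
      · exact e
    subst e2
    have e1 : p1 = k' := by
      rcases nbr_two hk.le hkx.symm hkk' hk'x.symm hp.a12.symm with e | e
      · exact absurd e hp.n13
      · exact e
    subst e1
    omega
  · have d3 := hg' p3 hp.a34.symm e
    have := h.T3 (x := p3) (w := g) (y := p2) d3 hp.a34 hp.a23.symm hp.n24.symm hg
    omega

theorem Ctx.big {a : V} (h : Ctx G a) (h4 : 4 ≤ G.degree a) (hnl : ∀ v, G.degree v ≠ 1)
    (hn : 6 ≤ Fintype.card V) :
    5 ≤ ∑ v, om G v ∨ (Fintype.card V = 9 ∧ ∑ v, om G v = 3) := by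
  by_contra hcon
  push Not at hcon
  obtain ⟨hS5, hexc⟩ := hcon
  set S : ℤ := ∑ v, om G v with hS
  -- the modified charge
  set f : V → ℤ := fun v => om G v + if v ∈ EE G then 1 else 0 with hf
  have hdeg2 : ∀ v, 2 ≤ G.degree v := fun v => by
    have := h.deg_pos v
    have := hnl v
    omega
  have f_E : ∀ v, v ∈ EE G → f v = 0 := fun v hv => by simp [hf, hv, om_EE hv]
  have f_nE : ∀ v, v ∉ EE G → f v = om G v := fun v hv => by simp [hf, hv]
  have E_deg : ∀ v, v ∈ EE G → G.degree v = 2 := fun v hv => (mem_EE.1 hv).1
  have f_nonneg : ∀ v, 0 ≤ f v := by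
    intro v
    by_cases hv : v ∈ EE G
    · rw [f_E v hv]
    · rw [f_nE v hv]
      by_cases d2 : G.degree v = 2
      · exact om_two_nonneg d2 hv
      by_cases d3 : G.degree v = 3
      · exact h.om_three_nonneg h4 d3
      rw [om_other d2 d3]
      have := hdeg2 v
      omega
  have f_big : ∀ v, 4 ≤ G.degree v → f v = 3 * (G.degree v : ℤ) - 7 := by
    intro v hv
    have : v ∉ EE G := fun hE => by have := E_deg v hE; omega
    rw [f_nE v this, om_other (by omega) (by omega)]
  have hsum : ∑ v, f v = S + (EE G).card := by
    simp only [hf]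
    rw [Finset.sum_add_distrib, ← hS]
    simp
  have hT : ∀ T : Finset V, ∑ v ∈ T, f v ≤ S + (EE G).card := by
    intro T
    rw [← hsum]
    exact Finset.sum_le_sum_of_subset_of_nonneg (Finset.subset_univ T) (fun v _ _ => f_nonneg v)
  have hEcard : (EE G).card ≤ G.degree a := by
    rw [← SimpleGraph.card_neighborFinset_eq_degree]
    exact Finset.card_le_card h.EE_sub
  -- all other vertices have degree at most three
  have hoth : ∀ w, w ≠ a → G.degree w ≤ 3 := by
    intro w hw
    by_contra hc
    have h1 := hT {a, w}
    rw [Finset.sum_pair hw.symm, f_big a h4, f_big w (by omega)] at h1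
    omega
  have h1 := hT {a}
  rw [Finset.sum_singleton, f_big a h4] at h1
  have hEpos : 0 < (EE G).card := by omega
  obtain ⟨v0, hv0⟩ := Finset.card_pos.1 hEpos
  have hv0' := mem_EE.1 hv0
  have hv0a := h.EE_adj hv0
  have hZ : ∀ z, G.degree z = 3 → G.degree a ≤ 4 ∧ G.Adj z a := by
    intro z hz
    by_contra hc
    refine h.EZ h4 hoth hv0'.1 hv0a hv0'.2 hz ?_
    by_cases hza : G.Adj z a
    · left
      by_contra h5
      exact hc ⟨by omega, hza⟩
    · exact Or.inr hza
  -- the degree sum
  have hclass : ∀ v, v ≠ a → G.degree v = 2 ∨ G.degree v = 3 := fun v hv => by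
    have := hdeg2 v
    have := hoth v hv
    omega
  have haD2 : a ∉ D G 2 := by rw [mem_D]; omega
  have haD3 : a ∉ D G 3 := by rw [mem_D]; omega
  have hdisj : Disjoint (D G 2) (D G 3) := by
    rw [Finset.disjoint_left]
    intro v hv hv'
    rw [mem_D] at hv hv'
    omega
  have huniv : (Finset.univ : Finset V) = insert a (D G 2 ∪ D G 3) := by
    ext v
    simp only [Finset.mem_univ, Finset.mem_insert, Finset.mem_union, mem_D, true_iff]
    by_cases e : v = a
    · exact Or.inl e
    · exact Or.inr (hclass v e)
  have haU : a ∉ D G 2 ∪ D G 3 := by simp [haD2, haD3]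
  have hcardn : Fintype.card V = 1 + ((D G 2).card + (D G 3).card) := by
    rw [← Finset.card_univ, huniv, Finset.card_insert_of_notMem haU,
      Finset.card_union_of_disjoint hdisj]
    ring
  have hsumdeg : ∑ v, G.degree v = G.degree a + (2 * (D G 2).card + 3 * (D G 3).card) := by
    rw [huniv, Finset.sum_insert haU, Finset.sum_union hdisj]
    congr 1
    rw [Finset.sum_congr rfl (fun v hv => mem_D.1 hv), Finset.sum_const,
      Finset.sum_congr rfl (fun v hv => mem_D.1 hv), Finset.sum_const]
    simp [mul_comm]
  have hedges := sum_deg (G := G)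
  rw [hsumdeg] at hedges
  have hcharge : S = 6 * (G.edgeSet.ncard : ℤ) - 7 * (Fintype.card V : ℤ) := sum_charge
  -- degree of `a`
  have ha4 : G.degree a = 4 := by
    by_contra hne
    have hD3 : (D G 3).card = 0 := by
      rw [Finset.card_eq_zero]
      by_contra hc
      obtain ⟨z, hz⟩ := Finset.nonempty_iff_ne_empty.2 hc
      have := (hZ z (mem_D.1 hz)).1
      omega
    omega
  -- `D3` and `EE` are disjoint sets of neighbours of `a`
  have hdisjE : Disjoint (D G 3) (EE G) := by
    rw [Finset.disjoint_left]
    intro v hv hv'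
    rw [mem_D] at hv
    have := E_deg v hv'
    omega
  have hsubN : D G 3 ∪ EE G ⊆ G.neighborFinset a := by
    intro v hv
    rcases Finset.mem_union.1 hv with hv | hv
    · simpa using (hZ v (mem_D.1 hv)).2.symm
    · exact h.EE_sub hv
  have hle4 : (D G 3).card + (EE G).card ≤ 4 := by
    rw [← Finset.card_union_of_disjoint hdisjE, ← ha4,
      ← SimpleGraph.card_neighborFinset_eq_degree]
    exact Finset.card_le_card hsubN
  have hD3card : (D G 3).card = 0 ∨ (D G 3).card = 2 := by omega
  rcases hD3card with hD3 | hD3
  · -- all vertices other than `a` are in `EE`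
    have hempty : D G 3 = ∅ := Finset.card_eq_zero.1 hD3
    have hE2 : D G 2 ⊆ EE G := by
      intro v hv
      rw [mem_EE]
      refine ⟨mem_D.1 hv, fun y _ hy3 => ?_⟩
      have : y ∈ D G 3 := mem_D.2 hy3
      rw [hempty] at this
      simp at this
    have := Finset.card_le_card hE2
    omega
  · have hSval : S = 4 ∧ (D G 2).card = 5 := by omega
    obtain ⟨hS4, hD2c⟩ := hSval
    obtain ⟨x0, y0, hxy0, hDxy0⟩ := Finset.card_eq_two.1 hD3
    have mem3 : ∀ x y, D G 3 = {x, y} → ∀ z, G.degree z = 3 ↔ (z = x ∨ z = y) := by
      intro x y hD z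
      rw [← mem_D, hD]
      simp
    -- the two vertices of degree three are not adjacent
    have hfx : ∀ x y, x ≠ y → D G 3 = {x, y} → G.Adj x y → 1 ≤ f x := by
      intro x y hxy hD hadj
      have hx3 : G.degree x = 3 := (mem3 x y hD x).2 (Or.inl rfl)
      have hy3 : G.degree y = 3 := (mem3 x y hD y).2 (Or.inr rfl)
      have hxa := (hZ x hx3).2
      have hay : a ≠ y := by rintro rfl; omega
      have hxE : x ∉ EE G := fun hE => by have := E_deg x hE; omega
      rw [f_nE x hxE, om_three hx3]
      have hcard : (insert a (insert y ((D G 2).filter (fun w => G.Adj x w)))).card =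
          cn G x (D G 2) + 2 := by
        rw [Finset.card_insert_of_notMem, Finset.card_insert_of_notMem]
        · rfl
        · simp [mem_D, hy3]
        · simp [hay, mem_D, ha4]
      have hle : (insert a (insert y ((D G 2).filter (fun w => G.Adj x w)))).card ≤
          G.degree x := by
        rw [← SimpleGraph.card_neighborFinset_eq_degree]
        apply Finset.card_le_card
        intro w hw
        simp only [Finset.mem_insert, Finset.mem_filter] at hw
        rcases hw with rfl | rfl | ⟨-, hw⟩
        · simpa using hxa
        · simpa using hadj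
        · simpa using hw
      omega
    have hfxy : f x0 + f y0 ≤ (EE G).card - 1 := by
      have hax : a ≠ x0 := by
        rintro rfl
        have := (mem3 a y0 hDxy0 a).2 (Or.inl rfl)
        omega
      have hay : a ≠ y0 := by
        rintro rfl
        have := (mem3 x0 a hDxy0 a).2 (Or.inr rfl)
        omega
      have h2 := hT {a, x0, y0}
      rw [Finset.sum_insert (by simp [hax, hay]), Finset.sum_pair hxy0, f_big a h4] at h2
      omega
    have hnadj0 : ¬ G.Adj x0 y0 := by
      intro hadj
      have g1 := hfx x0 y0 hxy0 hDxy0 hadj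
      have g2 := hfx y0 x0 hxy0.symm (by rw [hDxy0, Finset.pair_comm]) hadj.symm
      omega
    -- common neighbours
    have hcommon : ∀ x y, x ≠ y → D G 3 = {x, y} → ∀ m, G.degree m = 2 → G.Adj m x →
        G.Adj m y → f m = 1 := by
      intro x y hxy hD m hm hmx hmy
      have hmE : m ∉ EE G := by
        intro hE
        exact (mem_EE.1 hE).2 x hmx ((mem3 x y hD x).2 (Or.inl rfl))
      rw [f_nE m hmE, om_two hm]
      have g1 : 2 ≤ cn G m (D G 3) :=
        two_le_cn (by rw [hD]; simp) hmx (by rw [hD]; simp) hmy hxy
      have g2 : cn G m (D G 3) ≤ G.degree m := cn_le_deg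
      omega
    -- the final argument
    have main : ∀ x y, x ≠ y → D G 3 = {x, y} → ¬ G.Adj x y → ∀ k k', G.degree k = 2 →
        G.Adj k x → G.Adj k k' → k' ≠ x → 3 ≤ G.degree k' →
        (∀ g, G.degree g = 2 → G.Adj g x → g ≠ k → ¬ G.Adj g a ∧ ¬ G.Adj g y) → False := by
      intro x y hxy hD hnadj k k' hk hkx hkk' hk'x hk' hg
      have hx3 : G.degree x = 3 := (mem3 x y hD x).2 (Or.inl rfl)
      have hxa := (hZ x hx3).2
      obtain ⟨g, hxg, hga, hgk⟩ := exists_nbr_ne_ne (G := G) (x := x) (p := a) (q := k) (by omega)
      have hgy : g ≠ y := by rintro rfl; exact hnadj hxg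
      have hg2 : G.degree g = 2 := by
        rcases hclass g hga with e | e
        · exact e
        · rcases (mem3 x y hD g).1 e with e | e
          · exact absurd e hxg.ne.symm
          · exact absurd e hgy
      obtain ⟨hga', hgy'⟩ := hg g hg2 hxg.symm hgk
      have hka : k ≠ a := by rintro rfl; omega
      refine h.R hx3 hxa hg2 hxg.symm hga' h4 ?_ hkx.symm hgk.symm hka hk hkk' hk'x hk'
      intro r hgr hrx
      have hra : r ≠ a := by rintro rfl; exact hga' hgr
      rcases hclass r hra with e | e
      · exact e
      · rcases (mem3 x y hD r).1 e with e | e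
        · exact absurd e hrx
        · subst e; exact absurd hgr hgy'
    have hdegfilter : ∀ g x y, x ≠ y → D G 3 = {x, y} → G.degree g = 2 → G.Adj g x →
        g ∉ D G 3 ∪ EE G := by
      intro g x y hxy hD hg hgx hmem
      rcases Finset.mem_union.1 hmem with hm | hm
      · rw [mem_D] at hm; omega
      · exact (mem_EE.1 hm).2 x hgx ((mem3 x y hD x).2 (Or.inl rfl))
    have hag : ∀ g, G.degree g = 2 → a ≠ g := by rintro g hg rfl; omega
    have hEcases : (EE G).card = 1 ∨ (EE G).card = 2 := by omega
    rcases hEcases with hE1 | hE2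
    · -- one vertex in `EE`
      have hcardU : (D G 3 ∪ EE G).card = 3 := by
        rw [Finset.card_union_of_disjoint hdisjE]; omega
      obtain ⟨s, hsa, hs⟩ := Finset.exists_mem_notMem_of_card_lt_card
        (s := D G 3 ∪ EE G) (t := G.neighborFinset a)
        (by rw [SimpleGraph.card_neighborFinset_eq_degree]; omega)
      rw [SimpleGraph.mem_neighborFinset] at hsa
      have hNa : ∀ r, G.Adj a r → r = s ∨ r ∈ D G 3 ∪ EE G := by
        intro r hr
        have heq : insert s (D G 3 ∪ EE G) = G.neighborFinset a := by
          apply Finset.eq_of_subset_of_card_le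
          · intro z hz
            rcases Finset.mem_insert.1 hz with rfl | hz
            · simpa using hsa
            · exact hsubN hz
          · rw [Finset.card_insert_of_notMem hs, SimpleGraph.card_neighborFinset_eq_degree]
            omega
        have : r ∈ insert s (D G 3 ∪ EE G) := by rw [heq]; simpa using hr
        exact Finset.mem_insert.1 this
      rw [Finset.mem_union, not_or, mem_D] at hs
      have hs2 : G.degree s = 2 := by
        rcases hclass s hsa.ne.symm with e | e
        · exact e
        · exact absurd e hs.1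
      have hnc : ∀ x y, x ≠ y → D G 3 = {x, y} → ∀ m, G.degree m = 2 → G.Adj m x →
          ¬ G.Adj m y := by
        intro x y hxy hD m hm hmx hmy
        have g1 := hcommon x y hxy hD m hm hmx hmy
        have g2 := hT {a, m}
        rw [Finset.sum_pair (hag m hm), f_big a h4] at g2
        omega
      have hcon2 : ∀ x y, x ≠ y → D G 3 = {x, y} → ¬ G.Adj x y → G.Adj s x → False := by
        intro x y hxy hD hnadj hsx
        refine main x y hxy hD hnadj s a hs2 hsx hsa.symm ?_ h.h3 ?_
        · rintro rfl
          have := (mem3 a y hD a).2 (Or.inl rfl)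
          omega
        · intro g hg hgx hgs
          refine ⟨fun hga => ?_, hnc x y hxy hD g hg hgx⟩
          rcases hNa g hga.symm with e | e
          · exact hgs e
          · exact hdegfilter g x y hxy hD hg hgx e
      rw [mem_EE] at hs
      have hs' := hs.2
      push Not at hs'
      obtain ⟨z, hsz, hz3⟩ := hs' hs2
      rcases (mem3 x0 y0 hDxy0 z).1 hz3 with e | e
      · subst e
        exact hcon2 z y0 hxy0 hDxy0 hnadj0 hsz
      · subst e
        exact hcon2 z x0 hxy0.symm (by rw [hDxy0, Finset.pair_comm])
          (fun e => hnadj0 e.symm) hsz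
    · -- two vertices in `EE`
      have hNa : G.neighborFinset a = D G 3 ∪ EE G := by
        symm
        apply Finset.eq_of_subset_of_card_le hsubN
        rw [Finset.card_union_of_disjoint hdisjE, SimpleGraph.card_neighborFinset_eq_degree]
        omega
      have hx3 : G.degree x0 = 3 := (mem3 x0 y0 hDxy0 x0).2 (Or.inl rfl)
      have hy3 : G.degree y0 = 3 := (mem3 x0 y0 hDxy0 y0).2 (Or.inr rfl)
      have fle : ∀ x, G.degree x = 3 → f x ≤ 0 → f x = 0 := fun x _ hx =>
        le_antisymm hx (f_nonneg x)
      -- existence of a common neighbour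
      have hexm : ∃ m, G.degree m = 2 ∧ G.Adj m x0 ∧ G.Adj m y0 := by
        have hfx0 : ∀ x y, x ≠ y → D G 3 = {x, y} → ¬ G.Adj x y → f x = 0 := by
          intro x y hxy hD hnadj
          have hx3 : G.degree x = 3 := (mem3 x y hD x).2 (Or.inl rfl)
          have hxE : x ∉ EE G := fun hE => by have := E_deg x hE; omega
          have hxa := (hZ x hx3).2
          rw [f_nE x hxE, om_three hx3]
          have hcard : (insert a ((D G 2).filter (fun w => G.Adj x w))).card =
              cn G x (D G 2) + 1 := by
            rw [Finset.card_insert_of_notMem]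
            · rfl
            · simp [mem_D, ha4]
          have hle : G.degree x ≤ (insert a ((D G 2).filter (fun w => G.Adj x w))).card := by
            rw [← SimpleGraph.card_neighborFinset_eq_degree]
            apply Finset.card_le_card
            intro w hw
            rw [SimpleGraph.mem_neighborFinset] at hw
            simp only [Finset.mem_insert, Finset.mem_filter, mem_D]
            by_cases e : w = a
            · exact Or.inl e
            · right
              refine ⟨?_, hw⟩
              rcases hclass w e with e | e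
              · exact e
              · exfalso
                rcases (mem3 x y hD w).1 e with e | e
                · exact hw.ne e.symm
                · subst e; exact hnadj hw
          have hlt : cn G x (D G 2) < G.degree x := cn_lt_deg hxa haD2
          omega
        have e1 := hfx0 x0 y0 hxy0 hDxy0 hnadj0
        have e2 := hfx0 y0 x0 hxy0.symm (by rw [hDxy0, Finset.pair_comm])
          (fun e => hnadj0 e.symm)
        have hsplit : ∑ v, f v = f a + (∑ v ∈ D G 2, f v + (f x0 + f y0)) := by
          rw [huniv, Finset.sum_insert haU, Finset.sum_union hdisj, hDxy0,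
            Finset.sum_pair hxy0]
        rw [hsum, f_big a h4, e1, e2] at hsplit
        have hne : ∑ v ∈ D G 2, f v ≠ 0 := by omega
        obtain ⟨m, hm, hfm⟩ := Finset.exists_ne_zero_of_sum_ne_zero hne
        rw [mem_D] at hm
        have hmE : m ∉ EE G := fun hE => hfm (f_E m hE)
        rw [f_nE m hmE, om_two hm] at hfm
        have hnn := f_nonneg m
        rw [f_nE m hmE, om_two hm] at hnn
        have hcn : 2 ≤ cn G m (D G 3) := by omega
        have hsubs : (D G 3).filter (fun w => G.Adj m w) = D G 3 := by
          apply Finset.eq_of_subset_of_card_le (Finset.filter_subset _ _)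
          rw [hD3]
          exact hcn
        have hmx : x0 ∈ (D G 3).filter (fun w => G.Adj m w) := by
          rw [hsubs, mem_D]; exact hx3
        have hmy : y0 ∈ (D G 3).filter (fun w => G.Adj m w) := by
          rw [hsubs, mem_D]; exact hy3
        exact ⟨m, hm, (Finset.mem_filter.1 hmx).2, (Finset.mem_filter.1 hmy).2⟩
      obtain ⟨m, hm, hmx, hmy⟩ := hexm
      refine main x0 y0 hxy0 hDxy0 hnadj0 m y0 hm hmx hmy hxy0.symm (by omega) ?_
      intro g hg hgx hgm
      constructor
      · intro hga
        have : g ∈ G.neighborFinset a := by simpa using hga.symm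
        rw [hNa] at this
        exact hdegfilter g x0 y0 hxy0 hDxy0 hg hgx this
      · intro hgy
        have g1 := hcommon x0 y0 hxy0 hDxy0 m hm hmx hmy
        have g2 := hcommon x0 y0 hxy0 hDxy0 g hg hgx hgy
        have g3 := hT {a, g, m}
        rw [Finset.sum_insert (by simp [hag g hg, hag m hm]), Finset.sum_pair hgm,
          f_big a h4] at g3
        omega

end DMP
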