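import Pool.Agent.DMP.Delta2

/-! The charging function. -/

open scoped Classical

namespace DMP

variable {V : Type*} [Fintype V] {G : SimpleGraph V}

/-- The set of vertices of degree `k`. -/
noncomputable def D (G : SimpleGraph V) (k : ℕ) : Finset V :=
  Finset.univ.filter (fun v => G.degree v = k)

theorem mem_D {k : ℕ} {v : V} : v ∈ D G k ↔ G.degree v = k := by simp [D]

/-- The number of neighbours of `v` in `T`. -/
noncomputable def cn (G : SimpleGraph V) (v : V) (T : Finset V) : ℕ :=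
  (T.filter (fun w => G.Adj v w)).card

omit [Fintype V] in
theorem double_count (S T : Finset V) : ∑ v ∈ S, cn G v T = ∑ w ∈ T, cn G w S := by
  have h := Finset.sum_card_bipartiteAbove_eq_sum_card_bipartiteBelow
    (s := S) (t := T) (fun v w => G.Adj v w)
  simp only [Finset.bipartiteAbove, Finset.bipartiteBelow] at h
  unfold cn
  rw [h]
  refine Finset.sum_congr rfl fun w _ => ?_
  congr 1
  ext v
  simp [SimpleGraph.adj_comm]

/-- The charge of a vertex. -/
noncomputable def om (G : SimpleGraph V) (v : V) : ℤ :=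
  if G.degree v = 2 then (cn G v (D G 3) : ℤ) - 1
  else if G.degree v = 3 then 2 - (cn G v (D G 2) : ℤ)
  else 3 * (G.degree v : ℤ) - 7

theorem om_two {v : V} (h : G.degree v = 2) : om G v = (cn G v (D G 3) : ℤ) - 1 := by
  simp [om, h]

theorem om_three {v : V} (h : G.degree v = 3) : om G v = 2 - (cn G v (D G 2) : ℤ) := by
  simp [om, h]

theorem om_other {v : V} (h : G.degree v ≠ 2) (h' : G.degree v ≠ 3) :
    om G v = 3 * (G.degree v : ℤ) - 7 := by
  simp [om, h, h']

theorem sum_om : ∑ v, om G v = ∑ v, (3 * (G.degree v : ℤ) - 7) := by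
  have h1 : ∀ v, om G v = (3 * (G.degree v : ℤ) - 7)
      + (if G.degree v = 2 then (cn G v (D G 3) : ℤ) else 0)
      - (if G.degree v = 3 then (cn G v (D G 2) : ℤ) else 0) := by
    intro v
    by_cases h2 : G.degree v = 2
    · rw [om_two h2]; simp [h2]; ring
    · by_cases h3 : G.degree v = 3
      · rw [om_three h3]; simp [h3]
      · rw [om_other h2 h3]; simp [h2, h3]
  rw [Finset.sum_congr rfl (fun v _ => h1 v), Finset.sum_sub_distrib, Finset.sum_add_distrib]
  have e1 : ∑ v, (if G.degree v = 2 then (cn G v (D G 3) : ℤ) else 0)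
      = ∑ v ∈ D G 2, (cn G v (D G 3) : ℤ) := by
    conv_rhs => rw [D]
    rw [Finset.sum_filter]
  have e2 : ∑ v, (if G.degree v = 3 then (cn G v (D G 2) : ℤ) else 0)
      = ∑ v ∈ D G 3, (cn G v (D G 2) : ℤ) := by
    conv_rhs => rw [D]
    rw [Finset.sum_filter]
  have e3 : ∑ v ∈ D G 2, (cn G v (D G 3) : ℤ) = ∑ v ∈ D G 3, (cn G v (D G 2) : ℤ) := by
    have := double_count (G := G) (D G 2) (D G 3)
    exact_mod_cast this
  rw [e1, e2, e3]
  ring

theorem ncard_edgeSet : G.edgeSet.ncard = G.edgeFinset.card := by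
  rw [← SimpleGraph.coe_edgeFinset, Set.ncard_coe_finset]

theorem sum_deg : ∑ v, G.degree v = 2 * G.edgeSet.ncard := by
  rw [ncard_edgeSet]
  exact G.sum_degrees_eq_twice_card_edges

theorem sum_charge : ∑ v, om G v = 6 * (G.edgeSet.ncard : ℤ) - 7 * (Fintype.card V : ℤ) := by
  rw [sum_om, Finset.sum_sub_distrib, ← Finset.mul_sum]
  have h := sum_deg (G := G)
  have h' : ∑ v, (G.degree v : ℤ) = 2 * (G.edgeSet.ncard : ℤ) := by exact_mod_cast h
  rw [h']
  simp
  ring

omit [Fintype V] in
theorem cn_pos {v w : V} {T : Finset V} (hw : w ∈ T) (h : G.Adj v w) : 1 ≤ cn G v T :=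
  Finset.card_pos.2 ⟨w, by simp [hw, h]⟩

omit [Fintype V] in
theorem exists_of_cn_pos {v : V} {T : Finset V} (h : 1 ≤ cn G v T) : ∃ w ∈ T, G.Adj v w := by
  obtain ⟨w, hw⟩ := Finset.card_pos.1 h
  simp only [Finset.mem_filter] at hw
  exact ⟨w, hw.1, hw.2⟩

theorem cn_le_deg {v : V} {T : Finset V} : cn G v T ≤ G.degree v := by
  rw [← SimpleGraph.card_neighborFinset_eq_degree]
  apply Finset.card_le_card
  intro w hw
  simp only [Finset.mem_filter] at hw
  simpa using hw.2

theorem cn_lt_deg {v y : V} {T : Finset V} (hy : G.Adj v y) (hyT : y ∉ T) :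
    cn G v T < G.degree v := by
  rw [← SimpleGraph.card_neighborFinset_eq_degree]
  apply Finset.card_lt_card
  rw [Finset.ssubset_iff_of_subset]
  · exact ⟨y, by simpa using hy, fun hmem => hyT (Finset.mem_filter.1 hmem).1⟩
  · intro w hw
    simp only [Finset.mem_filter] at hw
    simpa using hw.2

omit [Fintype V] in
theorem two_le_cn {v w w' : V} {T : Finset V} (hw : w ∈ T) (h : G.Adj v w) (hw' : w' ∈ T)
    (h' : G.Adj v w') (hne : w ≠ w') : 2 ≤ cn G v T := by
  rw [cn, ← Finset.card_pair hne]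
  apply Finset.card_le_card
  intro z hz
  simp only [Finset.mem_insert, Finset.mem_singleton] at hz
  rcases hz with rfl | rfl <;> simp [*]

/-- the vertices of degree two without neighbours of degree three -/
noncomputable def EE (G : SimpleGraph V) : Finset V :=
  (D G 2).filter (fun v => cn G v (D G 3) = 0)

theorem mem_EE {v : V} : v ∈ EE G ↔ G.degree v = 2 ∧ ∀ y, G.Adj v y → G.degree y ≠ 3 := by
  simp only [EE, Finset.mem_filter, mem_D]
  constructor
  · rintro ⟨h1, h2⟩
    refine ⟨h1, fun y hy h3 => ?_⟩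
    have := cn_pos (mem_D.2 h3) hy
    omega
  · rintro ⟨h1, h2⟩
    refine ⟨h1, ?_⟩
    by_contra hc
    obtain ⟨w, hw, hvw⟩ := exists_of_cn_pos (Nat.pos_of_ne_zero hc)
    exact h2 w hvw (mem_D.1 hw)

theorem Ctx.EE_adj {a : V} (h : Ctx G a) {v : V} (hv : v ∈ EE G) : G.Adj v a := by
  rw [mem_EE] at hv
  by_contra hn
  obtain ⟨y, hy, hy3⟩ := h.G1 hv.1 hn
  exact hv.2 y hy hy3

theorem Ctx.EE_sub {a : V} (h : Ctx G a) : EE G ⊆ G.neighborFinset a := by
  intro v hv
  simpa using (h.EE_adj hv).symm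

theorem om_EE {v : V} (hv : v ∈ EE G) : om G v = -1 := by
  simp only [EE, Finset.mem_filter, mem_D] at hv
  rw [om_two hv.1, hv.2]
  simp

theorem om_two_nonneg {v : V} (h : G.degree v = 2) (hv : v ∉ EE G) : 0 ≤ om G v := by
  simp only [EE, Finset.mem_filter, mem_D, not_and] at hv
  have := hv h
  rw [om_two h]
  omega

theorem Ctx.om_three_nonneg {a : V} (h : Ctx G a) (h4 : 4 ≤ G.degree a) {v : V}
    (hv : G.degree v = 3) : 0 ≤ om G v := by
  rw [om_three hv]
  have : cn G v (D G 2) < G.degree v := by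
    by_contra hc
    refine h.G2 h4 hv fun y hy => ?_
    by_contra hy2
    exact hc (cn_lt_deg hy (by rw [mem_D]; omega))
  omega

end DMP
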