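import Pool.Agent.DMP.Leaf

/-! Maximum degree three, no leaf: local structure. -/

open scoped Classical

namespace DMP

variable {V : Type*} [Fintype V] {G : SimpleGraph V}

/-- all degrees are two or three, and three occurs -/
structure Cub (G : SimpleGraph V) (a : V) : Prop extends Ctx G a where
  h3' : G.degree a = 3
  hcl : ∀ v, G.degree v = 2 ∨ G.degree v = 3

/-- vertices of degree two with both neighbours of degree three -/
noncomputable def T1 (G : SimpleGraph V) : Finset V :=
  (D G 2).filter (fun v => cn G v (D G 3) = 2)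

theorem cn_eq_deg_iff {v : V} {T : Finset V} : cn G v T = G.degree v ↔ ∀ y, G.Adj v y → y ∈ T := by
  constructor
  · intro h y hy
    by_contra hc
    have := cn_lt_deg hy hc
    omega
  · intro h
    rw [cn, ← SimpleGraph.card_neighborFinset_eq_degree]
    congr 1
    ext w
    simp only [Finset.mem_filter, SimpleGraph.mem_neighborFinset]
    exact ⟨fun hw => hw.2, fun hw => ⟨h w hw, hw⟩⟩

theorem mem_T1 {m : V} : m ∈ T1 G ↔ G.degree m = 2 ∧ ∀ y, G.Adj m y → G.degree y = 3 := by
  simp only [T1, Finset.mem_filter, mem_D]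
  constructor
  · rintro ⟨h1, h2⟩
    refine ⟨h1, fun y hy => ?_⟩
    exact mem_D.1 (cn_eq_deg_iff.1 (h2.trans h1.symm) y hy)
  · rintro ⟨h1, h2⟩
    refine ⟨h1, ?_⟩
    rw [← h1, cn_eq_deg_iff]
    exact fun y hy => mem_D.2 (h2 y hy)

variable {a : V}

theorem Cub.cn_add (h : Cub G a) (x : V) : cn G x (D G 3) + cn G x (D G 2) = G.degree x := by
  rw [cn, cn, ← Finset.card_union_of_disjoint, ← SimpleGraph.card_neighborFinset_eq_degree]
  · congr 1
    ext w
    simp only [Finset.mem_union, Finset.mem_filter, mem_D, SimpleGraph.mem_neighborFinset]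
    constructor
    · rintro (⟨-, h⟩ | ⟨-, h⟩) <;> exact h
    · intro hw
      rcases h.hcl w with e | e
      · exact Or.inr ⟨e, hw⟩
      · exact Or.inl ⟨e, hw⟩
  · rw [Finset.disjoint_left]
    intro v hv hv'
    simp only [Finset.mem_filter, mem_D] at hv hv'
    omega

theorem Cub.deg_le (h : Cub G a) (v : V) : G.degree v ≤ 3 := by
  rcases h.hcl v with e | e <;> omega

/-- a vertex of degree two has a neighbour of degree three -/
theorem Cub.one_le (h : Cub G a) {v : V} (hv : G.degree v = 2) : 1 ≤ cn G v (D G 3) := by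
  obtain ⟨p, q, hpq, hp, hq⟩ := exists_two_nbrs (G := G) (x := v) (by omega)
  rcases h.hcl p with e | e
  · have := h.T3 hv hp hq hpq e
    have := h.deg_le q
    exact cn_pos (mem_D.2 (by omega)) hq
  · exact cn_pos (mem_D.2 e) hp

/-- The type of a vertex of degree two that is not in `T1`. -/
theorem Cub.not_T1 (h : Cub G a) {g : V} (hg : G.degree g = 2) (hgT : g ∉ T1 G) {x : V}
    (hgx : G.Adj g x) (hx : G.degree x = 3) :
    ∃ g', G.Adj g g' ∧ g' ≠ x ∧ G.degree g' = 2 ∧ (∀ r, G.Adj g r → r = x ∨ r = g') ∧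
      (∀ r, G.Adj g' r → r ≠ g → G.degree r = 3) := by
  obtain ⟨g', hg', hne⟩ := exists_nbr_ne (G := G) (x := g) (p := x) (by omega)
  have Ng : ∀ r, G.Adj g r → r = x ∨ r = g' := fun r hr => nbr_two hg.le hgx hg' hne.symm hr
  have hd : G.degree g' = 2 := by
    rcases h.hcl g' with e | e
    · exact e
    · exfalso
      apply hgT
      rw [mem_T1]
      refine ⟨hg, fun y hy => ?_⟩
      rcases Ng y hy with rfl | rfl <;> assumption
  refine ⟨g', hg', hne, hd, Ng, fun r hr hrg => ?_⟩
  have := h.T3 hd hg'.symm hr hrg.symm hg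
  have := h.deg_le r
  omega

/-- `L2` -/
theorem Cub.L2 (h : Cub G a) {x y z g : V} (hx : G.degree x = 3) (hy : G.degree y = 3)
    (hz : G.degree z = 3) (hxy : G.Adj x y) (hyz : G.Adj y z) (hzx : z ≠ x) (hg : G.degree g = 2)
    (hgx : G.Adj g x) : g ∈ T1 G := by
  by_contra hgT
  obtain ⟨g', hgg', hg'x, hg', -, -⟩ := h.not_T1 hg hgT hgx hx
  have n1 : g' ≠ y := by rintro rfl; omega
  have n2 : g' ≠ z := by rintro rfl; omega
  have n3 : g ≠ y := by rintro rfl; omega
  have n4 : g ≠ z := by rintro rfl; omega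
  exact h.hS.no5 hgg'.symm hgx hxy hyz hg'x n1 n2 n3 n4 hzx.symm (by omega) (by omega) (by omega)
    (by omega)

/-- `L1` -/
theorem Cub.L1 (h : Cub G a) {x y m g : V} (hx : G.degree x = 3) (hy : G.degree y = 3)
    (hxy : G.Adj x y) (hm : m ∈ T1 G) (hmx : G.Adj m x) (hg : G.degree g = 2)
    (hgx : G.Adj g x) : g ∈ T1 G := by
  by_contra hgT
  obtain ⟨g', hgg', hg'x, hg', Ng, Ng'⟩ := h.not_T1 hg hgT hgx hx
  have hm' := mem_T1.1 hm
  have hgy : ¬ G.Adj g y := by
    intro hadj
    rcases Ng y hadj with e | e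
    · exact hxy.ne e.symm
    · subst e; omega
  have hmg : m ≠ g := by rintro rfl; exact hgT hm
  have hym : y ≠ m := by rintro rfl; omega
  have hyg : y ≠ g := by rintro rfl; omega
  have hmaxy : ∀ w, G.degree w ≤ G.degree y := fun w => hy ▸ h.deg_le w
  rcases h.hS.A1 hmaxy (by omega) hgy with ⟨p1, p2, p3, hp, hp1, hp2, hp3⟩ |
    ⟨y', z, hyz, hy', hz, hdy, hdz⟩
  · have f12 := hp.f12
    have f23 := hp.f23
    rcases Ng p3 hp.a34.symm with e | e
    · subst e
      have e2 : p2 = m := by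
        rcases nbr_three hx.le hxy hgx.symm hmx.symm hyg hym hmg.symm hp.a23.symm with e | e | e
        · exact absurd e hp2
        · exact absurd e hp.n24
        · exact e
      subst e2
      have := hm'.2 p1 hp.a12.symm
      omega
    · subst e
      have := Ng' p2 hp.a23.symm hp.n24
      omega
  · rcases Ng y' hy' with e | e
    · rcases Ng z hz with e' | e'
      · exact hyz (e.trans e'.symm)
      · subst e'; omega
    · subst e; omega

/-- a sufficient condition for being low -/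
def Lw (G : SimpleGraph V) (x : V) : Prop :=
  ∀ y, G.Adj x y → G.degree y = 3 → ∀ z, G.Adj y z → z ≠ x → z ∈ T1 G

theorem Cub.low_of_Lw (h : Cub G a) {x : V} (hL : Lw G x) : Low G x := by
  intro p1 p2 p3 hp
  have f12 := hp.f12
  have f23 := hp.f23
  rcases h.hcl p3 with e | e
  · have := h.hcl p2
    have := h.hcl p1
    have := h.T3 (x := p2) (w := p3) (y := p1) (by omega) hp.a23 hp.a12.symm hp.n13.symm e
    omega
  · have hm := hL p3 hp.a34.symm e p2 hp.a23.symm hp.n24
    rw [mem_T1] at hm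
    have := hm.2 p1 hp.a12.symm
    omega

theorem Cub.Lw_adj (h : Cub G a) {x y : V} (hx : G.degree x = 3) (hy : G.degree y = 3)
    (hxy : x ≠ y) (hLx : Lw G x) (hLy : Lw G y) : G.Adj x y := by
  by_contra hn
  rcases h.hS.A2 (fun w => hx ▸ h.deg_le w) (fun w => hy ▸ h.deg_le w) hxy hn with
    ⟨p1, p2, p3, hp, -⟩ | ⟨p1, p2, p3, hp, -⟩
  · exact h.low_of_Lw hLx _ _ _ hp
  · exact h.low_of_Lw hLy _ _ _ hp

theorem Cub.cn_T1_le (_h : Cub G a) (x : V) : cn G x (T1 G) ≤ cn G x (D G 2) :=
  Finset.card_le_card (Finset.filter_subset_filter _ (Finset.filter_subset _ _))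

theorem Cub.cn_T1_eq (_h : Cub G a) {x : V} (hall : ∀ g, G.Adj g x → G.degree g = 2 → g ∈ T1 G) :
    cn G x (T1 G) = cn G x (D G 2) := by
  unfold cn
  congr 1
  ext g
  simp only [Finset.mem_filter, mem_D]
  constructor
  · rintro ⟨h1, h2⟩
    exact ⟨(mem_T1.1 h1).1, h2⟩
  · rintro ⟨h1, h2⟩
    exact ⟨hall g h2.symm h1, h2⟩

/-- handshake for the subgraph induced by `T` -/
theorem even_sum_cn (T : Finset V) : Even (∑ x ∈ T, cn G x T) := by
  let H : SimpleGraph V :=
    { Adj := fun x y => G.Adj x y ∧ x ∈ T ∧ y ∈ T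
      symm := ⟨fun x y h => ⟨h.1.symm, h.2.2, h.2.1⟩⟩
      loopless := ⟨fun x h => h.1.ne rfl⟩ }
  have hd : ∀ x, H.degree x = if x ∈ T then cn G x T else 0 := by
    intro x
    rw [← SimpleGraph.card_neighborFinset_eq_degree]
    split_ifs with hx
    · unfold cn
      congr 1
      ext y
      simp only [SimpleGraph.mem_neighborFinset, Finset.mem_filter]
      exact ⟨fun hy => ⟨hy.2.2, hy.1⟩, fun hy => ⟨hy.2, hx, hy.1⟩⟩
    · rw [Finset.card_eq_zero]
      ext y
      simp only [SimpleGraph.mem_neighborFinset, Finset.notMem_empty, iff_false]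
      exact fun hy => hx hy.2.1
  have hs := H.sum_degrees_eq_twice_card_edges
  rw [Finset.sum_congr rfl (fun x _ => hd x), ← Finset.sum_filter] at hs
  simp only [Finset.filter_mem_eq_inter, Finset.univ_inter] at hs
  rw [hs]
  exact even_two_mul _

end DMP
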