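import Pool.Agent.DMP.Cubic

/-! Maximum degree three, no leaf: counting. -/

open scoped Classical

namespace DMP

variable {V : Type*} [Fintype V] {G : SimpleGraph V} {a : V}

/-- vertices of degree three with at least two neighbours of degree three -/
noncomputable def BB (G : SimpleGraph V) : Finset V :=
  (D G 3).filter (fun x => 2 ≤ cn G x (D G 3))

/-- vertices of degree three without neighbours of degree three -/
noncomputable def KK (G : SimpleGraph V) : Finset V :=
  (D G 3).filter (fun x => cn G x (D G 3) = 0)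

/-- vertices of degree three with one neighbour of degree three, which is in `BB` -/
noncomputable def LL (G : SimpleGraph V) : Finset V :=
  (D G 3).filter (fun x => cn G x (D G 3) = 1 ∧ 1 ≤ cn G x (BB G))

/-- the other vertices of degree three -/
noncomputable def RR (G : SimpleGraph V) : Finset V :=
  (D G 3).filter (fun x => cn G x (D G 3) = 1 ∧ cn G x (BB G) = 0)

theorem split_sum (φ : V → ℤ) : ∑ x ∈ D G 3, φ x =
    ∑ x ∈ KK G, φ x + ∑ x ∈ BB G, φ x + ∑ x ∈ LL G, φ x + ∑ x ∈ RR G, φ x := by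
  have key : ∀ x, φ x = (if cn G x (D G 3) = 0 then φ x else 0)
      + (if 2 ≤ cn G x (D G 3) then φ x else 0)
      + (if cn G x (D G 3) = 1 ∧ 1 ≤ cn G x (BB G) then φ x else 0)
      + (if cn G x (D G 3) = 1 ∧ cn G x (BB G) = 0 then φ x else 0) := by
    intro x
    by_cases h0 : cn G x (D G 3) = 0
    · simp [h0]
    by_cases h2 : 2 ≤ cn G x (D G 3)
    · have h1 : cn G x (D G 3) ≠ 1 := by omega
      simp [h0, h2, h1]
    have h1 : cn G x (D G 3) = 1 := by omega
    by_cases hb : cn G x (BB G) = 0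
    · simp [h1, hb]
    · have : 1 ≤ cn G x (BB G) := by omega
      simp [h1, hb, this]
  rw [Finset.sum_congr rfl (fun x _ => key x), Finset.sum_add_distrib, Finset.sum_add_distrib,
    Finset.sum_add_distrib, KK, BB, LL, RR, Finset.sum_filter, Finset.sum_filter,
    Finset.sum_filter, Finset.sum_filter]
  rfl

/-- twice the charge, moved to the vertices of degree three -/
noncomputable def ww (G : SimpleGraph V) (x : V) : ℤ :=
  2 * (cn G x (D G 3) : ℤ) - 2 + (cn G x (T1 G) : ℤ)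

theorem Cub.sum_eq (h : Cub G a) :
    ∑ v, om G v = ∑ x ∈ D G 3, ((cn G x (D G 3) : ℤ) - 1) + ((T1 G).card : ℤ) := by
  have hdisj : Disjoint (D G 2) (D G 3) := by
    rw [Finset.disjoint_left]
    intro v hv hv'
    rw [mem_D] at hv hv'
    omega
  have huniv : (Finset.univ : Finset V) = D G 2 ∪ D G 3 := by
    ext v
    simp only [Finset.mem_univ, Finset.mem_union, mem_D, true_iff]
    exact h.hcl v
  rw [huniv, Finset.sum_union hdisj, add_comm]
  congr 1
  · refine Finset.sum_congr rfl fun x hx => ?_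
    rw [mem_D] at hx
    have := h.cn_add x
    rw [om_three hx]
    omega
  · have h1 : ∀ v ∈ D G 2, om G v = if cn G v (D G 3) = 2 then 1 else 0 := by
      intro v hv
      rw [mem_D] at hv
      have := h.one_le hv
      have := h.cn_add v
      rw [om_two hv]
      split_ifs with h2
      · rw [h2]; norm_num
      · have : cn G v (D G 3) = 1 := by omega
        rw [this]; norm_num
    rw [Finset.sum_congr rfl h1, T1, Finset.sum_ite]
    simp

theorem Cub.two_sum (h : Cub G a) : 2 * ∑ v, om G v = ∑ x ∈ D G 3, ww G x := by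
  have h1 : ∑ x ∈ D G 3, cn G x (T1 G) = 2 * (T1 G).card := by
    rw [double_count]
    have h0 : ∀ m ∈ T1 G, cn G m (D G 3) = 2 := fun m hm => (Finset.mem_filter.1 hm).2
    rw [Finset.sum_congr rfl h0, Finset.sum_const]
    simp [mul_comm]
  have h2 : ∑ x ∈ D G 3, (cn G x (T1 G) : ℤ) = 2 * ((T1 G).card : ℤ) := by exact_mod_cast h1
  rw [h.sum_eq]
  unfold ww
  rw [Finset.sum_add_distrib, h2, mul_add, Finset.mul_sum]
  congr 1
  refine Finset.sum_congr rfl fun x _ => ?_
  ring

theorem Cub.card_even (h : Cub G a) : Even (D G 3).card := by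
  have hdisj : Disjoint (D G 2) (D G 3) := by
    rw [Finset.disjoint_left]
    intro v hv hv'
    rw [mem_D] at hv hv'
    omega
  have huniv : (Finset.univ : Finset V) = D G 2 ∪ D G 3 := by
    ext v
    simp only [Finset.mem_univ, Finset.mem_union, mem_D, true_iff]
    exact h.hcl v
  have hs := sum_deg (G := G)
  rw [huniv, Finset.sum_union hdisj, Finset.sum_congr rfl (fun v hv => mem_D.1 hv),
    Finset.sum_const, Finset.sum_congr rfl (fun v hv => mem_D.1 hv), Finset.sum_const] at hs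
  simp only [smul_eq_mul] at hs
  rw [Nat.even_iff]
  omega

/-- the parity constraint -/
theorem Cub.parity (h : Cub G a) :
    Even (∑ x ∈ BB G, ((cn G x (D G 3) : ℤ) - 1) - ((KK G).card : ℤ)) := by
  have h1 : Even (∑ x ∈ D G 3, ((cn G x (D G 3) : ℤ) - 1)) := by
    rw [Finset.sum_sub_distrib]
    have e1 : Even (∑ x ∈ D G 3, (cn G x (D G 3) : ℤ)) := by
      have := even_sum_cn (G := G) (D G 3)
      have h' : ((∑ x ∈ D G 3, cn G x (D G 3) : ℕ) : ℤ) = ∑ x ∈ D G 3, (cn G x (D G 3) : ℤ) := by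
        push_cast; rfl
      rw [← h']
      exact (Int.even_coe_nat _).2 this
    have e2 : Even (∑ x ∈ D G 3, (1 : ℤ)) := by
      rw [Finset.sum_const]
      simpa using (Int.even_coe_nat _).2 h.card_even
    exact e1.sub e2
  rw [split_sum] at h1
  have hK : ∑ x ∈ KK G, ((cn G x (D G 3) : ℤ) - 1) = - ((KK G).card : ℤ) := by
    rw [Finset.sum_congr rfl (g := fun _ => (-1 : ℤ))]
    · simp
    · intro x hx
      rw [(Finset.mem_filter.1 hx).2]
      norm_num
  have hL : ∑ x ∈ LL G, ((cn G x (D G 3) : ℤ) - 1) = 0 := by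
    apply Finset.sum_eq_zero
    intro x hx
    rw [(Finset.mem_filter.1 hx).2.1]
    norm_num
  have hR : ∑ x ∈ RR G, ((cn G x (D G 3) : ℤ) - 1) = 0 := by
    apply Finset.sum_eq_zero
    intro x hx
    rw [(Finset.mem_filter.1 hx).2.1]
    norm_num
  rw [hK, hL, hR] at h1
  have : ∑ x ∈ BB G, ((cn G x (D G 3) : ℤ) - 1) - ((KK G).card : ℤ) =
      - ((KK G).card : ℤ) + ∑ x ∈ BB G, ((cn G x (D G 3) : ℤ) - 1) + 0 + 0 := by ring
  rw [this]
  exact h1

theorem Cub.KK_Lw (_h : Cub G a) {x : V} (hx : x ∈ KK G) : Lw G x := by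
  intro y hy hy3
  exfalso
  have := cn_pos (mem_D.2 hy3) hy
  have := (Finset.mem_filter.1 hx).2
  omega

theorem mem_BB {x : V} : x ∈ BB G ↔ G.degree x = 3 ∧ 2 ≤ cn G x (D G 3) := by
  simp [BB, mem_D]

theorem mem_KK {x : V} : x ∈ KK G ↔ G.degree x = 3 ∧ cn G x (D G 3) = 0 := by
  simp [KK, mem_D]

theorem mem_LL {x : V} : x ∈ LL G ↔ G.degree x = 3 ∧ cn G x (D G 3) = 1 ∧
    1 ≤ cn G x (BB G) := by
  simp [LL, mem_D]

theorem mem_RR {x : V} : x ∈ RR G ↔ G.degree x = 3 ∧ cn G x (D G 3) = 1 ∧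
    cn G x (BB G) = 0 := by
  simp [RR, mem_D]

/-- if `x` has a neighbour in `BB` then all its neighbours of degree two are in `T1` -/
theorem Cub.T1_of_BB (h : Cub G a) {x b : V} (hx : G.degree x = 3) (hb : b ∈ BB G)
    (hxb : G.Adj x b) : cn G x (T1 G) + cn G x (D G 3) = 3 := by
  rw [mem_BB] at hb
  have h1 : 1 < ((D G 3).filter (fun w => G.Adj b w)).card := hb.2
  obtain ⟨z, hz, hzx⟩ := Finset.exists_mem_ne h1 x
  rw [Finset.mem_filter, mem_D] at hz
  have h2 := h.cn_T1_eq (x := x) (fun g hg hg2 => h.L2 hx hb.1 hz.1 hxb hz.2 hzx hg2 hg)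
  have h3 := h.cn_add x
  omega

theorem Cub.ww_BB (h : Cub G a) {b : V} (hb : b ∈ BB G) (hc : 1 ≤ cn G b (BB G)) :
    ww G b = (cn G b (D G 3) : ℤ) + 1 := by
  obtain ⟨c, hc, hbc⟩ := exists_of_cn_pos hc
  have := h.T1_of_BB (mem_BB.1 hb).1 hc hbc
  unfold ww
  omega

theorem Cub.ww_LL (h : Cub G a) {y : V} (hy : y ∈ LL G) : ww G y = 2 := by
  rw [mem_LL] at hy
  obtain ⟨c, hc, hbc⟩ := exists_of_cn_pos hy.2.2
  have := h.T1_of_BB hy.1 hc hbc
  unfold ww
  omega

theorem Cub.cn_BB_LL (_h : Cub G a) {b : V} (hb : b ∈ BB G) :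
    cn G b (BB G) + cn G b (LL G) = cn G b (D G 3) := by
  rw [cn, cn, cn, ← Finset.card_union_of_disjoint]
  · congr 1
    ext y
    simp only [Finset.mem_union, Finset.mem_filter, mem_D]
    constructor
    · rintro (⟨h1, h2⟩ | ⟨h1, h2⟩)
      · exact ⟨(mem_BB.1 h1).1, h2⟩
      · exact ⟨(mem_LL.1 h1).1, h2⟩
    · rintro ⟨h1, h2⟩
      have h3 : 1 ≤ cn G y (D G 3) := cn_pos (mem_D.2 (mem_BB.1 hb).1) h2.symm
      by_cases h4 : 2 ≤ cn G y (D G 3)
      · exact Or.inl ⟨mem_BB.2 ⟨h1, h4⟩, h2⟩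
      · exact Or.inr ⟨mem_LL.2 ⟨h1, by omega, cn_pos hb h2.symm⟩, h2⟩
  · rw [Finset.disjoint_left]
    intro y hy hy'
    rw [Finset.mem_filter, mem_BB] at hy
    rw [Finset.mem_filter, mem_LL] at hy'
    omega

omit [Fintype V] in
theorem cn_mono {x : V} {S T : Finset V} (h : S ⊆ T) : cn G x S ≤ cn G x T :=
  Finset.card_le_card (Finset.filter_subset_filter _ h)

omit [Fintype V] in
theorem cn_lt_card {b : V} {T : Finset V} (hb : b ∈ T) : cn G b T < T.card := by
  apply Finset.card_lt_card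
  rw [Finset.ssubset_iff_of_subset (Finset.filter_subset _ _)]
  exact ⟨b, hb, fun hm => (Finset.mem_filter.1 hm).2.ne rfl⟩

theorem Cub.card_LL (_h : Cub G a) : (LL G).card = ∑ b ∈ BB G, cn G b (LL G) := by
  rw [double_count]
  rw [Finset.sum_congr rfl (g := fun _ => 1)]
  · simp
  · intro y hy
    rw [mem_LL] at hy
    have : cn G y (BB G) ≤ cn G y (D G 3) := cn_mono (Finset.filter_subset _ _)
    omega

end DMP
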