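import Pool.Agent.DMP.Cubic2

/-! Maximum degree three, no leaf: conclusion. -/

open scoped Classical

namespace DMP

variable {V : Type*} [Fintype V] {G : SimpleGraph V} {a : V}

theorem Cub.T1_adj_BB (h : Cub G a) {x b g : V} (hx : G.degree x = 3) (hb : b ∈ BB G)
    (hxb : G.Adj x b) (hg : G.degree g = 2) (hgx : G.Adj g x) : g ∈ T1 G := by
  rw [mem_BB] at hb
  have h1 : 1 < ((D G 3).filter (fun w => G.Adj b w)).card := hb.2
  obtain ⟨z, hz, hzx⟩ := Finset.exists_mem_ne h1 x
  rw [Finset.mem_filter, mem_D] at hz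
  exact h.L2 hx hb.1 hz.1 hxb hz.2 hzx hg hgx

theorem Cub.eq_of_one (_h : Cub G a) {y b z : V} (hy : cn G y (D G 3) = 1)
    (hb : G.degree b = 3) (hz : G.degree z = 3) (hyb : G.Adj y b) (hyz : G.Adj y z) : z = b := by
  by_contra hne
  have := two_le_cn (mem_D.2 hz) hyz (mem_D.2 hb) hyb hne
  omega

theorem Cub.one_le_cn_BB (h : Cub G a) (hK : (KK G).Nonempty) {b : V} (hb : b ∈ BB G) :
    1 ≤ cn G b (BB G) := by
  by_contra hc
  obtain ⟨x0, hx0⟩ := hK
  have hb' := mem_BB.1 hb
  have hx0' := mem_KK.1 hx0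
  have hLw : Lw G b := by
    intro y hy hy3 z hz hzb
    have hyB : y ∉ BB G := fun hyB => hc (cn_pos hyB hy)
    have h1 : 1 ≤ cn G y (D G 3) := cn_pos (mem_D.2 hb'.1) hy.symm
    have h2 : cn G y (D G 3) = 1 := by
      by_contra hne
      exact hyB (mem_BB.2 ⟨hy3, by omega⟩)
    rcases h.hcl z with e | e
    · exact h.T1_adj_BB hy3 hb hy.symm e hz.symm
    · exact absurd (h.eq_of_one h2 hb'.1 e hy.symm hz) hzb
  have hne : b ≠ x0 := by
    rintro rfl
    omega
  have hadj := h.Lw_adj hb'.1 hx0'.1 hne hLw (h.KK_Lw hx0)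
  have := cn_pos (mem_D.2 hb'.1) hadj.symm
  omega

theorem Cub.card_KK (h : Cub G a) : (KK G).card ≤ 1 := by
  rw [Finset.card_le_one]
  intro x hx y hy
  by_contra hne
  have hx' := mem_KK.1 hx
  have hy' := mem_KK.1 hy
  have hadj := h.Lw_adj hx'.1 hy'.1 hne (h.KK_Lw hx) (h.KK_Lw hy)
  have := cn_pos (mem_D.2 hy'.1) hadj
  omega

/-- the case where every vertex of degree three has exactly one neighbour of degree three -/
theorem Cub.dimers (h : Cub G a) (hall : ∀ x, G.degree x = 3 → cn G x (D G 3) = 1)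
    {m : V} (hm : m ∈ T1 G) : False := by
  have hm' := mem_T1.1 hm
  obtain ⟨x, x', hxx', hmx, hmx'⟩ := exists_two_nbrs (G := G) (x := m) (by omega)
  -- partner of a vertex
  have partner : ∀ x, G.degree x = 3 → ∃ y, G.degree y = 3 ∧ G.Adj x y := by
    intro x hx
    obtain ⟨y, hy, hxy⟩ := exists_of_cn_pos (G := G) (v := x) (T := D G 3) (hall x hx).ge
    exact ⟨y, mem_D.1 hy, hxy⟩
  -- the partner of a neighbour of a vertex in `T1` is low
  have hlow : ∀ m x y, m ∈ T1 G → G.Adj m x → G.degree y = 3 → G.Adj x y → Lw G y := by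
    intro m x y hm hmx hy hxy z hz hz3 t ht hty
    have hx := (mem_T1.1 hm).2 x hmx
    have hzx : z = x := h.eq_of_one (hall y hy) hx hz3 hxy.symm hz
    subst hzx
    rcases h.hcl t with e | e
    · exact h.L1 hx hy hxy hm hmx e ht.symm
    · exact absurd (h.eq_of_one (hall z hx) hy e hxy ht) hty
  -- the other neighbour of a vertex of `T1` is the partner
  have hother : ∀ m x x' y, m ∈ T1 G → G.Adj m x → G.Adj m x' → x ≠ x' → G.degree y = 3 →
      G.Adj x y → x' = y := by
    intro m x x' y hm hmx hmx' hxx' hy hxy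
    have hx := (mem_T1.1 hm).2 x hmx
    have hx' := (mem_T1.1 hm).2 x' hmx'
    obtain ⟨y', hy', hx'y'⟩ := partner x' hx'
    by_cases hyy' : y = y'
    · subst hyy'
      exact absurd (h.eq_of_one (hall y hy) hx' hx hx'y'.symm hxy.symm) hxx'
    · have hadj := h.Lw_adj hy hy' hyy' (hlow m x y hm hmx hy hxy)
        (hlow m x' y' hm hmx' hy' hx'y')
      have e1 : y' = x := h.eq_of_one (hall y hy) hx hy' hxy.symm hadj
      subst e1
      exact h.eq_of_one (hall y' hx) hy hx' hxy hx'y'.symm
  have hx3 := hm'.2 x hmx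
  obtain ⟨y, hy, hxy⟩ := partner x hx3
  have hmy : m ≠ y := by rintro rfl; omega
  obtain ⟨w, hxw, hwy, hwm⟩ := exists_nbr_ne_ne (G := G) (x := x) (p := y) (q := m) (by omega)
  have hw2 : G.degree w = 2 := by
    rcases h.hcl w with e | e
    · exact e
    · exact absurd (h.eq_of_one (hall x hx3) hy e hxy hxw) hwy
  have hwT : w ∈ T1 G := h.L1 hx3 hy hxy hm hmx hw2 hxw.symm
  have e1 : x' = y := hother m x x' y hm hmx hmx' hxx' hy hxy
  subst e1
  obtain ⟨x'', hwx'', hx''⟩ := exists_nbr_ne (G := G) (x := w) (p := x) (by omega)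
  have e2 : x'' = x' := hother w x x'' x' hwT hxw.symm hwx'' hx''.symm hy hxy
  subst e2
  exact h.F5 h.h3' hxy hx3 hy hm'.1 hmx hmx' hxw.symm hwx'' hwm.symm

theorem Cub.final (h : Cub G a) : 5 ≤ ∑ v, om G v ∨ ∑ v, om G v = 0 := by
  by_contra hcon
  push Not at hcon
  obtain ⟨hlt, hne0⟩ := hcon
  have h2S := h.two_sum
  rw [split_sum] at h2S
  have hpar := h.parity
  have hKc := h.card_KK
  have deg3 : ∀ x, cn G x (D G 3) ≤ G.degree x := fun x => cn_le_deg
  -- the four sums
  have hwK : ∑ x ∈ KK G, ww G x = -2 * ((KK G).card : ℤ) + ∑ x ∈ KK G, (cn G x (T1 G) : ℤ) := by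
    have h0 : ∀ x ∈ KK G, ww G x = -2 + (cn G x (T1 G) : ℤ) := by
      intro x hx
      have := (mem_KK.1 hx).2
      unfold ww
      rw [this]
      norm_num
    rw [Finset.sum_congr rfl h0, Finset.sum_add_distrib, Finset.sum_const]
    simp
    ring
  have hK0 : 0 ≤ ∑ x ∈ KK G, (cn G x (T1 G) : ℤ) := Finset.sum_nonneg fun x _ => by positivity
  have hwL : ∑ x ∈ LL G, ww G x = ∑ b ∈ BB G, 2 * (cn G b (LL G) : ℤ) := by
    rw [Finset.sum_congr rfl (fun x hx => h.ww_LL hx), Finset.sum_const, ← Finset.mul_sum]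
    have := h.card_LL
    have h' : ((LL G).card : ℤ) = ∑ b ∈ BB G, (cn G b (LL G) : ℤ) := by exact_mod_cast this
    rw [← h']
    simp [mul_comm]
  have hR : ∀ x ∈ RR G, 0 ≤ ww G x := by
    intro x hx
    have := (mem_RR.1 hx).2.1
    unfold ww
    rw [this]
    positivity
  have hwR : 0 ≤ ∑ x ∈ RR G, ww G x := Finset.sum_nonneg hR
  set β : V → ℤ := fun b => ww G b + 2 * (cn G b (LL G) : ℤ) with hβ
  have hsumβ : ∑ x ∈ BB G, ww G x + ∑ x ∈ LL G, ww G x = ∑ b ∈ BB G, β b := by
    rw [hwL, ← Finset.sum_add_distrib]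
  have main : ∑ b ∈ BB G, β b + ∑ x ∈ RR G, ww G x + ∑ x ∈ KK G, (cn G x (T1 G) : ℤ) ≤
      8 + 2 * ((KK G).card : ℤ) := by
    rw [← hsumβ]
    linarith
  have hβ1 : ∀ b ∈ BB G, 1 ≤ cn G b (BB G) →
      β b = 3 * (cn G b (D G 3) : ℤ) + 1 - 2 * (cn G b (BB G) : ℤ) := by
    intro b hb hc
    have h1 := h.ww_BB hb hc
    have h2 := h.cn_BB_LL hb
    simp only [hβ]
    rw [h1]
    omega
  have hβ0 : ∀ b ∈ BB G, cn G b (BB G) = 0 → 4 * (cn G b (D G 3) : ℤ) - 2 ≤ β b := by
    intro b hb hc
    have h2 := h.cn_BB_LL hb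
    simp only [hβ]
    unfold ww
    omega
  have hτ : ∀ b ∈ BB G, 2 ≤ cn G b (D G 3) ∧ cn G b (D G 3) ≤ 3 := by
    intro b hb
    have := mem_BB.1 hb
    have := deg3 b
    omega
  have hle : ∀ b ∈ BB G, cn G b (BB G) ≤ cn G b (D G 3) := fun b _ =>
    cn_mono (Finset.filter_subset _ _)
  have hβ3 : ∀ b ∈ BB G, 3 ≤ β b := by
    intro b hb
    have h1 := hτ b hb
    have h2 := hle b hb
    by_cases hc : cn G b (BB G) = 0
    · have := hβ0 b hb hc
      omega
    · have := hβ1 b hb (by omega)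
      omega
  have hcardβ : 3 * ((BB G).card : ℤ) ≤ ∑ b ∈ BB G, β b := by
    have := Finset.card_nsmul_le_sum (BB G) β 3 hβ3
    simp only [nsmul_eq_mul] at this
    linarith
  have hcases : (BB G).card = 0 ∨ (BB G).card = 1 ∨ (BB G).card = 2 ∨ (BB G).card = 3 := by
    omega
  rcases hcases with hB | hB | hB | hB
  · -- no vertex in `BB`
    have hBe : BB G = ∅ := Finset.card_eq_zero.1 hB
    have hK : (KK G).card = 0 := by
      rw [hBe] at hpar
      rw [Finset.sum_empty, Int.even_iff] at hpar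
      omega
    have hKe : KK G = ∅ := Finset.card_eq_zero.1 hK
    have hall : ∀ x, G.degree x = 3 → cn G x (D G 3) = 1 := by
      intro x hx
      have h1 : x ∉ BB G := by rw [hBe]; simp
      have h2 : x ∉ KK G := by rw [hKe]; simp
      rw [mem_BB] at h1
      rw [mem_KK] at h2
      omega
    have hS := h.sum_eq
    have h0 : ∑ x ∈ D G 3, ((cn G x (D G 3) : ℤ) - 1) = 0 := by
      apply Finset.sum_eq_zero
      intro x hx
      rw [hall x (mem_D.1 hx)]
      norm_num
    rw [h0, zero_add] at hS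
    have hT : 0 < (T1 G).card := by
      rcases Nat.eq_zero_or_pos (T1 G).card with e | e
      · exact absurd (by rw [hS, e]; rfl) hne0
      · exact e
    obtain ⟨m, hm⟩ := Finset.card_pos.1 hT
    exact h.dimers hall hm
  · obtain ⟨b, hBb⟩ := Finset.card_eq_one.1 hB
    have hb : b ∈ BB G := by rw [hBb]; simp
    have hc : cn G b (BB G) = 0 := by
      have := cn_lt_card (G := G) hb
      omega
    by_cases hK : (KK G).Nonempty
    · have := h.one_le_cn_BB hK hb
      omega
    · have hKe : KK G = ∅ := Finset.not_nonempty_iff_eq_empty.1 hK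
      rw [hKe, hBb, Finset.sum_singleton, Finset.card_empty, Int.even_iff] at hpar
      rw [hKe, hBb, Finset.sum_singleton, Finset.card_empty] at main
      have h1 := hβ0 b hb hc
      have h2 := hτ b hb
      simp only [Finset.sum_empty] at main
      omega
  · obtain ⟨b, b', hbb', hBb⟩ := Finset.card_eq_two.1 hB
    have hb : b ∈ BB G := by rw [hBb]; simp
    have hb' : b' ∈ BB G := by rw [hBb]; simp
    have h5 : ∀ b ∈ BB G, 5 ≤ β b ∧ (β b = 5 → cn G b (D G 3) = 2) := by
      intro b hb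
      have h1 := hτ b hb
      have h2 := cn_lt_card (G := G) hb
      by_cases hc : cn G b (BB G) = 0
      · have := hβ0 b hb hc
        omega
      · have := hβ1 b hb (by omega)
        omega
    have g1 := h5 b hb
    have g2 := h5 b' hb'
    rw [hBb, Finset.sum_pair hbb', Int.even_iff] at hpar
    rw [hBb, Finset.sum_pair hbb'] at main
    have hβb : β b = 5 := by omega
    have hβb' : β b' = 5 := by omega
    have t1 := g1.2 hβb
    have t2 := g2.2 hβb'
    omega
  · -- three vertices in `BB`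
    have hKc1 : (KK G).card = 1 := by omega
    obtain ⟨x0, hKx⟩ := Finset.card_eq_one.1 hKc1
    have hKne : (KK G).Nonempty := ⟨x0, by rw [hKx]; simp⟩
    have hx0K : x0 ∈ KK G := by rw [hKx]; simp
    rw [hKc1, hKx, Finset.sum_singleton] at main
    have hge1 : ∀ b ∈ BB G, 1 ≤ cn G b (BB G) := fun b hb => h.one_le_cn_BB hKne hb
    -- all three have exactly two neighbours of degree three, both in `BB`
    have hβle : ∀ b ∈ BB G, β b ≤ 4 := by
      intro b hb
      have h1 : β b + ∑ c ∈ (BB G).erase b, β c = ∑ c ∈ BB G, β c := Finset.add_sum_erase _ _ hb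
      have h2 := Finset.card_nsmul_le_sum ((BB G).erase b) β 3
        (fun c hc => hβ3 c (Finset.mem_of_mem_erase hc))
      rw [Finset.card_erase_of_mem hb, hB] at h2
      simp only [nsmul_eq_mul] at h2
      push_cast at h2
      have h3 : (0 : ℤ) ≤ (cn G x0 (T1 G) : ℤ) := by positivity
      linarith
    have htwo : ∀ b ∈ BB G, cn G b (BB G) = 2 ∧ cn G b (D G 3) = 2 := by
      intro b hb
      have h1 := hτ b hb
      have h2 := cn_lt_card (G := G) hb
      have h3 := hβ1 b hb (hge1 b hb)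
      have h4 := hβle b hb
      have h5 := hle b hb
      omega
    have hadjB : ∀ b ∈ BB G, ∀ c ∈ BB G, c ≠ b → G.Adj b c := by
      intro b hb c hc hcb
      have heq : (BB G).filter (fun w => G.Adj b w) = (BB G).erase b := by
        apply Finset.eq_of_subset_of_card_le
        · intro w hw
          rw [Finset.mem_filter] at hw
          exact Finset.mem_erase.2 ⟨hw.2.ne.symm, hw.1⟩
        · rw [Finset.card_erase_of_mem hb, hB]
          exact (htwo b hb).1.ge
      have : c ∈ (BB G).filter (fun w => G.Adj b w) := by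
        rw [heq]; exact Finset.mem_erase.2 ⟨hcb, hc⟩
      exact (Finset.mem_filter.1 this).2
    have hcount : ∑ x ∈ RR G, ww G x + (cn G x0 (T1 G) : ℤ) ≤ 1 := by
      have h9 := hcardβ
      rw [hB] at h9
      push_cast at h9 main
      linarith
    -- each vertex of `BB` is joined to `x0` through a vertex of degree two
    have hm : ∀ b ∈ BB G, ∃ m ∈ T1 G, G.Adj m b ∧ G.Adj m x0 := by
      intro b hb
      have hb3 := (mem_BB.1 hb).1
      obtain ⟨c, hc, hbc⟩ := exists_of_cn_pos (hge1 b hb)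
      have h1 := h.T1_of_BB hb3 hc hbc
      have h2 := htwo b hb
      obtain ⟨m, hmT, hbm⟩ := exists_of_cn_pos (G := G) (v := b) (T := T1 G) (by omega)
      have hmT' := mem_T1.1 hmT
      refine ⟨m, hmT, hbm.symm, ?_⟩
      obtain ⟨z, hmz, hzb⟩ := exists_nbr_ne (G := G) (x := m) (p := b) (by omega)
      have hz3 := hmT'.2 z hmz
      by_cases hz0 : cn G z (D G 3) = 0
      · have : z ∈ KK G := mem_KK.2 ⟨hz3, hz0⟩
        rw [hKx, Finset.mem_singleton] at this
        rw [← this]
        exact hmz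
      exfalso
      by_cases hzB : z ∈ BB G
      · have hbz := hadjB b hb z hzB hzb
        obtain ⟨w, hw, hw'⟩ := Finset.exists_mem_notMem_of_card_lt_card
          (s := {b, z}) (t := BB G) (by rw [Finset.card_pair hzb.symm, hB]; norm_num)
        simp only [Finset.mem_insert, Finset.mem_singleton, not_or] at hw'
        have hmw : m ≠ w := by
          rintro rfl
          have := (mem_BB.1 hw).1
          omega
        exact h.F5 h.h3' hbz hb3 hz3 hmT'.1 hbm.symm hmz (hadjB b hb w hw hw'.1).symm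
          (hadjB z hzB w hw hw'.2).symm hmw
      · have hz1 : cn G z (D G 3) = 1 := by
          rw [mem_BB] at hzB
          omega
        by_cases hzBB : cn G z (BB G) = 0
        · -- `z ∈ RR`
          have hzR : z ∈ RR G := mem_RR.2 ⟨hz3, hz1, hzBB⟩
          obtain ⟨y, hy, hzy⟩ := exists_of_cn_pos (G := G) (v := z) (T := D G 3) hz1.ge
          have h3 := h.cn_T1_eq (x := z) (fun g hg hg2 =>
            h.L1 hz3 (mem_D.1 hy) hzy hmT hmz hg2 hg)
          have h4 := h.cn_add z
          have h5 : ww G z = 2 := by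
            unfold ww
            omega
          have h6 : ww G z ≤ ∑ x ∈ RR G, ww G x := Finset.single_le_sum hR hzR
          have h7 : (0 : ℤ) ≤ (cn G x0 (T1 G) : ℤ) := by positivity
          linarith
        · obtain ⟨c, hc, hzc⟩ := exists_of_cn_pos (Nat.pos_of_ne_zero hzBB)
          -- but all neighbours of degree three of `c` are in `BB`
          have hcB := htwo c hc
          have heq : (BB G).filter (fun w => G.Adj c w) = (D G 3).filter (fun w => G.Adj c w) := by
            apply Finset.eq_of_subset_of_card_le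
            · exact Finset.filter_subset_filter _ (Finset.filter_subset _ _)
            · exact (hcB.2.trans hcB.1.symm).le
          have : z ∈ (BB G).filter (fun w => G.Adj c w) := by
            rw [heq, Finset.mem_filter, mem_D]
            exact ⟨hz3, hzc.symm⟩
          exact hzB (Finset.mem_filter.1 this).1
    obtain ⟨b1, b2, b3, hb12, hb13, hb23, hBb⟩ := Finset.card_eq_three.1 hB
    have hb1 : b1 ∈ BB G := by rw [hBb]; simp
    have hb2 : b2 ∈ BB G := by rw [hBb]; simp
    obtain ⟨m1, hm1, hm1b, hm1x⟩ := hm b1 hb1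
    obtain ⟨m2, hm2, hm2b, hm2x⟩ := hm b2 hb2
    have hx0' := mem_KK.1 hx0K
    have hx0b : ∀ b ∈ BB G, x0 ≠ b := by
      rintro b hb rfl
      have := hτ x0 hb
      omega
    have hm12 : m1 ≠ m2 := by
      rintro rfl
      have := three_le_deg hm1b hm2b hm1x hb12 (hx0b b1 hb1).symm (hx0b b2 hb2).symm
      have := (mem_T1.1 hm1).1
      omega
    have hcn := two_le_cn (G := G) hm1 hm1x.symm hm2 hm2x.symm hm12
    have hcn' : (2 : ℤ) ≤ (cn G x0 (T1 G) : ℤ) := by exact_mod_cast hcn
    linarith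

end DMP
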