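import Mathlib

/-! Degree monotone paths and saturation (MP_d898df_co): definitions. -/

open scoped Classical

namespace DMP

/-- `l` lists, in order, the vertices of a degree monotone path of `G`: it is non-empty, its
vertices are distinct, consecutive ones are adjacent, and the degrees are non-decreasing along `l`
or non-increasing along `l`. -/
def IsDegMonoPath {V : Type*} [Fintype V] (G : SimpleGraph V) (l : List V) : Prop :=
  l ≠ [] ∧ l.Nodup ∧ l.IsChain G.Adj ∧
    (l.IsChain (fun x y => G.degree x ≤ G.degree y) ∨
      l.IsChain (fun x y => G.degree y ≤ G.degree x))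

/-- `mp(G)`: the largest length (number of vertices) of a degree monotone path of `G`. -/
noncomputable def mp {V : Type*} [Fintype V] (G : SimpleGraph V) : ℕ :=
  sSup {m | ∃ l : List V, IsDegMonoPath G l ∧ l.length = m}

/-- `G` is `k`-saturated: `mp(G) ≤ k-1`, and `mp(G+e) ≥ k` for every edge `e` joining two
non-adjacent vertices of `G`. -/
def Saturated {V : Type*} [Fintype V] (k : ℕ) (G : SimpleGraph V) : Prop :=
  mp G ≤ k - 1 ∧ ∀ u v : V, u ≠ v → ¬ G.Adj u v → k ≤ mp (G ⊔ SimpleGraph.edge u v)

/-- The set of the numbers of edges of the `k`-saturated graphs on `n` vertices. -/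
def satEdgeCounts (n k : ℕ) : Set ℕ :=
  {m | ∃ G : SimpleGraph (Fin n), Saturated k G ∧ G.edgeSet.ncard = m}

/-- `h(n,k)`: the least number of edges of a `k`-saturated graph on `n` vertices. -/
noncomputable def h (n k : ℕ) : ℕ := sInf (satEdgeCounts n k)

end DMP
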