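import Pool.Agent.DMP.Struct2

/-! A saturated graph with at least six vertices has a vertex of degree at least three. -/

open scoped Classical

namespace DMP

variable {V : Type*} [Fintype V] {G : SimpleGraph V}

theorem exists_deg_two (hS : Sat G) (hn : 6 ≤ Fintype.card V) (hall : ∀ v, G.degree v ≤ 2) :
    ∃ x, G.degree x = 2 := by
  by_contra hc
  push Not at hc
  have h1 : ∀ v, G.degree v ≤ 1 := fun v => by have := hall v; have := hc v; omega
  have hne : Nonempty V := Fintype.card_pos_iff.1 (by omega)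
  obtain ⟨u⟩ := hne
  have hcard : (insert u (G.neighborFinset u)).card < (Finset.univ : Finset V).card := by
    have := Finset.card_insert_le u (G.neighborFinset u)
    have h2 := h1 u
    rw [SimpleGraph.card_neighborFinset_eq_degree] at this
    rw [Finset.card_univ]
    omega
  obtain ⟨v, -, hv⟩ := Finset.exists_mem_notMem_of_card_lt_card hcard
  simp only [Finset.mem_insert, SimpleGraph.mem_neighborFinset, not_or] at hv
  obtain ⟨hvu, hnadj⟩ := hv
  obtain ⟨p1, p2, p3, p4, p5, hp⟩ := hS.path (fun e => hvu e.symm) hnadj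
  have key : ∀ p q r, ad G u v p q → ad G u v q r → p ≠ r → (q = u ∨ q = v) := by
    intro p q r hpq hqr hpr
    by_contra hq
    push Not at hq
    have b1 := ad_other_right hpq hq.1 hq.2
    have b2 := ad_other_left hqr hq.1 hq.2
    have := two_le_deg b1.symm b2 hpr
    have := h1 q
    omega
  have e2 := key _ _ _ hp.a12 hp.a23 hp.n13
  have e3 := key _ _ _ hp.a23 hp.a34 hp.n24
  have e4 := key _ _ _ hp.a34 hp.a45 hp.n35
  rcases e2 with e2 | e2 <;> rcases e3 with e3 | e3 <;> rcases e4 with e4 | e4
  all_goals first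
    | exact hp.n23 (e2.trans e3.symm)
    | exact hp.n24 (e2.trans e4.symm)
    | exact hp.n34 (e3.trans e4.symm)

/-- no monotone path with four vertices ends at `x`. -/
def Low (G : SimpleGraph V) (x : V) : Prop := ∀ p1 p2 p3, ¬ T4 G (G.degree x) p1 p2 p3 x

theorem low_of_T4 (hS : Sat G) (hall : ∀ v, G.degree v ≤ 2) {p1 p2 p3 x : V}
    (hx : G.degree x = 2) (hp : T4 G 2 p1 p2 p3 x) : G.degree p3 = 2 ∧ Low G p3 := by
  have d3 : 2 ≤ G.degree p3 := two_le_deg hp.a23.symm hp.a34 hp.n24
  have d2 : 2 ≤ G.degree p2 := two_le_deg hp.a12.symm hp.a23 hp.n13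
  have e3 := hall p3
  have e2 := hall p2
  have e1 := hall p1
  have N3 : ∀ r, G.Adj p3 r → r = p2 ∨ r = x := fun r hr =>
    nbr_two e3 hp.a23.symm hp.a34 hp.n24 hr
  have N2 : ∀ r, G.Adj p2 r → r = p1 ∨ r = p3 := fun r hr =>
    nbr_two e2 hp.a12.symm hp.a23 hp.n13 hr
  have hx2 : ¬ G.Adj x p2 := by
    intro hadj
    rcases N2 x hadj.symm with e | e
    · exact hp.n14 e.symm
    · exact hp.n34 e.symm
  -- the 4-cycle
  have C4 : G.Adj p1 x → False := by
    intro hadj
    refine hS.closed4 hp.n24.symm hx2 {x, p3, p2, p1} Finset.card_le_four ?_ (by simp) (by simp)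
    intro z hz r hr
    simp only [Finset.mem_insert, Finset.mem_singleton] at hz ⊢
    rcases hz with rfl | rfl | rfl | rfl
    · rcases nbr_two hx.le hp.a34.symm hadj.symm hp.n13.symm hr with e | e <;> simp [e]
    · rcases N3 r hr with e | e <;> simp [e]
    · rcases N2 r hr with e | e <;> simp [e]
    · rcases nbr_two e1 hp.a12 hadj hp.n24 hr with e | e <;> simp [e]
  refine ⟨by omega, ?_⟩
  intro q1 q2 q3 hq
  have f1 := hq.f12
  have g1 := hall q1
  rcases N3 q3 hq.a34.symm with e | e
  · subst e
    have hq2 : q2 = p1 := by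
      rcases N2 q2 hq.a23.symm with e | e
      · exact e
      · exact absurd e hq.n24
    subst hq2
    by_cases hq1 : q1 = x
    · subst hq1
      exact C4 hq.a12.symm
    have dq2 : 2 ≤ G.degree q2 := two_le_deg hq.a12.symm hq.a23 hq.n13
    exact hS.no5 hq.a12 hq.a23 hp.a23 hp.a34 hq.n13 hq.n14 hq1 hp.n13 hp.n14 hp.n24 (by omega)
      (by omega) (by omega) (by omega)
  · subst e
    have hq2p3 : q2 ≠ p3 := hq.n24
    have dq2 : 2 ≤ G.degree q2 := two_le_deg hq.a12.symm hq.a23 hq.n13
    by_cases e : p1 = q2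
    · subst e
      exact C4 hq.a23
    have hp2q2 : p2 ≠ q2 := by
      rintro rfl
      exact hx2 hq.a23.symm
    exact hS.no5 hp.a12 hp.a23 hp.a34 hq.a23.symm hp.n13 hp.n14 e hp.n24 hp2q2 hq2p3.symm
      (by omega) (by omega) (by omega) (by omega)

theorem exists_low_two (hS : Sat G) (hn : 6 ≤ Fintype.card V) (hall : ∀ v, G.degree v ≤ 2) :
    ∃ c, G.degree c = 2 ∧ Low G c := by
  obtain ⟨x, hx⟩ := exists_deg_two hS hn hall
  by_cases hlow : Low G x
  · exact ⟨x, hx, hlow⟩
  · unfold Low at hlow
    push Not at hlow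
    obtain ⟨p1, p2, p3, hp⟩ := hlow
    rw [hx] at hp
    exact ⟨p3, low_of_T4 hS hall hx hp⟩

theorem not_delta_two (hS : Sat G) (hn : 6 ≤ Fintype.card V) (hall : ∀ v, G.degree v ≤ 2) :
    False := by
  obtain ⟨c, hc, hlow⟩ := exists_low_two hS hn hall
  obtain ⟨y, z, hyz, hcy, hcz⟩ := exists_two_nbrs (G := G) (x := c) (by omega)
  have Nc : ∀ r, G.Adj c r → r = y ∨ r = z := fun r hr => nbr_two hc.le hcy hcz hyz hr
  have hmaxc : ∀ w, G.degree w ≤ G.degree c := fun w => hc ▸ hall w
  -- vertices of degree two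
  have h2 : ∀ w, G.degree w = 2 → w ≠ c → w ≠ y → w ≠ z → ∃ q1 q2 q3, T4 G 2 q1 q2 q3 w ∧
      (q3 = y ∨ q3 = z) ∧ q2 ≠ c := by
    intro w hw hwc hwy hwz
    have hnadj : ¬ G.Adj c w := by
      intro hadj
      rcases Nc w hadj with e | e
      · exact hwy e
      · exact hwz e
    rcases hS.A2 hmaxc (fun z => hw ▸ hall z) hwc.symm hnadj with
      ⟨p1, p2, p3, hp, -⟩ | ⟨p1, p2, p3, hp, -, hp2, hp3⟩
    · exact absurd hp (hlow p1 p2 p3)
    · rw [hw] at hp
      have ⟨d3, l3⟩ := low_of_T4 hS hall hw hp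
      refine ⟨p1, p2, p3, hp, ?_, hp2⟩
      by_contra hcon
      push Not at hcon
      have hnadj' : ¬ G.Adj c p3 := by
        intro hadj
        rcases Nc p3 hadj with e | e
        · exact hcon.1 e
        · exact hcon.2 e
      rcases hS.A2 hmaxc (fun z => d3 ▸ hall z) hp3.symm hnadj' with
        ⟨p1, p2, p3, hp, -⟩ | ⟨r1, r2, r3, hr, -⟩
      · exact hlow _ _ _ hp
      · exact l3 _ _ _ hr
  have hcov : ∀ w, w ≠ c → w ≠ y → w ≠ z → G.Adj w y ∨ G.Adj w z := by
    intro w hwc hwy hwz
    have hnadj : ¬ G.Adj w c := by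
      intro hadj
      rcases Nc w hadj.symm with e | e
      · exact hwy e
      · exact hwz e
    have hw2 := hall w
    by_cases hw : G.degree w = 2
    · obtain ⟨q1, q2, q3, hq, hq3, -⟩ := h2 w hw hwc hwy hwz
      rcases hq3 with e | e
      · left; rw [← e]; exact hq.a34.symm
      · right; rw [← e]; exact hq.a34.symm
    · exfalso
      -- hence `w` has degree at most one
      rcases hS.A1 hmaxc (by omega : G.degree w < G.degree c) hnadj with
        ⟨p1, p2, p3, hp, hp1c, hp2c, hp3c⟩ | ⟨y', z', hyz', hy', hz', -⟩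
      swap
      · have := two_le_deg hy' hz' hyz'
        omega
      have dw : G.degree w = 1 := by have := deg_pos_of_adj hp.a34.symm; omega
      have Nw : ∀ r, G.Adj w r → r = p3 := fun r hr => nbr_one dw.le hp.a34.symm hr
      have d3 : G.degree p3 = 2 := by
        have := two_le_deg hp.a23.symm hp.a34 hp.n24
        have := hall p3
        omega
      have N2 : ∀ r, G.Adj p2 r → r = p1 ∨ r = p3 := fun r hr =>
        nbr_two (hall p2) hp.a12.symm hp.a23 hp.n13 hr
      have N3 : ∀ r, G.Adj p3 r → r = p2 ∨ r = w := fun r hr =>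
        nbr_two (hall p3) hp.a23.symm hp.a34 hp.n24 hr
      have aux : ∀ t, G.Adj c t → p3 ≠ t := by
        rintro t hct rfl
        rcases N3 c hct.symm with e | e
        · exact hp2c e.symm
        · exact hwc e.symm
      have aux2 : ∀ t, G.Adj c t → p2 ≠ t := by
        rintro t hct rfl
        rcases N2 c hct.symm with e | e
        · exact hp1c e.symm
        · exact hp3c e.symm
      obtain ⟨q1, q2, q3, hq, hq3, -⟩ := h2 p3 d3 hp3c (aux y hcy) (aux z hcz)
      rcases N3 q3 hq.a34.symm with e | e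
      · subst e
        rcases hq3 with e | e
        · exact aux2 y hcy e
        · exact aux2 z hcz e
      · subst e
        exact hq.n24 (Nw _ hq.a23.symm)
  -- counting
  have hsub : (Finset.univ : Finset V) ⊆
      {c, y, z} ∪ ((G.neighborFinset y).erase c ∪ (G.neighborFinset z).erase c) := by
    intro w _
    simp only [Finset.mem_union, Finset.mem_singleton, SimpleGraph.mem_neighborFinset,
      Finset.mem_insert, Finset.mem_erase]
    by_cases hwc : w = c
    · exact Or.inl (Or.inl hwc)
    by_cases hwy : w = y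
    · exact Or.inl (Or.inr (Or.inl hwy))
    by_cases hwz : w = z
    · exact Or.inl (Or.inr (Or.inr hwz))
    rcases hcov w hwc hwy hwz with h | h
    · exact Or.inr (Or.inl ⟨hwc, h.symm⟩)
    · exact Or.inr (Or.inr ⟨hwc, h.symm⟩)
  have c1 := Finset.card_le_card hsub
  have c2 := Finset.card_union_le ({c, y, z} : Finset V)
    ((G.neighborFinset y).erase c ∪ (G.neighborFinset z).erase c)
  have c3 := Finset.card_union_le ((G.neighborFinset y).erase c) ((G.neighborFinset z).erase c)
  have c4 : ({c, y, z} : Finset V).card ≤ 3 := Finset.card_le_three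
  have c5 : ((G.neighborFinset y).erase c).card ≤ 1 := by
    rw [Finset.card_erase_of_mem (by simpa using hcy.symm),
      SimpleGraph.card_neighborFinset_eq_degree]
    have := hall y
    omega
  have c6 : ((G.neighborFinset z).erase c).card ≤ 1 := by
    rw [Finset.card_erase_of_mem (by simpa using hcz.symm),
      SimpleGraph.card_neighborFinset_eq_degree]
    have := hall z
    omega
  rw [Finset.card_univ] at c1
  omega

/-- A saturated graph on at least six vertices has a vertex of maximum degree at least three. -/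
theorem exists_ctx (hS : Sat G) (hn : 6 ≤ Fintype.card V) : ∃ a, Ctx G a := by
  have hne : Nonempty V := Fintype.card_pos_iff.1 (by omega)
  obtain ⟨a, -, ha⟩ := Finset.exists_max_image (Finset.univ : Finset V) (fun v => G.degree v)
    Finset.univ_nonempty
  refine ⟨a, hS, fun w => ha w (Finset.mem_univ w), ?_⟩
  by_contra hc
  exact not_delta_two hS hn (fun v => (ha v (Finset.mem_univ v)).trans (by omega))

end DMP
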