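import Pool.Agent.DMP.UpperGraphs

/-! Degree monotone paths: the value `h(5,5) = 9`. -/

namespace DMP

set_option maxRecDepth 100000

/-- The rows of the adjacency matrix of a graph on five vertices. -/
def rows5 (b0 b1 b2 b3 b4 b5 b6 b7 b8 b9 : Bool) : List (List Bool) :=
  [[false, b0, b1, b2, b3], [b0, false, b4, b5, b6], [b1, b4, false, b7, b8],
    [b2, b5, b7, false, b9], [b3, b6, b8, b9, false]]

def F5 (b0 b1 b2 b3 b4 b5 b6 b7 b8 b9 : Bool) : FG (Fin 5) where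
  adj x y := ((rows5 b0 b1 b2 b3 b4 b5 b6 b7 b8 b9).getD x.1 []).getD y.1 false
  dg x := ((rows5 b0 b1 b2 b3 b4 b5 b6 b7 b8 b9).getD x.1 []).count true

/-- The check: many edges, or a monotone five-path, or a bad non-adjacent pair. -/
def chk5 (F : FG (Fin 5)) : Bool :=
  Nat.ble 18 (F.dg 0 + F.dg 1 + F.dg 2 + F.dg 3 + F.dg 4) || F.find (List.finRange 5) ||
    (List.finRange 5).any fun u => (List.finRange 5).any fun v =>
      Nat.ble (u.1 + 1) v.1 && !(F.adj u v) && !((F.plus u v).find (List.finRange 5))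

theorem F5_dg : ∀ b0 b1 b2 b3 b4 b5 b6 b7 b8 b9 : Bool, ∀ x : Fin 5,
    (Finset.univ.filter (fun y => (F5 b0 b1 b2 b3 b4 b5 b6 b7 b8 b9).adj x y = true)).card =
      (F5 b0 b1 b2 b3 b4 b5 b6 b7 b8 b9).dg x := by
  decide +kernel

theorem chk5_true : ∀ b0 b1 b2 b3 b4 b5 b6 b7 b8 b9 : Bool,
    chk5 (F5 b0 b1 b2 b3 b4 b5 b6 b7 b8 b9) = true := by
  decide +kernel

end DMP
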