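import Pool.Agent.DMP.Five

/-! Degree monotone paths: the value `h(5,5) = 9`. -/

open scoped Classical

namespace DMP

/-- The list of the edges of `K₅` minus an edge. -/
def L5 : List (ℕ × ℕ) := [(0, 2), (0, 3), (0, 4), (1, 2), (1, 3), (1, 4), (2, 3), (2, 4), (3, 4)]

def K5e : FG (Fin 5) := FG.ofList 5 L5

theorem K5e_irr : ∀ x, K5e.adj x x = false := by decide +kernel

theorem K5e_dg : ∀ x, (Finset.univ.filter (fun y => K5e.adj x y = true)).card = K5e.dg x := by
  decide +kernel

def GK5e : SimpleGraph (Fin 5) := K5e.graph (FG.ofList_symm 5 L5) K5e_irr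

theorem repK5e : Rep K5e GK5e := FG.rep K5e _ _ K5e_dg

theorem findK5e : K5e.find (List.finRange 5) = false := by decide +kernel

theorem chkAK5e : chkA 5 K5e [(0, 1, 0, 1, 2, 3, 4)] = true := by decide +kernel

theorem satK5e : Sat5 GK5e := sat5_of_chk repK5e findK5e chkAK5e

theorem sumK5e : (∑ x, K5e.dg x) = 18 := by decide +kernel

theorem ncardK5e : GK5e.edgeSet.ncard = 9 := by
  have h := ncard_edgeSet_eq GK5e
  have h2 : ∑ x, K5e.dg x = 18 := sumK5e
  simp only [repK5e.2] at h
  omega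

theorem rep5 (G : SimpleGraph (Fin 5)) : Rep (F5 (decide (G.Adj 0 1)) (decide (G.Adj 0 2))
    (decide (G.Adj 0 3)) (decide (G.Adj 0 4)) (decide (G.Adj 1 2)) (decide (G.Adj 1 3))
    (decide (G.Adj 1 4)) (decide (G.Adj 2 3)) (decide (G.Adj 2 4)) (decide (G.Adj 3 4))) G := by
  have hadj : ∀ x y, G.Adj x y ↔ (F5 (decide (G.Adj 0 1)) (decide (G.Adj 0 2))
    (decide (G.Adj 0 3)) (decide (G.Adj 0 4)) (decide (G.Adj 1 2)) (decide (G.Adj 1 3))
    (decide (G.Adj 1 4)) (decide (G.Adj 2 3)) (decide (G.Adj 2 4))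
    (decide (G.Adj 3 4))).adj x y = true := by
    intro x y
    fin_cases x <;> fin_cases y <;> simp [F5, rows5] <;> exact G.adj_comm _ _
  refine ⟨hadj, fun x => ?_⟩
  rw [← F5_dg, ← SimpleGraph.card_neighborFinset_eq_degree]
  congr 1
  ext y
  simp only [SimpleGraph.mem_neighborFinset, Finset.mem_filter, Finset.mem_univ, true_and]
  exact hadj x y

theorem isLeast_five : IsLeast (satEdgeCounts 5 5) 9 := by
  constructor
  · exact ⟨GK5e, (saturated_five_iff GK5e).2 satK5e, ncardK5e⟩
  · rintro m ⟨G, hG, rfl⟩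
    rw [saturated_five_iff] at hG
    have hrep := rep5 G
    have hchk := chk5_true (decide (G.Adj 0 1)) (decide (G.Adj 0 2))
      (decide (G.Adj 0 3)) (decide (G.Adj 0 4)) (decide (G.Adj 1 2)) (decide (G.Adj 1 3))
      (decide (G.Adj 1 4)) (decide (G.Adj 2 3)) (decide (G.Adj 2 4)) (decide (G.Adj 3 4))
    generalize F5 (decide (G.Adj 0 1)) (decide (G.Adj 0 2))
      (decide (G.Adj 0 3)) (decide (G.Adj 0 4)) (decide (G.Adj 1 2)) (decide (G.Adj 1 3))
      (decide (G.Adj 1 4)) (decide (G.Adj 2 3)) (decide (G.Adj 2 4)) (decide (G.Adj 3 4)) = F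
      at hrep hchk
    simp only [chk5, Bool.or_eq_true, List.any_eq_true, Bool.and_eq_true, Bool.not_eq_true'] at hchk
    rcases hchk with (h | h) | ⟨u, -, v, -, ⟨huv, hn⟩, hf⟩
    · have h := Nat.le_of_ble_eq_true h
      have h2 := ncard_edgeSet_eq G
      simp only [hrep.2, Fin.sum_univ_five] at h2
      omega
    · exact absurd ((hrep.find_iff (fun x => List.mem_finRange x)).2 h) hG.1
    · have huv' : u ≠ v := by
        intro h
        have := Nat.le_of_ble_eq_true huv
        rw [h] at this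
        omega
      have hn' : ¬ G.Adj u v := by
        rw [hrep.1, hn]
        decide
      have h5 := hG.2 u v huv' hn'
      rw [(hrep.plus huv' hn').find_iff (fun x => List.mem_finRange x), hf] at h5
      exact absurd h5 (by decide)

end DMP
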