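import Pool.Agent.DMP.Big

/-! The case of a leaf. -/

open scoped Classical

namespace DMP

variable {V : Type*} [Fintype V] {G : SimpleGraph V}

/-- vertices of second largest degree -/
theorem Ctx.second {a : V} (h : Ctx G a) {u : V} (hu : G.degree u = 1) {b : V} (hba : b ≠ a)
    (hb : ∀ w, w ≠ a → G.degree w ≤ G.degree b) (hb2 : 2 ≤ G.degree b) :
    G.Adj b a ∧ G.degree a = G.degree b + 1 ∧ ∃ p1 p2 p3, p1 ≠ p2 ∧ p1 ≠ p3 ∧ p1 ≠ a ∧ p1 ≠ b ∧
      p2 ≠ p3 ∧ p2 ≠ a ∧ p2 ≠ b ∧ p3 ≠ a ∧ p3 ≠ b ∧ G.Adj p1 p2 ∧ G.Adj p2 p3 ∧ G.Adj p3 a ∧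
      G.degree p1 ≤ G.degree p2 ∧ G.degree p2 ≤ G.degree p3 := by
  have hbu : b ≠ u := by rintro rfl; omega
  have big : ∀ w, G.degree b + 1 ≤ G.degree w → w = a := by
    intro w hw
    by_contra hne
    have := hb w hne
    omega
  rcases h.leafpair hu hba hbu with ⟨p1, p2, p3, p4, p5, hp⟩ |
    ⟨q2, q3, q4, -, -, -, hq2, hq23, -, d2, d3, -⟩
  · rcases h.hS.raised_cases hp with ⟨e, g4, g1, g2, g3⟩ | ⟨y, z, hyz, -, -, hdy, hdz⟩
    · have e4 := big p4 g4.ge
      subst e
      subst e4
      exact ⟨hp.a45.symm, g4, p1, p2, p3, hp.n12, hp.n13, hp.n14, hp.n15, hp.n23, hp.n24,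
        hp.n25, hp.n34, hp.n35, hp.a12, hp.a23, hp.a34, g1, g2⟩
    · exact absurd ((big y hdy.ge).trans (big z hdz).symm) hyz
  · exact absurd ((big q2 d2).trans (big q3 (d2.trans d3)).symm) hq23.ne

theorem Ctx.leafcase {a : V} (h : Ctx G a) {u : V} (hu : G.degree u = 1)
    (hn : 6 ≤ Fintype.card V) : 5 ≤ ∑ v, om G v := by
  by_contra hcon
  push Not at hcon
  set S : ℤ := ∑ v, om G v with hS
  have h3 := h.h3
  have hua := h.leaf_adj hu
  have hau : a ≠ u := hua.ne.symm
  have hlt : ∀ w, w ≠ a → G.degree w < G.degree a := fun w hw => h.unique_of_leaf hu hw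
  have hdeg2 : ∀ v, v ≠ u → 2 ≤ G.degree v := by
    intro v hv
    have := h.deg_pos v
    by_contra hc
    exact hv (h.leaf_unique (by omega) hu)
  have Nu : ∀ r, G.Adj u r → r = a := fun r hr => nbr_one hu.le hua hr
  -- a vertex of second largest degree
  obtain ⟨v1, -, hv1⟩ := Finset.exists_mem_notMem_of_card_lt_card
    (s := {a, u}) (t := (Finset.univ : Finset V))
    (by rw [Finset.card_univ]; have := Finset.card_le_two (a := a) (b := u); omega)
  simp only [Finset.mem_insert, Finset.mem_singleton, not_or] at hv1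
  obtain ⟨b, hbmem, hbmax⟩ := Finset.exists_max_image ((Finset.univ : Finset V).erase a)
    (fun v => G.degree v) ⟨v1, by simp [hv1.1]⟩
  have hba : b ≠ a := (Finset.mem_erase.1 hbmem).1
  have hb : ∀ w, w ≠ a → G.degree w ≤ G.degree b := fun w hw => hbmax w (by simp [hw])
  have hb2 : 2 ≤ G.degree b := (hdeg2 v1 hv1.2).trans (hb v1 hv1.1)
  have hbu : b ≠ u := by rintro rfl; omega
  obtain ⟨hbadj, hab, -⟩ := h.second hu hba hb hb2
  have hsecond : ∀ x, x ≠ a → G.degree x = G.degree b → _ := fun x hxa hxb =>
    h.second hu hxa (fun w hw => hxb ▸ hb w hw) (hxb ▸ hb2)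
  -- maximum degree three
  by_cases ha3 : G.degree a = 3
  · have hsub : (Finset.univ : Finset V) ⊆ insert a (G.neighborFinset a) := by
      intro w _
      by_cases e : w = a
      · simp [e]
      by_cases e' : w = u
      · simp [e', hua.symm]
      have := (hsecond w e (by have := hb w e; have := hdeg2 w e'; omega)).1
      simp [this.symm]
    have c1 := Finset.card_le_card hsub
    have c2 := Finset.card_insert_le a (G.neighborFinset a)
    rw [SimpleGraph.card_neighborFinset_eq_degree] at c2
    rw [Finset.card_univ] at c1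
    omega
  have h4 : 4 ≤ G.degree a := by omega
  -- the modified charge
  set f : V → ℤ := fun v => om G v + if v ∈ EE G then 1 else 0 with hf
  have f_E : ∀ v, v ∈ EE G → f v = 0 := fun v hv => by simp [hf, hv, om_EE hv]
  have f_nE : ∀ v, v ∉ EE G → f v = om G v := fun v hv => by simp [hf, hv]
  have E_deg : ∀ v, v ∈ EE G → G.degree v = 2 := fun v hv => (mem_EE.1 hv).1
  have f_nonneg : ∀ v, v ≠ u → 0 ≤ f v := by
    intro v hvu
    by_cases hv : v ∈ EE G
    · rw [f_E v hv]
    · rw [f_nE v hv]
      by_cases d2 : G.degree v = 2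
      · exact om_two_nonneg d2 hv
      by_cases d3 : G.degree v = 3
      · exact h.om_three_nonneg h4 d3
      rw [om_other d2 d3]
      have := hdeg2 v hvu
      omega
  have f_big : ∀ v, 4 ≤ G.degree v → f v = 3 * (G.degree v : ℤ) - 7 := by
    intro v hv
    have : v ∉ EE G := fun hE => by have := E_deg v hE; omega
    rw [f_nE v this, om_other (by omega) (by omega)]
  have f_u : f u = -4 := by
    have : u ∉ EE G := fun hE => by have := E_deg u hE; omega
    rw [f_nE u this, om_other (by omega) (by omega), hu]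
    norm_num
  have hsum : ∑ v, f v = S + (EE G).card := by
    simp only [hf]
    rw [Finset.sum_add_distrib, ← hS]
    simp
  have hT : ∀ T : Finset V, a ∉ T → u ∉ T →
      (3 * (G.degree a : ℤ) - 7) - 4 + ∑ v ∈ T, f v ≤ S + (EE G).card := by
    intro T haT huT
    have h1 : ∑ v ∈ insert a (insert u T), f v ≤ ∑ v, f v :=
      Finset.sum_le_sum_of_subset_of_nonneg (Finset.subset_univ _) (fun v _ hv => f_nonneg v
        (fun e => hv (by simp [e])))
    rw [Finset.sum_insert (by simp [hau, haT]), Finset.sum_insert huT, f_big a h4, f_u,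
      hsum] at h1
    linarith
  by_cases h5 : 5 ≤ G.degree a
  · have hE : EE G ⊆ ((G.neighborFinset a).erase u).erase b := by
      intro v hv
      rw [Finset.mem_erase, Finset.mem_erase]
      have := E_deg v hv
      refine ⟨?_, ?_, h.EE_sub hv⟩
      · rintro rfl; omega
      · rintro rfl; omega
    have hEc := Finset.card_le_card hE
    rw [Finset.card_erase_of_mem, Finset.card_erase_of_mem,
      SimpleGraph.card_neighborFinset_eq_degree] at hEc
    · have h1 := hT {b} (by simp [hba.symm]) (by simp [hbu.symm])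
      rw [Finset.sum_singleton, f_big b (by omega)] at h1
      omega
    · simpa using hua.symm
    · rw [Finset.mem_erase]
      exact ⟨hbu, by simpa using hbadj.symm⟩
  -- maximum degree four
  have ha4 : G.degree a = 4 := by omega
  have hb3 : G.degree b = 3 := by omega
  have hoth : ∀ w, w ≠ a → G.degree w ≤ 3 := fun w hw => hb3 ▸ hb w hw
  have hclass : ∀ v, v ≠ a → v ≠ u → G.degree v = 2 ∨ G.degree v = 3 := fun v hv hv' => by
    have := hdeg2 v hv'
    have := hoth v hv
    omega
  -- every vertex of degree three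
  have hx : ∀ x, G.degree x = 3 → G.Adj x a ∧ ∃ p1 p2 p3, p1 ≠ p3 ∧ p1 ≠ a ∧ p2 ≠ a ∧ p3 ≠ x ∧
      G.Adj p1 p2 ∧ G.Adj p2 p3 ∧ G.degree p1 ≤ G.degree p2 ∧ G.degree p3 = 3 ∧
      p1 ≠ u ∧ p2 ≠ u := by
    intro x hx3
    have hxa : x ≠ a := by rintro rfl; omega
    obtain ⟨hadj, -, p1, p2, p3, n12, n13, n1a, n1b, n23, n2a, n2b, n3a, n3b, a12, a23, a3a,
      f12, f23⟩ := hsecond x hxa (by omega)
    have hp1u : p1 ≠ u := by
      rintro rfl
      exact n2a (Nu _ a12)
    have hp2u : p2 ≠ u := by
      rintro rfl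
      exact n3a (Nu _ a23)
    have hp3u : p3 ≠ u := by
      rintro rfl
      exact n2a (Nu _ a23.symm)
    refine ⟨hadj, p1, p2, p3, n13, n1a, n2a, n3b, a12, a23, f12, ?_, hp1u, hp2u⟩
    rcases hclass p3 n3a hp3u with e | e
    · exfalso
      have := hdeg2 p2 hp2u
      have := h.T3 (x := p2) (w := p3) (y := p1) (by omega) a23 a12.symm n13.symm e
      omega
    · exact e
  -- the classes
  have haD2 : a ∉ D G 2 := by rw [mem_D]; omega
  have haD3 : a ∉ D G 3 := by rw [mem_D]; omega
  have huD2 : u ∉ D G 2 := by rw [mem_D]; omega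
  have huD3 : u ∉ D G 3 := by rw [mem_D]; omega
  have hdisj : Disjoint (D G 2) (D G 3) := by
    rw [Finset.disjoint_left]
    intro v hv hv'
    rw [mem_D] at hv hv'
    omega
  have huniv : (Finset.univ : Finset V) = insert a (insert u (D G 2 ∪ D G 3)) := by
    ext v
    simp only [Finset.mem_univ, Finset.mem_insert, Finset.mem_union, mem_D, true_iff]
    by_cases e : v = a
    · exact Or.inl e
    by_cases e' : v = u
    · exact Or.inr (Or.inl e')
    · exact Or.inr (Or.inr (hclass v e e'))
  have huU : u ∉ D G 2 ∪ D G 3 := by simp [huD2, huD3]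
  have haU : a ∉ insert u (D G 2 ∪ D G 3) := by simp [haD2, haD3, hau]
  have hsumdeg : ∑ v, G.degree v = G.degree a + (G.degree u +
      (2 * (D G 2).card + 3 * (D G 3).card)) := by
    rw [huniv, Finset.sum_insert haU, Finset.sum_insert huU, Finset.sum_union hdisj]
    congr 2
    rw [Finset.sum_congr rfl (fun v hv => mem_D.1 hv), Finset.sum_const,
      Finset.sum_congr rfl (fun v hv => mem_D.1 hv), Finset.sum_const]
    simp [mul_comm]
  have hedges := sum_deg (G := G)
  rw [hsumdeg] at hedges
  -- `D3`, `EE`, `u` are among the neighbours of `a`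
  have hdisjE : Disjoint (D G 3) (EE G) := by
    rw [Finset.disjoint_left]
    intro v hv hv'
    rw [mem_D] at hv
    have := E_deg v hv'
    omega
  have huDE : u ∉ D G 3 ∪ EE G := by
    rw [Finset.mem_union, not_or]
    exact ⟨huD3, fun hE => by have := E_deg u hE; omega⟩
  have hsubN : insert u (D G 3 ∪ EE G) ⊆ G.neighborFinset a := by
    intro v hv
    rcases Finset.mem_insert.1 hv with rfl | hv
    · simpa using hua.symm
    rcases Finset.mem_union.1 hv with hv | hv
    · simpa using (hx v (mem_D.1 hv)).1.symm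
    · exact h.EE_sub hv
  have hle4 : (D G 3).card + (EE G).card + 1 ≤ 4 := by
    rw [← Finset.card_union_of_disjoint hdisjE, ← Finset.card_insert_of_notMem huDE, ← ha4,
      ← SimpleGraph.card_neighborFinset_eq_degree]
    exact Finset.card_le_card hsubN
  have hD3two : 2 ≤ (D G 3).card := by
    obtain ⟨-, p1, p2, p3, -, -, -, hne, -, -, -, hp3, -, -⟩ := hx b hb3
    rw [← Finset.card_pair hne]
    apply Finset.card_le_card
    intro z hz
    rw [mem_D]
    simp only [Finset.mem_insert, Finset.mem_singleton] at hz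
    rcases hz with rfl | rfl <;> assumption
  have hD3 : (D G 3).card = 3 := by omega
  have hEE : (EE G).card = 0 := by omega
  have hEE' : EE G = ∅ := Finset.card_eq_zero.1 hEE
  have hnE : ∀ v, v ∉ EE G := fun v => by rw [hEE']; simp
  have hNa : insert u (D G 3 ∪ EE G) = G.neighborFinset a := by
    apply Finset.eq_of_subset_of_card_le hsubN
    rw [Finset.card_insert_of_notMem huDE, Finset.card_union_of_disjoint hdisjE,
      SimpleGraph.card_neighborFinset_eq_degree]
    omega
  have hNa2 : ∀ g, G.degree g = 2 → ¬ G.Adj g a := by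
    intro g hg hga
    have : g ∈ insert u (D G 3 ∪ EE G) := by rw [hNa]; simpa using hga.symm
    rw [Finset.mem_insert, Finset.mem_union, mem_D] at this
    rcases this with e | e | e
    · rw [e] at hg; omega
    · omega
    · exact hnE g e
  -- the key lemma on vertices of degree two
  have hLg : ∀ g x g', G.degree g = 2 → G.degree x = 3 → G.Adj g x → G.Adj g g' → g' ≠ x →
      G.degree g' = 2 → ∃ y, G.Adj x y ∧ G.degree y = 3 := by
    intro g x g' hg hx3 hgx hgg' hg'x hg'
    have hga : g ≠ a := by rintro rfl; omega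
    have hgu : g ≠ u := by rintro rfl; omega
    have Ng : ∀ r, G.Adj g r → r = x ∨ r = g' := fun r hr =>
      nbr_two hg.le hgx hgg' hg'x.symm hr
    rcases h.leafpair hu hga hgu with ⟨p1, p2, p3, p4, p5, hp⟩ |
      ⟨q2, q3, q4, -, -, -, hq2, hq23, hq34, d2, d3, d4⟩
    · rcases h.hS.raised_cases hp with ⟨e, g4, g1, g2, g3⟩ | ⟨y, z, hyz, hy, hz, hdy, hdz⟩
      · subst e
        have hp4 : p4 = x := by
          rcases Ng p4 hp.a45.symm with e | e
          · exact e
          · subst e; omega
        subst hp4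
        have hp3a : p3 ≠ a := by rintro rfl; omega
        have hp2u : p2 ≠ u := by
          rintro rfl
          exact hp3a (Nu _ hp.a23)
        have hp3u : p3 ≠ u := by
          intro e
          have e1 := hp.a34
          rw [e] at e1
          have := Nu _ e1
          subst this
          omega
        rcases hclass p3 hp3a hp3u with e | e
        · exfalso
          have := hdeg2 p2 hp2u
          have := h.T3 (x := p2) (w := p3) (y := p1) (by omega) hp.a23 hp.a12.symm hp.n13.symm e
          omega
        · exact ⟨p3, hp.a34.symm, e⟩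
      · exfalso
        rcases Ng y hy with e | e
        · rcases Ng z hz with e' | e'
          · exact hyz (e.trans e'.symm)
          · subst e'; omega
        · subst e; omega
    · have hq2x : q2 = x := by
        rcases Ng q2 hq2 with e | e
        · exact e
        · subst e; omega
      subst hq2x
      have hq3a : q3 ≠ a := by
        rintro rfl
        have := hlt q4 hq34.ne.symm
        omega
      have hq3u : q3 ≠ u := by rintro rfl; omega
      rcases hclass q3 hq3a hq3u with e | e
      · omega
      · exact ⟨q3, hq23, e⟩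
  -- some vertex of degree three has a neighbour of degree three
  have hH : ∃ x y, G.degree x = 3 ∧ G.degree y = 3 ∧ G.Adj x y := by
    by_contra hno
    push Not at hno
    obtain ⟨-, p1, p2, p3, n13, n1a, n2a, n3b, a12, a23, f12, e3, hp1u, hp2u⟩ := hx b hb3
    have dp2 : G.degree p2 = 2 := by
      rcases hclass p2 n2a hp2u with e | e
      · exact e
      · exact absurd a23 (hno p2 p3 e e3)
    have dp1 : G.degree p1 = 2 := by
      rcases hclass p1 n1a hp1u with e | e
      · exact e
      · omega
    obtain ⟨y, hy, hy3⟩ := hLg p2 p3 p1 dp2 e3 a23 a12.symm n13 dp1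
    exact hno p3 y e3 hy3 hy
  -- charges of vertices of degree three
  have hom1 : ∀ x y, G.degree x = 3 → G.degree y = 3 → G.Adj x y → 1 ≤ f x := by
    intro x y hx3 hy3 hadj
    have hxa := (hx x hx3).1
    have hay : a ≠ y := by rintro rfl; omega
    rw [f_nE x (hnE x), om_three hx3]
    have hcard : (insert a (insert y ((D G 2).filter (fun w => G.Adj x w)))).card =
        cn G x (D G 2) + 2 := by
      rw [Finset.card_insert_of_notMem, Finset.card_insert_of_notMem]
      · rfl
      · simp [mem_D, hy3]
      · simp [hay, mem_D, ha4]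
    have hle : (insert a (insert y ((D G 2).filter (fun w => G.Adj x w)))).card ≤
        G.degree x := by
      rw [← SimpleGraph.card_neighborFinset_eq_degree]
      apply Finset.card_le_card
      intro w hw
      simp only [Finset.mem_insert, Finset.mem_filter] at hw
      rcases hw with rfl | rfl | ⟨-, hw⟩
      · simpa using hxa
      · simpa using hadj
      · simpa using hw
    omega
  have hom2 : ∀ x y z, y ≠ z → G.degree x = 3 → G.degree y = 3 → G.degree z = 3 → G.Adj x y →
      G.Adj x z → 2 ≤ f x := by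
    intro x y z hyz hx3 hy3 hz3 hadj hadj'
    have hxa := (hx x hx3).1
    have hay : a ≠ y := by rintro rfl; omega
    have haz : a ≠ z := by rintro rfl; omega
    rw [f_nE x (hnE x), om_three hx3]
    have hcn : cn G x (D G 2) = 0 := by
      by_contra hc
      obtain ⟨w, hw, hxw⟩ := exists_of_cn_pos (Nat.pos_of_ne_zero hc)
      rw [mem_D] at hw
      rcases nbr_three hx3.le hxa hadj hadj' hay haz hyz hxw with e | e | e <;> subst e <;>
        omega
    rw [hcn]
    norm_num
  obtain ⟨x1, x2, hx1, hx2, hadj12⟩ := hH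
  have hne12 : x1 ≠ x2 := hadj12.ne
  obtain ⟨x3, hx3mem, hx3not⟩ := Finset.exists_mem_notMem_of_card_lt_card
    (s := {x1, x2}) (t := D G 3) (by rw [Finset.card_pair hne12]; omega)
  rw [mem_D] at hx3mem
  simp only [Finset.mem_insert, Finset.mem_singleton, not_or] at hx3not
  have hnau : ∀ v, G.degree v = 2 ∨ G.degree v = 3 → a ≠ v ∧ u ≠ v := by
    rintro v hv
    constructor
    · rintro rfl; omega
    · rintro rfl; omega
  by_cases hadj : G.Adj x3 x1 ∨ G.Adj x3 x2
  · have g3 : 1 ≤ f x3 := by
      rcases hadj with e | e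
      · exact hom1 x3 x1 hx3mem hx1 e
      · exact hom1 x3 x2 hx3mem hx2 e
    have g12 : 3 ≤ f x1 + f x2 := by
      rcases hadj with e | e
      · have k1 := hom2 x1 x2 x3 (Ne.symm hx3not.2) hx1 hx2 hx3mem hadj12 e.symm
        have k2 := hom1 x2 x1 hx2 hx1 hadj12.symm
        linarith
      · have k1 := hom2 x2 x1 x3 (Ne.symm hx3not.1) hx2 hx1 hx3mem hadj12.symm e.symm
        have k2 := hom1 x1 x2 hx1 hx2 hadj12
        linarith
    have h1 := hT {x1, x2, x3}
      (by simp [(hnau x1 (Or.inr hx1)).1, (hnau x2 (Or.inr hx2)).1, (hnau x3 (Or.inr hx3mem)).1])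
      (by simp [(hnau x1 (Or.inr hx1)).2, (hnau x2 (Or.inr hx2)).2, (hnau x3 (Or.inr hx3mem)).2])
    rw [Finset.sum_insert (by simp [hne12, Ne.symm hx3not.1]),
      Finset.sum_pair (Ne.symm hx3not.2), hEE, ha4] at h1
    push_cast at h1
    linarith
  · push Not at hadj
    -- `x3` has no neighbour of degree three
    have hD3eq : ∀ y, G.degree y = 3 → y = x1 ∨ y = x2 ∨ y = x3 := by
      intro y hy
      by_contra hc
      push Not at hc
      have hsub : ({x1, x2, x3, y} : Finset V) ⊆ D G 3 := by
        intro z hz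
        rw [mem_D]
        simp only [Finset.mem_insert, Finset.mem_singleton] at hz
        rcases hz with rfl | rfl | rfl | rfl <;> assumption
      have h1 := Finset.card_le_card hsub
      have h2 : ({x1, x2, x3, y} : Finset V).card = 4 := by
        have := List.toFinset_card_of_nodup (l := [x1, x2, x3, y])
          (by simp [hne12, Ne.symm hx3not.1, Ne.symm hx3not.2, hc.1.symm, hc.2.1.symm,
            hc.2.2.symm])
        simpa using this
      omega
    have hno3 : ∀ y, G.Adj x3 y → G.degree y ≠ 3 := by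
      intro y hy hy3
      rcases hD3eq y hy3 with e | e | e
      · subst e; exact hadj.1 hy
      · subst e; exact hadj.2 hy
      · exact hy.ne e.symm
    have hx3a := (hx x3 hx3mem).1
    obtain ⟨g, hg, hga, -⟩ := exists_nbr_ne_ne (G := G) (x := x3) (p := a) (q := a) (by omega)
    obtain ⟨k, hk, hka, hkg⟩ := exists_nbr_ne_ne (G := G) (x := x3) (p := a) (q := g) (by omega)
    have hdeg : ∀ g, G.Adj x3 g → g ≠ a → G.degree g = 2 ∧ 1 ≤ f g := by
      intro g hg hga
      have hgu : g ≠ u := by
        rintro rfl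
        have := Nu _ hg.symm
        subst this
        omega
      have hg2 : G.degree g = 2 := by
        rcases hclass g hga hgu with e | e
        · exact e
        · exact absurd e (hno3 g hg)
      refine ⟨hg2, ?_⟩
      obtain ⟨g', hgg', hg'x⟩ := exists_nbr_ne (G := G) (x := g) (p := x3) (by omega)
      have hg'a : g' ≠ a := by
        rintro rfl
        exact hNa2 g hg2 hgg'
      have hg'u : g' ≠ u := by
        rintro rfl
        exact hga (Nu _ hgg'.symm)
      have hg'3 : G.degree g' = 3 := by
        rcases hclass g' hg'a hg'u with e | e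
        · exfalso
          obtain ⟨y, hy, hy3⟩ := hLg g x3 g' hg2 hx3mem hg.symm hgg' hg'x e
          exact hno3 y hy hy3
        · exact e
      rw [f_nE g (hnE g), om_two hg2]
      have := two_le_cn (mem_D.2 hg'3) hgg' (mem_D.2 hx3mem) hg.symm hg'x
      omega
    obtain ⟨hg2, hfg⟩ := hdeg g hg hga
    obtain ⟨hk2, hfk⟩ := hdeg k hk hka
    have k1 := hom1 x1 x2 hx1 hx2 hadj12
    have k2 := hom1 x2 x1 hx2 hx1 hadj12.symm
    have n1g : x1 ≠ g := by rintro rfl; omega
    have n1k : x1 ≠ k := by rintro rfl; omega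
    have n2g : x2 ≠ g := by rintro rfl; omega
    have n2k : x2 ≠ k := by rintro rfl; omega
    have h1 := hT {x1, x2, g, k}
      (by simp [(hnau x1 (Or.inr hx1)).1, (hnau x2 (Or.inr hx2)).1, (hnau g (Or.inl hg2)).1,
        (hnau k (Or.inl hk2)).1])
      (by simp [(hnau x1 (Or.inr hx1)).2, (hnau x2 (Or.inr hx2)).2, (hnau g (Or.inl hg2)).2,
        (hnau k (Or.inl hk2)).2])
    rw [Finset.sum_insert (by simp [hne12, n1g, n1k]), Finset.sum_insert (by simp [n2g, n2k]),
      Finset.sum_pair (Ne.symm hkg), hEE, ha4] at h1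
    push_cast at h1
    linarith

end DMP
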