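import Pool.Agent.DMP.Cubic3

/-! The lower bound for all `n ≥ 6`. -/

open scoped Classical

namespace DMP

variable {V : Type*} [Fintype V] {G : SimpleGraph V}

theorem lower_charge (hS : Sat G) (hn : 6 ≤ Fintype.card V) :
    5 ≤ 6 * (G.edgeSet.ncard : ℤ) - 7 * (Fintype.card V : ℤ) ∨
    6 * (G.edgeSet.ncard : ℤ) - 7 * (Fintype.card V : ℤ) = 0 ∨
    (Fintype.card V = 9 ∧ 6 * (G.edgeSet.ncard : ℤ) - 7 * (Fintype.card V : ℤ) = 3) := by
  obtain ⟨a, h⟩ := exists_ctx hS hn
  rw [← sum_charge]
  by_cases hleaf : ∃ u, G.degree u = 1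
  · obtain ⟨u, hu⟩ := hleaf
    exact Or.inl (h.leafcase hu hn)
  push Not at hleaf
  by_cases h4 : 4 ≤ G.degree a
  · rcases h.big h4 hleaf hn with h1 | h1
    · exact Or.inl h1
    · exact Or.inr (Or.inr h1)
  · have h3 := h.h3
    have hc : Cub G a :=
      { toCtx := h
        h3' := by omega
        hcl := fun v => by
          have h1 := h.hmax v
          have h2 := h.deg_pos v
          have h3 := hleaf v
          omega }
    rcases hc.final with h1 | h1
    · exact Or.inl h1
    · exact Or.inr (Or.inl h1)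

/-- The lower bound: a `5`-saturated graph on `n ≥ 6` vertices, `n ≠ 9`, has at least
`n + ⌊n/6⌋ + min(2, n mod 6)` edges. -/
theorem lower_bound (hS : Saturated 5 G) (hn : 6 ≤ Fintype.card V) (h9 : Fintype.card V ≠ 9) :
    Fintype.card V + Fintype.card V / 6 + min 2 (Fintype.card V % 6) ≤ G.edgeSet.ncard := by
  have h := lower_charge (sat_of_saturated hS) hn
  omega

/-- The lower bound for `n = 9`. -/
theorem lower_bound_nine (hS : Saturated 5 G) (h9 : Fintype.card V = 9) :
    11 ≤ G.edgeSet.ncard := by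
  have h := lower_charge (sat_of_saturated hS) (by omega)
  omega

end DMP
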