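import Pool.Agent.DMP.Basic

/-! Consequences of saturation for single pairs of non-adjacent vertices. -/

open scoped Classical

namespace DMP

variable {V : Type*} [Fintype V] {G : SimpleGraph V}

/-! ### Neighbourhoods of vertices of small degree -/

theorem deg_pos_of_adj {x p : V} (h : G.Adj x p) : 1 ≤ G.degree x := by
  rw [← SimpleGraph.card_neighborFinset_eq_degree]
  exact Finset.card_pos.2 ⟨p, by simpa using h⟩

theorem two_le_deg {x p q : V} (hp : G.Adj x p) (hq : G.Adj x q) (hpq : p ≠ q) :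
    2 ≤ G.degree x := by
  rw [← SimpleGraph.card_neighborFinset_eq_degree, ← Finset.card_pair hpq]
  apply Finset.card_le_card
  intro y hy
  simp only [Finset.mem_insert, Finset.mem_singleton] at hy
  rcases hy with rfl | rfl <;> simpa

theorem three_le_deg {x p q r : V} (hp : G.Adj x p) (hq : G.Adj x q) (hr : G.Adj x r)
    (hpq : p ≠ q) (hpr : p ≠ r) (hqr : q ≠ r) : 3 ≤ G.degree x := by
  have h3 : ({p, q, r} : Finset V).card = 3 := Finset.card_eq_three.2 ⟨p, q, r, hpq, hpr, hqr, rfl⟩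
  rw [← SimpleGraph.card_neighborFinset_eq_degree, ← h3]
  apply Finset.card_le_card
  intro y hy
  simp only [Finset.mem_insert, Finset.mem_singleton] at hy
  rcases hy with rfl | rfl | rfl <;> simpa

theorem four_le_deg {x p q r s : V} (hp : G.Adj x p) (hq : G.Adj x q) (hr : G.Adj x r)
    (hs : G.Adj x s) (hpq : p ≠ q) (hpr : p ≠ r) (hps : p ≠ s) (hqr : q ≠ r) (hqs : q ≠ s)
    (hrs : r ≠ s) : 4 ≤ G.degree x := by
  have h4 : ({p, q, r, s} : Finset V).card = 4 := by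
    rw [Finset.card_insert_of_notMem, Finset.card_eq_three.2 ⟨q, r, s, hqr, hqs, hrs, rfl⟩]
    simp [hpq, hpr, hps]
  rw [← SimpleGraph.card_neighborFinset_eq_degree, ← h4]
  apply Finset.card_le_card
  intro y hy
  simp only [Finset.mem_insert, Finset.mem_singleton] at hy
  rcases hy with rfl | rfl | rfl | rfl <;> simpa

theorem nbr_one {x p r : V} (hd : G.degree x ≤ 1) (hp : G.Adj x p) (hr : G.Adj x r) : r = p := by
  by_contra h
  have := two_le_deg hp hr (fun e => h e.symm)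
  omega

theorem nbr_two {x p q r : V} (hd : G.degree x ≤ 2) (hp : G.Adj x p) (hq : G.Adj x q)
    (hpq : p ≠ q) (hr : G.Adj x r) : r = p ∨ r = q := by
  by_contra h
  push Not at h
  have := three_le_deg hp hq hr hpq (fun e => h.1 e.symm) (fun e => h.2 e.symm)
  omega

theorem nbr_three {x p q r s : V} (hd : G.degree x ≤ 3) (hp : G.Adj x p) (hq : G.Adj x q)
    (hr : G.Adj x r) (hpq : p ≠ q) (hpr : p ≠ r) (hqr : q ≠ r) (hs : G.Adj x s) :
    s = p ∨ s = q ∨ s = r := by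
  by_contra h
  push Not at h
  have := four_le_deg hp hq hr hs hpq hpr (fun e => h.1 e.symm) hqr (fun e => h.2.1 e.symm)
    (fun e => h.2.2 e.symm)
  omega

theorem exists_nbr {x : V} (hd : 1 ≤ G.degree x) : ∃ p, G.Adj x p := by
  rw [← SimpleGraph.card_neighborFinset_eq_degree] at hd
  obtain ⟨p, hp⟩ := Finset.card_pos.1 hd
  exact ⟨p, by simpa using hp⟩

theorem exists_nbr_ne {x p : V} (hd : 2 ≤ G.degree x) : ∃ q, G.Adj x q ∧ q ≠ p := by
  rw [← SimpleGraph.card_neighborFinset_eq_degree] at hd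
  obtain ⟨q, hq, hqp⟩ := Finset.exists_mem_ne (by omega : 1 < (G.neighborFinset x).card) p
  exact ⟨q, by simpa using hq, hqp⟩

theorem exists_nbr_ne_ne {x p q : V} (hd : 3 ≤ G.degree x) :
    ∃ r, G.Adj x r ∧ r ≠ p ∧ r ≠ q := by
  rw [← SimpleGraph.card_neighborFinset_eq_degree] at hd
  have h1 : (({p, q} : Finset V)).card ≤ 2 := Finset.card_le_two
  obtain ⟨r, hr, hr'⟩ := Finset.exists_mem_notMem_of_card_lt_card
    (by omega : ({p, q} : Finset V).card < (G.neighborFinset x).card)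
  simp only [Finset.mem_insert, Finset.mem_singleton, not_or] at hr'
  exact ⟨r, by simpa using hr, hr'.1, hr'.2⟩

theorem exists_two_nbrs {x : V} (hd : 2 ≤ G.degree x) :
    ∃ p q, p ≠ q ∧ G.Adj x p ∧ G.Adj x q := by
  obtain ⟨p, hp⟩ := exists_nbr (by omega : 1 ≤ G.degree x)
  obtain ⟨q, hq, hqp⟩ := exists_nbr_ne (p := p) hd
  exact ⟨p, q, hqp.symm, hp, hq⟩

/-! ### Paths with four or five vertices -/

/-- Five distinct vertices forming a path for the relation `A`, along which `f` is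
non-decreasing. -/
structure Q5 (A : V → V → Prop) (f : V → ℕ) (p1 p2 p3 p4 p5 : V) : Prop where
  n12 : p1 ≠ p2
  n13 : p1 ≠ p3
  n14 : p1 ≠ p4
  n15 : p1 ≠ p5
  n23 : p2 ≠ p3
  n24 : p2 ≠ p4
  n25 : p2 ≠ p5
  n34 : p3 ≠ p4
  n35 : p3 ≠ p5
  n45 : p4 ≠ p5
  a12 : A p1 p2
  a23 : A p2 p3
  a34 : A p3 p4
  a45 : A p4 p5
  f12 : f p1 ≤ f p2
  f23 : f p2 ≤ f p3
  f34 : f p3 ≤ f p4
  f45 : f p4 ≤ f p5

/-- Four distinct vertices forming a path of `G`, with `d p1 ≤ d p2 ≤ d p3 ≤ k`. -/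
structure T4 (G : SimpleGraph V) (k : ℕ) (p1 p2 p3 v : V) : Prop where
  n12 : p1 ≠ p2
  n13 : p1 ≠ p3
  n14 : p1 ≠ v
  n23 : p2 ≠ p3
  n24 : p2 ≠ v
  n34 : p3 ≠ v
  a12 : G.Adj p1 p2
  a23 : G.Adj p2 p3
  a34 : G.Adj p3 v
  f12 : G.degree p1 ≤ G.degree p2
  f23 : G.degree p2 ≤ G.degree p3
  f3 : G.degree p3 ≤ k

omit [Fintype V] in
theorem M5.toQ5 {f : V → ℕ} {a b c d e : V} (h : M5 G f a b c d e) :
    Q5 G.Adj f a b c d e := by
  have hn := h.nd
  simp only [List.nodup_cons, List.mem_cons, List.not_mem_nil, or_false, not_or,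
    not_false_eq_true, List.nodup_nil, and_true] at hn
  obtain ⟨⟨h1, h2, h3, h4⟩, ⟨h5, h6, h7⟩, ⟨h8, h9⟩, h10⟩ := hn
  exact ⟨h1, h2, h3, h4, h5, h6, h7, h8, h9, h10, h.ab, h.bc, h.cd, h.de, h.fab, h.fbc, h.fcd,
    h.fde⟩

omit [Fintype V] in
theorem Q5.toM5 {f : V → ℕ} {a b c d e : V} (h : Q5 G.Adj f a b c d e) :
    M5 G f a b c d e := by
  refine ⟨?_, h.a12, h.a23, h.a34, h.a45, h.f12, h.f23, h.f34, h.f45⟩
  simp [h.n12, h.n13, h.n14, h.n15, h.n23, h.n24, h.n25, h.n34, h.n35, h.n45]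

/-- Saturation for `k = 5`. -/
structure Sat (G : SimpleGraph V) : Prop where
  no : ¬ Has5 G
  ex : ∀ u v : V, u ≠ v → ¬ G.Adj u v → Has5 (G ⊔ SimpleGraph.edge u v)

theorem sat_of_saturated (h : Saturated 5 G) : Sat G := by
  rw [saturated_five_iff] at h
  exact ⟨h.1, h.2⟩

/-- Adjacency after adding the edge `uv`. -/
def ad (G : SimpleGraph V) (u v x y : V) : Prop :=
  G.Adj x y ∨ (x = u ∧ y = v) ∨ (x = v ∧ y = u)

/-- Degrees after adding the edge `uv`. -/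
noncomputable def dd (G : SimpleGraph V) (u v x : V) : ℕ :=
  G.degree x + if x = u ∨ x = v then 1 else 0

/-- Degrees after raising the degree of `v` by one. -/
noncomputable def up (G : SimpleGraph V) (v x : V) : ℕ :=
  G.degree x + if x = v then 1 else 0

theorem dd_left {u v : V} : dd G u v u = G.degree u + 1 := by simp [dd]

theorem dd_right {u v : V} : dd G u v v = G.degree v + 1 := by simp [dd]

theorem dd_other {u v x : V} (hu : x ≠ u) (hv : x ≠ v) : dd G u v x = G.degree x := by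
  simp [dd, hu, hv]

theorem dd_ge {u v x : V} : G.degree x ≤ dd G u v x := by simp [dd]

theorem up_self {v : V} : up G v v = G.degree v + 1 := by simp [up]

theorem up_other {v x : V} (hv : x ≠ v) : up G v x = G.degree x := by
  simp [up, hv]

omit [Fintype V] in
theorem ad_other_left {u v x y : V} (h : ad G u v x y) (hu : x ≠ u) (hv : x ≠ v) :
    G.Adj x y := by
  rcases h with h | ⟨h, -⟩ | ⟨h, -⟩
  · exact h
  · exact absurd h hu
  · exact absurd h hv

omit [Fintype V] in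
theorem ad_other_right {u v x y : V} (h : ad G u v x y) (hu : y ≠ u) (hv : y ≠ v) :
    G.Adj x y := by
  rcases h with h | ⟨-, h⟩ | ⟨-, h⟩
  · exact h
  · exact absurd h hv
  · exact absurd h hu

omit [Fintype V] in
theorem ad_symm {u v x y : V} (h : ad G u v x y) : ad G u v y x := by
  rcases h with h | ⟨h1, h2⟩ | ⟨h1, h2⟩
  · exact Or.inl h.symm
  · exact Or.inr (Or.inr ⟨h2, h1⟩)
  · exact Or.inr (Or.inl ⟨h2, h1⟩)

theorem Sat.path (hS : Sat G) {u v : V} (huv : u ≠ v) (hn : ¬ G.Adj u v) :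
    ∃ p1 p2 p3 p4 p5, Q5 (ad G u v) (dd G u v) p1 p2 p3 p4 p5 := by
  obtain ⟨p1, p2, p3, p4, p5, h⟩ := hS.ex u v huv hn
  have h' := h.toQ5
  refine ⟨p1, p2, p3, p4, p5, h'.n12, h'.n13, h'.n14, h'.n15, h'.n23, h'.n24, h'.n25, h'.n34,
    h'.n35, h'.n45, (adj_sup_edge G huv _ _).1 h'.a12, (adj_sup_edge G huv _ _).1 h'.a23,
    (adj_sup_edge G huv _ _).1 h'.a34, (adj_sup_edge G huv _ _).1 h'.a45, ?_, ?_, ?_, ?_⟩
  · have := h'.f12
    rw [degree_sup_edge G huv hn, degree_sup_edge G huv hn] at this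
    exact this
  · have := h'.f23
    rw [degree_sup_edge G huv hn, degree_sup_edge G huv hn] at this
    exact this
  · have := h'.f34
    rw [degree_sup_edge G huv hn, degree_sup_edge G huv hn] at this
    exact this
  · have := h'.f45
    rw [degree_sup_edge G huv hn, degree_sup_edge G huv hn] at this
    exact this

/-- There is no monotone path with five vertices. -/
theorem Sat.no5 (hS : Sat G) {p1 p2 p3 p4 p5 : V} (a12 : G.Adj p1 p2) (a23 : G.Adj p2 p3)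
    (a34 : G.Adj p3 p4) (a45 : G.Adj p4 p5) (n13 : p1 ≠ p3) (n14 : p1 ≠ p4) (n15 : p1 ≠ p5)
    (n24 : p2 ≠ p4) (n25 : p2 ≠ p5) (n35 : p3 ≠ p5) (f12 : G.degree p1 ≤ G.degree p2)
    (f23 : G.degree p2 ≤ G.degree p3) (f34 : G.degree p3 ≤ G.degree p4)
    (f45 : G.degree p4 ≤ G.degree p5) : False :=
  hS.no ⟨p1, p2, p3, p4, p5, Q5.toM5 ⟨a12.ne, n13, n14, n15, a23.ne, n24, n25, a34.ne, n35,
    a45.ne, a12, a23, a34, a45, f12, f23, f34, f45⟩⟩

theorem Sat.no5' (hS : Sat G) {p1 p2 p3 p4 p5 : V}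
    (h : Q5 G.Adj (fun x => G.degree x) p1 p2 p3 p4 p5) : False :=
  hS.no ⟨p1, p2, p3, p4, p5, h.toM5⟩

/-- If the path of `G + uv` avoids both `u` and `v`, it is a monotone path of `G`. -/
theorem Sat.no_avoid (hS : Sat G) {u v p1 p2 p3 p4 p5 : V}
    (h : Q5 (ad G u v) (dd G u v) p1 p2 p3 p4 p5)
    (h1 : p1 ≠ u ∧ p1 ≠ v) (h2 : p2 ≠ u ∧ p2 ≠ v) (h3 : p3 ≠ u ∧ p3 ≠ v) (h4 : p4 ≠ u ∧ p4 ≠ v)
    (h5 : p5 ≠ u ∧ p5 ≠ v) : False := by
  have f12 := h.f12
  have f23 := h.f23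
  have f34 := h.f34
  have f45 := h.f45
  rw [dd_other h1.1 h1.2, dd_other h2.1 h2.2] at f12
  rw [dd_other h3.1 h3.2, dd_other h2.1 h2.2] at f23
  rw [dd_other h3.1 h3.2, dd_other h4.1 h4.2] at f34
  rw [dd_other h5.1 h5.2, dd_other h4.1 h4.2] at f45
  exact hS.no5 (ad_other_left h.a12 h1.1 h1.2) (ad_other_left h.a23 h2.1 h2.2)
    (ad_other_left h.a34 h3.1 h3.2) (ad_other_left h.a45 h4.1 h4.2) h.n13 h.n14 h.n15 h.n24
    h.n25 h.n35 f12 f23 f34 f45

end DMP
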