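import Pool.Agent.DMP.Pairs

/-! Consequences of saturation for single pairs of non-adjacent vertices, II. -/

open scoped Classical

namespace DMP

variable {V : Type*} [Fintype V] {G : SimpleGraph V}

omit [Fintype V] in
theorem ad_ne_right {u v x y : V} (h : ad G u v x y) (hx : x ≠ v) (hy : y ≠ v) : G.Adj x y := by
  rcases h with h | ⟨-, h⟩ | ⟨h, -⟩
  · exact h
  · exact absurd h hy
  · exact absurd h hx

omit [Fintype V] in
theorem ad_ne_left {u v x y : V} (h : ad G u v x y) (hx : x ≠ u) (hy : y ≠ u) : G.Adj x y := by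
  rcases h with h | ⟨h, -⟩ | ⟨-, h⟩
  · exact h
  · exact absurd h hx
  · exact absurd h hy

theorem dd_eq_up {v a x : V} (hx : x ≠ a) : dd G v a x = up G v x := by
  by_cases h : x = v
  · subst h; simp [dd, up]
  · rw [dd_other h hx, up_other h]

/-- Adding an edge from `v` to a vertex `a` of maximum degree. -/
theorem Sat.A1full (hS : Sat G) {a v : V} (hmax : ∀ w, G.degree w ≤ G.degree a)
    (hlt : G.degree v < G.degree a) (hn : ¬ G.Adj v a) :
    (∃ p1 p2 p3 p4 p5, Q5 G.Adj (up G v) p1 p2 p3 p4 p5 ∧ p1 ≠ a ∧ p2 ≠ a ∧ p3 ≠ a ∧ p4 ≠ a) ∨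
    (∃ p1 p2 p3, T4 G (G.degree v + 1) p1 p2 p3 v ∧ p1 ≠ a ∧ p2 ≠ a ∧ p3 ≠ a) := by
  have hva : v ≠ a := by rintro rfl; omega
  obtain ⟨p1, p2, p3, p4, p5, h⟩ := hS.path hva hn
  have hle : ∀ x, x ≠ a → dd G v a x ≤ G.degree a := by
    intro x hx
    rw [dd_eq_up hx]
    by_cases hxv : x = v
    · subst hxv; rw [up_self]; omega
    · rw [up_other hxv]; exact hmax x
  have key : ∀ x y, x ≠ y → dd G v a x ≤ dd G v a y → x ≠ a := by
    rintro x y hxy hf rfl
    have := hle y (fun e => hxy e.symm)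
    rw [dd_right] at hf
    omega
  have h1 := key _ _ h.n12 h.f12
  have h2 := key _ _ h.n23 h.f23
  have h3 := key _ _ h.n34 h.f34
  have h4 := key _ _ h.n45 h.f45
  have f12 := h.f12
  have f23 := h.f23
  have f34 := h.f34
  rw [dd_eq_up h1, dd_eq_up h2] at f12
  rw [dd_eq_up h2, dd_eq_up h3] at f23
  rw [dd_eq_up h3, dd_eq_up h4] at f34
  rcases h.a45 with a45 | ⟨e4, e5⟩ | ⟨e4, e5⟩
  · left
    refine ⟨p1, p2, p3, p4, p5, ⟨h.n12, h.n13, h.n14, h.n15, h.n23, h.n24, h.n25, h.n34, h.n35,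
      h.n45, ad_ne_right h.a12 h1 h2, ad_ne_right h.a23 h2 h3, ad_ne_right h.a34 h3 h4, a45,
      f12, f23, f34, ?_⟩, h1, h2, h3, h4⟩
    by_cases h5 : p5 = a
    · subst h5
      rw [up_other hva.symm, ← dd_eq_up h4]
      exact hle _ h4
    · rw [← dd_eq_up h4, ← dd_eq_up h5]
      exact h.f45
  · right
    subst e4
    rw [up_other h.n14, up_other h.n24] at f12
    rw [up_other h.n24, up_other h.n34] at f23
    rw [up_other h.n34, up_self] at f34
    exact ⟨p1, p2, p3, ⟨h.n12, h.n13, h.n14, h.n23, h.n24, h.n34, ad_ne_right h.a12 h1 h2,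
      ad_ne_right h.a23 h2 h3, ad_ne_right h.a34 h3 h4, f12, f23, f34⟩, h1, h2, h3⟩
  · exact absurd e4 h4

/-- A path that is monotone after raising the degree of `v`. -/
theorem Sat.raised_cases (hS : Sat G) {v p1 p2 p3 p4 p5 : V}
    (h : Q5 G.Adj (up G v) p1 p2 p3 p4 p5) :
    (p5 = v ∧ G.degree p4 = G.degree v + 1 ∧ G.degree p1 ≤ G.degree p2 ∧
      G.degree p2 ≤ G.degree p3 ∧ G.degree p3 ≤ G.degree p4) ∨
    (∃ y z, y ≠ z ∧ G.Adj v y ∧ G.Adj v z ∧ G.degree y = G.degree v + 1 ∧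
      G.degree v + 1 ≤ G.degree z) := by
  have f12 := h.f12
  have f23 := h.f23
  have f34 := h.f34
  have f45 := h.f45
  by_cases e1 : p1 = v
  · exfalso
    subst e1
    rw [up_self, up_other h.n12.symm] at f12
    rw [up_other h.n12.symm, up_other h.n13.symm] at f23
    rw [up_other h.n13.symm, up_other h.n14.symm] at f34
    rw [up_other h.n14.symm, up_other h.n15.symm] at f45
    exact hS.no5 h.a12 h.a23 h.a34 h.a45 h.n13 h.n14 h.n15 h.n24 h.n25 h.n35 (by omega) f23 f34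
      f45
  by_cases e2 : p2 = v
  · subst e2
    rw [up_self, up_other e1] at f12
    rw [up_self, up_other h.n23.symm] at f23
    rw [up_other h.n23.symm, up_other h.n24.symm] at f34
    rw [up_other h.n24.symm, up_other h.n25.symm] at f45
    right
    by_contra hc
    have : G.degree p1 ≤ G.degree p2 := by
      by_contra hlt
      exact hc ⟨p1, p3, h.n13, h.a12.symm, h.a23, by omega, by omega⟩
    exact hS.no5 h.a12 h.a23 h.a34 h.a45 h.n13 h.n14 h.n15 h.n24 h.n25 h.n35 (by omega)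
      (by omega) f34 f45
  by_cases e3 : p3 = v
  · subst e3
    rw [up_other e1, up_other e2] at f12
    rw [up_self, up_other e2] at f23
    rw [up_self, up_other h.n34.symm] at f34
    rw [up_other h.n34.symm, up_other h.n35.symm] at f45
    right
    by_contra hc
    have : G.degree p2 ≤ G.degree p3 := by
      by_contra hlt
      exact hc ⟨p2, p4, h.n24, h.a23.symm, h.a34, by omega, by omega⟩
    exact hS.no5 h.a12 h.a23 h.a34 h.a45 h.n13 h.n14 h.n15 h.n24 h.n25 h.n35 (by omega)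
      (by omega) (by omega) f45
  by_cases e4 : p4 = v
  · subst e4
    rw [up_other e1, up_other e2] at f12
    rw [up_other e2, up_other e3] at f23
    rw [up_self, up_other e3] at f34
    rw [up_self, up_other h.n45.symm] at f45
    right
    by_contra hc
    have : G.degree p3 ≤ G.degree p4 := by
      by_contra hlt
      exact hc ⟨p3, p5, h.n35, h.a34.symm, h.a45, by omega, by omega⟩
    exact hS.no5 h.a12 h.a23 h.a34 h.a45 h.n13 h.n14 h.n15 h.n24 h.n25 h.n35 (by omega)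
      (by omega) (by omega) (by omega)
  rw [up_other e1, up_other e2] at f12
  rw [up_other e2, up_other e3] at f23
  rw [up_other e3, up_other e4] at f34
  by_cases e5 : p5 = v
  · subst e5
    rw [up_self, up_other e4] at f45
    left
    refine ⟨rfl, ?_, f12, f23, f34⟩
    by_contra hc
    exact hS.no5 h.a12 h.a23 h.a34 h.a45 h.n13 h.n14 h.n15 h.n24 h.n25 h.n35 (by omega)
      (by omega) (by omega) (by omega)
  · exfalso
    rw [up_other e5, up_other e4] at f45
    exact hS.no5 h.a12 h.a23 h.a34 h.a45 h.n13 h.n14 h.n15 h.n24 h.n25 h.n35 (by omega)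
      (by omega) (by omega) (by omega)

/-- Adding an edge from `v` to a vertex `a` of maximum degree: the form used most often. -/
theorem Sat.A1 (hS : Sat G) {a v : V} (hmax : ∀ w, G.degree w ≤ G.degree a)
    (hlt : G.degree v < G.degree a) (hn : ¬ G.Adj v a) :
    (∃ p1 p2 p3, T4 G (G.degree v + 1) p1 p2 p3 v ∧ p1 ≠ a ∧ p2 ≠ a ∧ p3 ≠ a) ∨
    (∃ y z, y ≠ z ∧ G.Adj v y ∧ G.Adj v z ∧ G.degree y = G.degree v + 1 ∧
      G.degree v + 1 ≤ G.degree z) := by
  rcases hS.A1full hmax hlt hn with ⟨p1, p2, p3, p4, p5, h, h1, h2, h3, h4⟩ | h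
  · rcases hS.raised_cases h with ⟨e, g4, g1, g2, g3⟩ | h'
    · subst e
      exact Or.inl ⟨p2, p3, p4, ⟨h.n23, h.n24, h.n25, h.n34, h.n35, h.n45, h.a23, h.a34, h.a45,
        g2, g3, g4.le⟩, h2, h3, h4⟩
    · exact Or.inr h'
  · exact Or.inl h

/-- Adding an edge between two vertices of maximum degree. -/
theorem Sat.A2 (hS : Sat G) {x y : V} (hmaxx : ∀ w, G.degree w ≤ G.degree x)
    (hmaxy : ∀ w, G.degree w ≤ G.degree y) (hxy : x ≠ y) (hn : ¬ G.Adj x y) :
    (∃ p1 p2 p3, T4 G (G.degree x) p1 p2 p3 x ∧ p1 ≠ y ∧ p2 ≠ y ∧ p3 ≠ y) ∨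
    (∃ p1 p2 p3, T4 G (G.degree y) p1 p2 p3 y ∧ p1 ≠ x ∧ p2 ≠ x ∧ p3 ≠ x) := by
  obtain ⟨p1, p2, p3, p4, p5, h⟩ := hS.path hxy hn
  have hdeq : G.degree x = G.degree y := le_antisymm (hmaxy x) (hmaxx y)
  have hle : ∀ z, z ≠ x → z ≠ y → dd G x y z ≤ G.degree x := by
    intro z h1 h2
    rw [dd_other h1 h2]
    exact hmaxx z
  have hbig : ∀ z, (z = x ∨ z = y) → dd G x y z = G.degree x + 1 := by
    rintro z (rfl | rfl)
    · rw [dd_left]
    · rw [dd_right, hdeq]
  have key : ∀ z w, dd G x y z ≤ dd G x y w → (z = x ∨ z = y) → (w = x ∨ w = y) := by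
    intro z w hf hz
    rw [hbig z hz] at hf
    by_contra hw
    push Not at hw
    have := hle w hw.1 hw.2
    omega
  have h3 : ¬ (p3 = x ∨ p3 = y) := by
    intro e3
    have e4 := key _ _ h.f34 e3
    have e5 := key _ _ h.f45 e4
    rcases e3 with rfl | rfl <;> rcases e4 with e4 | e4 <;> rcases e5 with e5 | e5
    all_goals first
      | exact h.n34 e4.symm
      | exact h.n35 e5.symm
      | exact h.n45 (e4.trans e5.symm)
  have h2 : ¬ (p2 = x ∨ p2 = y) := fun e => h3 (key _ _ h.f23 e)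
  have h1 : ¬ (p1 = x ∨ p1 = y) := fun e => h2 (key _ _ h.f12 e)
  push Not at h1 h2 h3
  have f12 := h.f12
  have f23 := h.f23
  rw [dd_other h1.1 h1.2, dd_other h2.1 h2.2] at f12
  rw [dd_other h2.1 h2.2, dd_other h3.1 h3.2] at f23
  have a12 := ad_other_left h.a12 h1.1 h1.2
  have a23 := ad_other_left h.a23 h2.1 h2.2
  have a34 := ad_other_left h.a34 h3.1 h3.2
  by_cases e4 : p4 = x
  · subst e4
    exact Or.inl ⟨p1, p2, p3, ⟨h.n12, h.n13, h.n14, h.n23, h.n24, h.n34, a12, a23, a34, f12,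
      f23, hmaxx p3⟩, h1.2, h2.2, h3.2⟩
  by_cases e4' : p4 = y
  · subst e4'
    exact Or.inr ⟨p1, p2, p3, ⟨h.n12, h.n13, h.n14, h.n23, h.n24, h.n34, a12, a23, a34, f12,
      f23, hmaxy p3⟩, h1.1, h2.1, h3.1⟩
  exfalso
  have a45 := ad_other_left h.a45 e4 e4'
  have f34 := h.f34
  rw [dd_other h3.1 h3.2, dd_other e4 e4'] at f34
  refine hS.no5 a12 a23 a34 a45 h.n13 h.n14 h.n15 h.n24 h.n25 h.n35 f12 f23 f34 ?_
  by_cases e5 : p5 = x
  · rw [e5]; exact hmaxx _
  by_cases e5' : p5 = y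
  · rw [e5']; exact hmaxy _
  · have f45 := h.f45
    rwa [dd_other e4 e4', dd_other e5 e5'] at f45

/-- A pair of non-adjacent vertices inside a closed set with at most four vertices. -/
theorem Sat.closed4 (hS : Sat G) {u v : V} (huv : u ≠ v) (hn : ¬ G.Adj u v) (C : Finset V)
    (hC : C.card ≤ 4) (hcl : ∀ x ∈ C, ∀ y, G.Adj x y → y ∈ C) (hu : u ∈ C) (hv : v ∈ C) :
    False := by
  obtain ⟨p1, p2, p3, p4, p5, h⟩ := hS.path huv hn
  have hcl' : ∀ x y, ad G u v x y → x ∈ C → y ∈ C := by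
    rintro x y (h | ⟨-, rfl⟩ | ⟨-, rfl⟩) hx
    · exact hcl x hx y h
    · exact hv
    · exact hu
  have hall : p1 ∈ C → False := by
    intro m1
    have m2 := hcl' _ _ h.a12 m1
    have m3 := hcl' _ _ h.a23 m2
    have m4 := hcl' _ _ h.a34 m3
    have m5 := hcl' _ _ h.a45 m4
    have hcard : ({p1, p2, p3, p4, p5} : Finset V).card = 5 := by
      have := List.toFinset_card_of_nodup (l := [p1, p2, p3, p4, p5])
        (by simp [h.n12, h.n13, h.n14, h.n15, h.n23, h.n24, h.n25, h.n34, h.n35, h.n45])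
      simpa using this
    have hsub : ({p1, p2, p3, p4, p5} : Finset V) ⊆ C := by
      intro z hz
      simp only [Finset.mem_insert, Finset.mem_singleton] at hz
      rcases hz with rfl | rfl | rfl | rfl | rfl <;> assumption
    have := Finset.card_le_card hsub
    omega
  have h1 : p1 ∉ C := hall
  have h2 : p2 ∉ C := fun m => h1 (hcl' _ _ (ad_symm h.a12) m)
  have h3 : p3 ∉ C := fun m => h2 (hcl' _ _ (ad_symm h.a23) m)
  have h4 : p4 ∉ C := fun m => h3 (hcl' _ _ (ad_symm h.a34) m)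
  have h5 : p5 ∉ C := fun m => h4 (hcl' _ _ (ad_symm h.a45) m)
  have aux : ∀ z, z ∉ C → z ≠ u ∧ z ≠ v :=
    fun z hz => ⟨fun e => hz (e ▸ hu), fun e => hz (e ▸ hv)⟩
  exact hS.no_avoid h (aux _ h1) (aux _ h2) (aux _ h3) (aux _ h4) (aux _ h5)

end DMP
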