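import Pool.Agent.DMP.Pairs2

/-! Local structure of a saturated graph of maximum degree at least three. -/

open scoped Classical

namespace DMP

variable {V : Type*} [Fintype V] {G : SimpleGraph V}

/-- `G` is saturated, `a` has maximum degree and this degree is at least `3`. -/
structure Ctx (G : SimpleGraph V) (a : V) : Prop where
  hS : Sat G
  hmax : ∀ w, G.degree w ≤ G.degree a
  h3 : 3 ≤ G.degree a

theorem Ctx.deg_pos {a : V} (h : Ctx G a) (v : V) : 1 ≤ G.degree v := by
  by_contra hv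
  have hv0 : G.degree v = 0 := by omega
  have hno : ∀ w, ¬ G.Adj v w := fun w hw => by have := deg_pos_of_adj hw; omega
  have := h.h3
  rcases h.hS.A1 h.hmax (by omega : G.degree v < G.degree a) (hno a) with
    ⟨p1, p2, p3, hp, -⟩ | ⟨y, z, -, hy, -⟩
  · exact hno _ hp.a34.symm
  · exact hno _ hy

/-- Every leaf is adjacent to every vertex of maximum degree. -/
theorem Ctx.leaf_adj {a : V} (h : Ctx G a) {u : V} (hu : G.degree u = 1) : G.Adj u a := by
  have h3 := h.h3
  by_contra hn
  rcases h.hS.A1 h.hmax (by omega) hn with ⟨p1, p2, w, hp, -⟩ | ⟨y, z, hyz, hy, hz, -⟩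
  swap
  · exact hyz (nbr_one hu.le hz hy)
  have f12 := hp.f12
  have f23 := hp.f23
  have f3 := hp.f3
  rw [hu] at f3
  have dw : 2 ≤ G.degree w := two_le_deg hp.a23.symm hp.a34 hp.n24
  have dp2 : 2 ≤ G.degree p2 := two_le_deg hp.a12.symm hp.a23 hp.n13
  have Nw : ∀ r, G.Adj w r → r = p2 ∨ r = u :=
    fun r hr => nbr_two (by omega) hp.a23.symm hp.a34 hp.n24 hr
  have Np2 : ∀ r, G.Adj p2 r → r = p1 ∨ r = w :=
    fun r hr => nbr_two (by omega) hp.a12.symm hp.a23 hp.n13 hr
  have Nu : ∀ r, G.Adj u r → r = w := fun r hr => nbr_one hu.le hp.a34.symm hr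
  have hwa : ¬ G.Adj w a := by
    intro hadj
    rcases Nw a hadj with e | e <;> rw [e] at h3 <;> omega
  rcases h.hS.A1 h.hmax (by omega) hwa with ⟨q1, q2, q3, hq, -⟩ | ⟨y, z, hyz, hy, hz, hdy, hdz⟩
  swap
  · rcases Nw y hy with rfl | rfl <;> omega
  have hq3 : q3 = p2 := by
    rcases Nw q3 hq.a34.symm with e | e
    · exact e
    · exfalso
      subst e
      exact hq.n24 (Nu _ hq.a23.symm)
  subst hq3
  have hq2 : q2 = p1 := by
    rcases Np2 q2 hq.a23.symm with e | e
    · exact e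
    · exact absurd e hq.n24
  subst hq2
  have hq1u : q1 ≠ u := by
    intro e
    rw [e] at hq
    exact hp.n13 (Nu _ hq.a12)
  have dq2 : 2 ≤ G.degree q2 := two_le_deg hq.a12.symm hq.a23 hq.n13
  have gq := hq.f12
  have dq1 : G.degree q1 = 1 := by
    have h1 : 1 ≤ G.degree q1 := deg_pos_of_adj hq.a12
    by_contra hne
    exact h.hS.no5 hp.a34.symm hp.a23.symm hp.a12.symm hq.a12.symm hp.n24.symm hp.n14.symm
      hq1u.symm hp.n13.symm hq.n14.symm hq.n13.symm (by omega) (by omega) (by omega) (by omega)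
  have Nq2 : ∀ r, G.Adj q2 r → r = q1 ∨ r = q3 :=
    fun r hr => nbr_two (by omega) hq.a12.symm hq.a23 hq.n13 hr
  have Nq1 : ∀ r, G.Adj q1 r → r = q2 := fun r hr => nbr_one dq1.le hq.a12 hr
  have hpa : ¬ G.Adj q3 a := by
    intro hadj
    rcases Np2 a hadj with e | e <;> rw [e] at h3 <;> omega
  rcases h.hS.A1 h.hmax (by omega) hpa with ⟨r1, r2, r3, hr, -⟩ | ⟨y, z, hyz, hy, hz, hdy, hdz⟩
  swap
  · rcases Np2 y hy with rfl | rfl <;> omega
  rcases Np2 r3 hr.a34.symm with e | e
  · subst e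
    rcases Nq2 r2 hr.a23.symm with e | e
    · subst e
      exact hr.n13 (Nq1 _ hr.a12.symm)
    · exact hr.n24 e
  · subst e
    rcases Nw r2 hr.a23.symm with e | e
    · exact hr.n24 e
    · subst e
      exact hr.n13 (Nu _ hr.a12.symm)

/-- If there is a leaf then `a` is the only vertex of maximum degree. -/
theorem Ctx.unique_of_leaf {a : V} (h : Ctx G a) {u : V} (hu : G.degree u = 1) {w : V}
    (hw : w ≠ a) : G.degree w < G.degree a := by
  by_contra hc
  have hwa : G.degree w = G.degree a := le_antisymm (h.hmax w) (by omega)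
  have hctx : Ctx G w := ⟨h.hS, fun z => hwa ▸ h.hmax z, hwa ▸ h.h3⟩
  exact hw (nbr_one hu.le (h.leaf_adj hu) (hctx.leaf_adj hu))

/-- There is at most one leaf. -/
theorem Ctx.leaf_unique {a : V} (h : Ctx G a) {u u' : V} (hu : G.degree u = 1)
    (hu' : G.degree u' = 1) : u = u' := by
  by_contra hne
  have h3 := h.h3
  have hua := h.leaf_adj hu
  have hua' := h.leaf_adj hu'
  have hau : a ≠ u := hua.ne.symm
  have hau' : a ≠ u' := hua'.ne.symm
  have hn : ¬ G.Adj u u' := fun hadj => hau' (nbr_one hu.le hadj hua)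
  obtain ⟨p1, p2, p3, p4, p5, hp⟩ := h.hS.path hne hn
  have dda : dd G u u' a = G.degree a := dd_other hau hau'
  have hlt : ∀ x, x ≠ a → dd G u u' x < G.degree a := by
    intro x hx
    by_cases e : x = u
    · subst e; rw [dd_left]; omega
    by_cases e' : x = u'
    · subst e'; rw [dd_right]; omega
    rw [dd_other e e']
    exact h.unique_of_leaf hu hx
  have key : ∀ x y, x ≠ y → dd G u u' x ≤ dd G u u' y → x ≠ a := by
    rintro x y hxy hf rfl
    have := hlt y (fun e => hxy e.symm)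
    omega
  have h1 := key _ _ hp.n12 hp.f12
  have h2 := key _ _ hp.n23 hp.f23
  have h3' := key _ _ hp.n34 hp.f34
  have h4 := key _ _ hp.n45 hp.f45
  have hnb : ∀ x y, ad G u u' x y → y ≠ a → (x = u ∨ x = u') → (y = u ∨ y = u') := by
    intro x y hxy hya hx
    rcases hxy with hxy | ⟨-, rfl⟩ | ⟨-, rfl⟩
    · exfalso
      rcases hx with rfl | rfl
      · exact hya (nbr_one hu.le hua hxy)
      · exact hya (nbr_one hu'.le hua' hxy)
    · exact Or.inr rfl
    · exact Or.inl rfl
  have g1 : ¬ (p1 = u ∨ p1 = u') := by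
    intro e1
    have e2 := hnb _ _ hp.a12 h2 e1
    have e3 := hnb _ _ hp.a23 h3' e2
    rcases e1 with e1 | e1 <;> rcases e2 with e2 | e2 <;> rcases e3 with e3 | e3
    all_goals first
      | exact hp.n12 (e1.trans e2.symm)
      | exact hp.n13 (e1.trans e3.symm)
      | exact hp.n23 (e2.trans e3.symm)
  have g2 : ¬ (p2 = u ∨ p2 = u') := fun e => g1 (hnb _ _ (ad_symm hp.a12) h1 e)
  have g3 : ¬ (p3 = u ∨ p3 = u') := fun e => g2 (hnb _ _ (ad_symm hp.a23) h2 e)
  have g4 : ¬ (p4 = u ∨ p4 = u') := fun e => g3 (hnb _ _ (ad_symm hp.a34) h3' e)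
  have g5 : ¬ (p5 = u ∨ p5 = u') := fun e => g4 (hnb _ _ (ad_symm hp.a45) h4 e)
  push Not at g1 g2 g3 g4 g5
  exact h.hS.no_avoid hp g1 g2 g3 g4 g5

/-- Only vertices of maximum degree are adjacent to leaves. -/
theorem Ctx.two_le_of_adj {a : V} (h : Ctx G a) {x y : V} (hxy : G.Adj x y)
    (hx : G.degree x < G.degree a) : 2 ≤ G.degree y := by
  have h1 := h.deg_pos y
  by_contra hc
  have hy : G.degree y = 1 := by omega
  have := nbr_one hy.le hxy.symm (h.leaf_adj hy)
  subst this
  omega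

/-- No vertex of degree two has two neighbours of degree two. -/
theorem Ctx.T3 {a : V} (h : Ctx G a) {x w y : V} (hx : G.degree x = 2) (hxw : G.Adj x w)
    (hxy : G.Adj x y) (hwy : w ≠ y) (hw : G.degree w = 2) : 3 ≤ G.degree y := by
  have h3 := h.h3
  have hy2 := h.two_le_of_adj hxy (by omega)
  by_contra hc
  have hy : G.degree y = 2 := by omega
  have Nx : ∀ r, G.Adj x r → r = w ∨ r = y := fun r hr => nbr_two hx.le hxw hxy hwy hr
  have hxa : ¬ G.Adj x a := by
    intro hadj
    rcases Nx a hadj with e | e <;> rw [e] at h3 <;> omega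
  rcases h.hS.A1 h.hmax (by omega) hxa with ⟨p1, p2, p3, hp, -⟩ | ⟨y', z, hyz, hy', hz, hdy, hdz⟩
  swap
  · rcases Nx y' hy' with rfl | rfl <;> omega
  -- symmetric argument
  have main : ∀ w y, G.Adj x w → G.Adj x y → w ≠ y → G.degree w = 2 → G.degree y = 2 →
      (∀ r, G.Adj x r → r = w ∨ r = y) → p3 = w → False := by
    clear hxw hxy hwy hw hc hy2 hy Nx w y
    intro w y hxw hxy hwy hw hy Nx e
    subst e
    have f12 := hp.f12
    have f23 := hp.f23
    have dp2 : 2 ≤ G.degree p2 := two_le_deg hp.a12.symm hp.a23 hp.n13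
    have dp1 : 2 ≤ G.degree p1 := h.two_le_of_adj hp.a12.symm (by omega)
    have hp2y : p2 ≠ y := by
      rintro rfl
      have := three_le_deg hp.a12.symm hp.a23 hxy.symm hp.n13 hp.n14 hp.n34
      omega
    by_cases hp1y : p1 = y
    · subst hp1y
      have hxp2 : ¬ G.Adj x p2 := by
        intro hadj
        rcases Nx p2 hadj with e | e
        · exact hp.n23 e
        · exact hp.n12 e.symm
      refine h.hS.closed4 hp.n24.symm hxp2 {x, p3, p2, p1} Finset.card_le_four ?_ (by simp)
        (by simp)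
      intro z hz r hr
      simp only [Finset.mem_insert, Finset.mem_singleton] at hz ⊢
      rcases hz with rfl | rfl | rfl | rfl
      · rcases Nx r hr with e | e <;> simp [e]
      · rcases nbr_two hw.le hp.a23.symm hxw.symm hp.n24 hr with e | e <;> simp [e]
      · rcases nbr_two (by omega) hp.a12.symm hp.a23 hp.n13 hr with e | e <;> simp [e]
      · rcases nbr_two (by omega) hp.a12 hxy.symm hp.n24 hr with e | e <;> simp [e]
    · exact h.hS.no5 hp.a12 hp.a23 hp.a34 hxy hp.n13 hp.n14 hp1y hp.n24 hp2y hwy (by omega)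
        (by omega) (by omega) (by omega)
  rcases Nx p3 hp.a34.symm with e | e
  · exact main w y hxw hxy hwy hw hy Nx e
  · exact main y w hxy hxw hwy.symm hy hw (fun r hr => (Nx r hr).symm) e

/-- A vertex of degree two not adjacent to `a` has a neighbour of degree three. -/
theorem Ctx.G1 {a : V} (h : Ctx G a) {v : V} (hv : G.degree v = 2) (hn : ¬ G.Adj v a) :
    ∃ y, G.Adj v y ∧ G.degree y = 3 := by
  have h3 := h.h3
  rcases h.hS.A1 h.hmax (by omega) hn with ⟨p1, p2, p3, hp, -⟩ | ⟨y, z, hyz, hy, hz, hdy, hdz⟩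
  swap
  · exact ⟨y, hy, by omega⟩
  have f12 := hp.f12
  have f23 := hp.f23
  have f3 := hp.f3
  by_cases hd : G.degree p3 = 3
  · exact ⟨p3, hp.a34.symm, hd⟩
  exfalso
  have dp3 : 2 ≤ G.degree p3 := two_le_deg hp.a23.symm hp.a34 hp.n24
  have := h.T3 (x := p3) (w := v) (y := p2) (by omega) hp.a34 hp.a23.symm hp.n24.symm hv
  omega

/-- If the maximum degree is at least four, a vertex of degree three has a neighbour of degree at
least three. -/
theorem Ctx.G2 {a : V} (h : Ctx G a) (h4 : 4 ≤ G.degree a) {x : V} (hx : G.degree x = 3)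
    (hall : ∀ y, G.Adj x y → G.degree y ≤ 2) : False := by
  have hn : ¬ G.Adj x a := fun hadj => by have := hall a hadj; omega
  rcases h.hS.A1 h.hmax (by omega) hn with ⟨p1, p2, p3, hp, -⟩ | ⟨y, z, hyz, hy, hz, hdy, hdz⟩
  swap
  · have := hall y hy; omega
  have f12 := hp.f12
  have f23 := hp.f23
  have hd3 := hall p3 hp.a34.symm
  have dp3 : 2 ≤ G.degree p3 := two_le_deg hp.a23.symm hp.a34 hp.n24
  have dp2 : 2 ≤ G.degree p2 := two_le_deg hp.a12.symm hp.a23 hp.n13
  have := h.T3 (x := p2) (w := p3) (y := p1) (by omega) hp.a23 hp.a12.symm hp.n13.symm (by omega)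
  omega

end DMP
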