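import Pool.Agent.DMP.Struct

/-! More special pairs. -/

open scoped Classical

namespace DMP

variable {V : Type*} [Fintype V] {G : SimpleGraph V}

omit [Fintype V] in
theorem four_ne {C : Finset V} (hC : C.card ≤ 3) {p1 p2 p3 p4 : V} (m1 : p1 ∈ C) (m2 : p2 ∈ C)
    (m3 : p3 ∈ C) (m4 : p4 ∈ C) (n12 : p1 ≠ p2) (n13 : p1 ≠ p3) (n14 : p1 ≠ p4) (n23 : p2 ≠ p3)
    (n24 : p2 ≠ p4) (n34 : p3 ≠ p4) : False := by
  have hcard : ({p1, p2, p3, p4} : Finset V).card = 4 := by
    have := List.toFinset_card_of_nodup (l := [p1, p2, p3, p4])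
      (by simp [n12, n13, n14, n23, n24, n34])
    simpa using this
  have hsub : ({p1, p2, p3, p4} : Finset V) ⊆ C := by
    intro z hz
    simp only [Finset.mem_insert, Finset.mem_singleton] at hz
    rcases hz with rfl | rfl | rfl | rfl <;> assumption
  have := Finset.card_le_card hsub
  omega

/-- `v` has degree two, is adjacent to `a` and has no neighbour of degree three; all degrees
except that of `a` are at most three. Then every vertex of degree three is adjacent to `a`, and
the degree of `a` is four. -/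
theorem Ctx.EZ {a : V} (h : Ctx G a) (h4 : 4 ≤ G.degree a) (hoth : ∀ w, w ≠ a → G.degree w ≤ 3)
    {v : V} (hv : G.degree v = 2) (hva : G.Adj v a) (hE : ∀ y, G.Adj v y → G.degree y ≠ 3)
    {z : V} (hz : G.degree z = 3) (hc : 5 ≤ G.degree a ∨ ¬ G.Adj z a) : False := by
  have hvz : v ≠ z := by rintro rfl; omega
  have hn : ¬ G.Adj v z := fun hadj => hE z hadj hz
  have hav : a ≠ v := hva.ne.symm
  have haz : a ≠ z := by rintro rfl; omega
  obtain ⟨w, hvw, hwa⟩ := exists_nbr_ne (G := G) (x := v) (p := a) (by omega)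
  have hw2 := h.two_le_of_adj hvw (by omega)
  have hw3 := hoth w hwa
  have hw3' := hE w hvw
  have hw : G.degree w = 2 := by omega
  have hwz : w ≠ z := by rintro rfl; omega
  have hwv : w ≠ v := hvw.ne.symm
  obtain ⟨p1, p2, p3, p4, p5, hp⟩ := h.hS.path hvz hn
  have da : dd G v z a = G.degree a := dd_other hav haz
  have dv : dd G v z v = 3 := by rw [dd_left]; omega
  have dz : dd G v z z = 4 := by rw [dd_right]; omega
  have dw : dd G v z w = 2 := by rw [dd_other hwv hwz]; omega
  have dle : ∀ x, x ≠ a → x ≠ z → dd G v z x ≤ 3 := by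
    intro x hx hx'
    by_cases e : x = v
    · rw [e, dv]
    · rw [dd_other e hx']; exact hoth x hx
  have hA : ∀ p, ad G v z p v → dd G v z p ≤ dd G v z v → p = w := by
    intro p hp hf
    rcases ad_symm hp with hp | ⟨-, rfl⟩ | ⟨e, -⟩
    · rcases nbr_two hv.le hva hvw hwa.symm hp with rfl | rfl
      · omega
      · rfl
    · omega
    · exact absurd e hvz
  have hB : ∀ p, ad G v z p w → p ≠ v → dd G v z p ≤ dd G v z w → False := by
    intro p hp hpv hf
    have hadj := ad_other_right hp hwv hwz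
    have := h.T3 (x := w) (w := v) (y := p) hw hvw.symm hadj.symm (fun e => hpv e.symm) hv
    have := dd_ge (G := G) (u := v) (v := z) (x := p)
    omega
  have hC : ∀ q, ad G v z v q → dd G v z v ≤ dd G v z q → q = a ∨ q = z := by
    intro q hq hf
    rcases hq with hq | ⟨-, rfl⟩ | ⟨e, -⟩
    · rcases nbr_two hv.le hva hvw hwa.symm hq with rfl | rfl
      · exact Or.inl rfl
      · omega
    · exact Or.inr rfl
    · exact absurd e hvz
  have hD : ∀ q, ad G v z a q → q ≠ a → dd G v z a ≤ dd G v z q → False := by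
    intro q hq hqa hf
    by_cases e : q = z
    · subst e
      have hadj := ad_other_left hq hav haz
      rcases hc with hc | hc
      · omega
      · exact hc hadj.symm
    · have := dle q hqa e
      omega
  have hZ : ∀ q, q ≠ z → dd G v z z ≤ dd G v z q → q = a := by
    intro q hq hf
    by_contra e
    have := dle q e hq
    omega
  by_cases e1 : p1 = v
  · subst e1
    rcases hC p2 hp.a12 hp.f12 with e2 | e2
    · subst e2
      exact hD p3 hp.a23 hp.n23.symm hp.f23
    · subst e2
      have e3 := hZ p3 hp.n23.symm hp.f23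
      subst e3
      exact hD p4 hp.a34 hp.n34.symm hp.f34
  by_cases e2 : p2 = v
  · subst e2
    rcases hC p3 hp.a23 hp.f23 with e3 | e3
    · subst e3
      exact hD p4 hp.a34 hp.n34.symm hp.f34
    · subst e3
      have e4 := hZ p4 hp.n34.symm hp.f34
      subst e4
      exact hD p5 hp.a45 hp.n45.symm hp.f45
  by_cases e3 : p3 = v
  · subst e3
    have e2' := hA p2 hp.a23 hp.f23
    subst e2'
    exact hB p1 hp.a12 e1 hp.f12
  by_cases e4 : p4 = v
  · subst e4
    have e2' := hA p3 hp.a34 hp.f34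
    subst e2'
    exact hB p2 hp.a23 e2 hp.f23
  by_cases e5 : p5 = v
  · subst e5
    have e2' := hA p4 hp.a45 hp.f45
    subst e2'
    exact hB p3 hp.a34 e3 hp.f34
  have step : ∀ p q, ad G v z p q → p ≠ v → q ≠ v → p ≠ q → dd G v z p ≤ dd G v z q →
      G.degree p ≤ G.degree q := by
    intro p q hpq hpv hqv hne hf
    have hadj := ad_ne_left hpq hpv hqv
    by_cases eq : q = z
    · subst eq
      by_cases ep : p = a
      · subst ep
        exfalso
        rcases hc with hc | hc
        · omega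
        · exact hc hadj.symm
      · rw [hz]; exact hoth p ep
    · rw [dd_other hqv eq] at hf
      exact dd_ge.trans hf
  exact h.hS.no5 (ad_ne_left hp.a12 e1 e2) (ad_ne_left hp.a23 e2 e3) (ad_ne_left hp.a34 e3 e4)
    (ad_ne_left hp.a45 e4 e5) hp.n13 hp.n14 hp.n15 hp.n24 hp.n25 hp.n35
    (step _ _ hp.a12 e1 e2 hp.n12 hp.f12) (step _ _ hp.a23 e2 e3 hp.n23 hp.f23)
    (step _ _ hp.a34 e3 e4 hp.n34 hp.f34) (step _ _ hp.a45 e4 e5 hp.n45 hp.f45)

/-- Two adjacent vertices of degree three with two common neighbours, one of degree two. -/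
theorem Ctx.F5 {a : V} (h : Ctx G a) (ha : G.degree a = 3) {x1 x2 m w : V}
    (h12 : G.Adj x1 x2) (hd1 : G.degree x1 = 3) (hd2 : G.degree x2 = 3) (hm : G.degree m = 2)
    (m1 : G.Adj m x1) (m2 : G.Adj m x2) (w1 : G.Adj w x1) (w2 : G.Adj w x2) (hmw : m ≠ w) :
    False := by
  have N1 : ∀ r, G.Adj x1 r → r = x2 ∨ r = m ∨ r = w := fun r hr =>
    nbr_three hd1.le h12 m1.symm w1.symm m2.ne.symm w2.ne.symm hmw hr
  have N2 : ∀ r, G.Adj x2 r → r = x1 ∨ r = m ∨ r = w := fun r hr =>
    nbr_three hd2.le h12.symm m2.symm w2.symm m1.ne.symm w1.ne.symm hmw hr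
  have Nm : ∀ r, G.Adj m r → r = x1 ∨ r = x2 := fun r hr => nbr_two hm.le m1 m2 h12.ne hr
  have hn : ¬ G.Adj m w := by
    intro hadj
    rcases Nm w hadj with e | e
    · exact w1.ne e
    · exact w2.ne e
  have hw2 : 2 ≤ G.degree w := two_le_deg w1 w2 h12.ne
  have hw3 : G.degree w ≤ 3 := ha ▸ h.hmax w
  by_cases hw : G.degree w = 2
  · have Nw : ∀ r, G.Adj w r → r = x1 ∨ r = x2 := fun r hr => nbr_two hw.le w1 w2 h12.ne hr
    refine h.hS.closed4 hmw hn {x1, x2, m, w} Finset.card_le_four ?_ (by simp) (by simp)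
    intro z hz r hr
    simp only [Finset.mem_insert, Finset.mem_singleton] at hz ⊢
    rcases hz with rfl | rfl | rfl | rfl
    · rcases N1 r hr with e | e | e <;> simp [e]
    · rcases N2 r hr with e | e | e <;> simp [e]
    · rcases Nm r hr with e | e <;> simp [e]
    · rcases Nw r hr with e | e <;> simp [e]
  · have hw' : G.degree w = 3 := by omega
    have hmaxw : ∀ z, G.degree z ≤ G.degree w := fun z => by rw [hw', ← ha]; exact h.hmax z
    have hcl : ∀ p q, G.Adj p q → q ≠ w → p ∈ ({m, x1, x2} : Finset V) →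
        q ∈ ({m, x1, x2} : Finset V) := by
      intro p q hpq hq hp
      simp only [Finset.mem_insert, Finset.mem_singleton] at hp ⊢
      rcases hp with rfl | rfl | rfl
      · rcases Nm q hpq with e | e <;> simp [e]
      · rcases N1 q hpq with e | e | e
        · simp [e]
        · simp [e]
        · exact absurd e hq
      · rcases N2 q hpq with e | e | e
        · simp [e]
        · simp [e]
        · exact absurd e hq
    rcases h.hS.A1full hmaxw (by omega) hn with
      ⟨p1, p2, p3, p4, p5, hp, g1, g2, g3, g4⟩ | ⟨p1, p2, p3, hp, g1, g2, g3⟩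
    · have k1 : p1 ∉ ({m, x1, x2} : Finset V) := by
        intro m1
        have m2 := hcl _ _ hp.a12 g2 m1
        have m3 := hcl _ _ hp.a23 g3 m2
        have m4 := hcl _ _ hp.a34 g4 m3
        exact four_ne Finset.card_le_three m1 m2 m3 m4 hp.n12 hp.n13 hp.n14 hp.n23 hp.n24 hp.n34
      have k2 : p2 ∉ ({m, x1, x2} : Finset V) := fun e => k1 (hcl _ _ hp.a12.symm g1 e)
      have k3 : p3 ∉ ({m, x1, x2} : Finset V) := fun e => k2 (hcl _ _ hp.a23.symm g2 e)
      have k4 : p4 ∉ ({m, x1, x2} : Finset V) := fun e => k3 (hcl _ _ hp.a34.symm g3 e)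
      have k5 : p5 ∉ ({m, x1, x2} : Finset V) := fun e => k4 (hcl _ _ hp.a45.symm g4 e)
      have aux : ∀ z, z ∉ ({m, x1, x2} : Finset V) → z ≠ m := fun z hz e => hz (by simp [e])
      have f12 := hp.f12
      have f23 := hp.f23
      have f34 := hp.f34
      have f45 := hp.f45
      rw [up_other (aux _ k1), up_other (aux _ k2)] at f12
      rw [up_other (aux _ k2), up_other (aux _ k3)] at f23
      rw [up_other (aux _ k3), up_other (aux _ k4)] at f34
      rw [up_other (aux _ k4), up_other (aux _ k5)] at f45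
      exact h.hS.no5 hp.a12 hp.a23 hp.a34 hp.a45 hp.n13 hp.n14 hp.n15 hp.n24 hp.n25 hp.n35 f12
        f23 f34 f45
    · have k3 := hcl _ _ hp.a34.symm g3 (by simp)
      have k2 := hcl _ _ hp.a23.symm g2 k3
      have k1 := hcl _ _ hp.a12.symm g1 k2
      exact four_ne Finset.card_le_three k1 k2 k3 (by simp : m ∈ ({m, x1, x2} : Finset V)) hp.n12
        hp.n13 hp.n14 hp.n23 hp.n24 hp.n34

/-- Adding an edge from `v` to the leaf. -/
theorem Ctx.leafpair {a : V} (h : Ctx G a) {u : V} (hu : G.degree u = 1) {v : V} (hva : v ≠ a)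
    (hvu : v ≠ u) :
    (∃ p1 p2 p3 p4 p5, Q5 G.Adj (up G v) p1 p2 p3 p4 p5) ∨
    (∃ q2 q3 q4, v ≠ q3 ∧ v ≠ q4 ∧ q2 ≠ q4 ∧ G.Adj v q2 ∧ G.Adj q2 q3 ∧ G.Adj q3 q4 ∧
      G.degree v + 1 ≤ G.degree q2 ∧ G.degree q2 ≤ G.degree q3 ∧ G.degree q3 ≤ G.degree q4) := by
  have h3 := h.h3
  have hua := h.leaf_adj hu
  have hau : a ≠ u := hua.ne.symm
  have hv1 := h.deg_pos v
  have hv2 : 2 ≤ G.degree v := by
    by_contra hc
    exact hvu (h.leaf_unique (by omega) hu)
  have hn : ¬ G.Adj v u := fun hadj => hva (nbr_one hu.le hua hadj.symm)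
  obtain ⟨p1, p2, p3, p4, p5, hp⟩ := h.hS.path hvu hn
  have da : dd G v u a = G.degree a := dd_other hva.symm hau
  have dv : dd G v u v = G.degree v + 1 := dd_left
  have du : dd G v u u = 2 := by rw [dd_right, hu]
  have hpred : ∀ p q, ad G v u p q → dd G v u p ≤ dd G v u q → q ≠ u := by
    rintro p q hpq hf rfl
    rcases ad_symm hpq with hpq | ⟨e, -⟩ | ⟨-, rfl⟩
    · have := nbr_one hu.le hua hpq
      subst this
      omega
    · exact hvu e.symm
    · omega
  have h2 := hpred _ _ hp.a12 hp.f12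
  have h3' := hpred _ _ hp.a23 hp.f23
  have h4 := hpred _ _ hp.a34 hp.f34
  have h5 := hpred _ _ hp.a45 hp.f45
  have a23 := ad_ne_right hp.a23 h2 h3'
  have a34 := ad_ne_right hp.a34 h3' h4
  have a45 := ad_ne_right hp.a45 h4 h5
  have f23 := hp.f23
  have f34 := hp.f34
  have f45 := hp.f45
  rw [dd_eq_up h2, dd_eq_up h3'] at f23
  rw [dd_eq_up h3', dd_eq_up h4] at f34
  rw [dd_eq_up h4, dd_eq_up h5] at f45
  by_cases e1 : p1 = u
  · right
    subst e1
    have e2 : p2 = a ∨ p2 = v := by
      rcases hp.a12 with hpq | ⟨e, -⟩ | ⟨-, e⟩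
      · exact Or.inl (nbr_one hu.le hua hpq)
      · exact absurd e hvu.symm
      · exact Or.inr e
    rcases e2 with e2 | e2
    · exfalso
      subst e2
      have hbig : ∀ q, q ≠ p2 → G.degree p2 ≤ up G v q → q = v := by
        intro q hq hf
        by_contra e
        rw [up_other e] at hf
        have := h.unique_of_leaf hu hq
        omega
      rw [up_other hva.symm] at f23
      have e3 := hbig p3 hp.n23.symm f23
      have e4 := hbig p4 hp.n24.symm (f23.trans f34)
      exact hp.n34 (e3.trans e4.symm)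
    · subst e2
      rw [up_self, up_other hp.n23.symm] at f23
      rw [up_other hp.n23.symm, up_other hp.n24.symm] at f34
      rw [up_other hp.n24.symm, up_other hp.n25.symm] at f45
      exact ⟨p3, p4, p5, hp.n24, hp.n25, hp.n35, a23, a34, a45, f23, f34, f45⟩
  · left
    have f12 := hp.f12
    rw [dd_eq_up e1, dd_eq_up h2] at f12
    exact ⟨p1, p2, p3, p4, p5, hp.n12, hp.n13, hp.n14, hp.n15, hp.n23, hp.n24, hp.n25, hp.n34,
      hp.n35, hp.n45, ad_ne_right hp.a12 e1 h2, a23, a34, a45, f12, f23, f34, f45⟩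

end DMP
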