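import Pool.Agent.DMP.UpperGraphs

/-! Degree monotone paths: the upper bound for `h(n,5)`. -/

open scoped Classical

namespace DMP

theorem chain_dominoes {V : Type} [Fintype V] (G : SimpleGraph V) (h1 : Sat5 G) (h2 : Comp G GD)
    (k : ℕ) : ∃ (V' : Type) (_ : Fintype V') (G' : SimpleGraph V'), Sat5 G' ∧ Comp G' GD ∧
      Fintype.card V' = Fintype.card V + 6 * k ∧ G'.edgeSet.ncard = G.edgeSet.ncard + 7 * k := by
  induction k with
  | zero => exact ⟨V, inferInstance, G, h1, h2, by simp, by simp⟩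
  | succ k ih =>
    obtain ⟨V', inst, G', hs, hc, hcard, hnc⟩ := ih
    refine ⟨V' ⊕ Fin 6, inferInstance, sumG G' GD, sat5_sum hs satD hc, comp_sum hc compD, ?_, ?_⟩
    · rw [Fintype.card_sum, hcard, Fintype.card_fin]; ring
    · rw [ncard_sum, hnc, ncardD]; ring

theorem exists_of_component {s : ℕ} (G : SimpleGraph (Fin s)) (h1 : Sat5 G) (h2 : Comp G GD)
    (k n m : ℕ) (hn : s + 6 * k = n) (hm : G.edgeSet.ncard + 7 * k = m) :
    ∃ G' : SimpleGraph (Fin n), Saturated 5 G' ∧ G'.edgeSet.ncard = m := by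
  obtain ⟨V', inst, G', hs, -, hcard, hnc⟩ := chain_dominoes G h1 h2 k
  rw [Fintype.card_fin, hn] at hcard
  obtain ⟨G'', hs', hnc'⟩ := exists_fin_of_sat5 hs hcard
  exact ⟨G'', hs', by rw [hnc', hnc, hm]⟩

/-- The upper bound: for `n ≥ 6` there is a `5`-saturated graph on `n` vertices with
`n + ⌊n/6⌋ + min(2, n mod 6)` edges. -/
theorem exists_saturated (n : ℕ) (hn : 6 ≤ n) :
    ∃ G : SimpleGraph (Fin n), Saturated 5 G ∧ G.edgeSet.ncard = n + n / 6 + min 2 (n % 6) := by
  have hmod : n % 6 < 6 := Nat.mod_lt _ (by norm_num)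
  have hdiv := Nat.div_add_mod n 6
  obtain h | h | h | h | h | h : n % 6 = 0 ∨ n % 6 = 1 ∨ n % 6 = 2 ∨ n % 6 = 3 ∨ n % 6 = 4 ∨
      n % 6 = 5 := by omega
  · exact exists_of_component GD satD compD (n / 6 - 1) _ _ (by omega)
      (by rw [ncardD, h]; omega)
  · exact exists_of_component GS7 satS7 compS7 (n / 6 - 1) _ _ (by omega)
      (by rw [ncardS7, h]; omega)
  · exact exists_of_component GS8 satS8 compS8 (n / 6 - 1) _ _ (by omega)
      (by rw [ncardS8, h]; omega)
  · exact exists_of_component GS9 satS9 compS9 (n / 6 - 1) _ _ (by omega)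
      (by rw [ncardS9, h]; omega)
  · exact exists_of_component GK4 satK4 compK4 (n / 6) _ _ (by omega)
      (by rw [ncardK4, h]; omega)
  · exact exists_of_component GS11 satS11 compS11 (n / 6 - 1) _ _ (by omega)
      (by rw [ncardS11, h]; omega)

/-- The exceptional value `n = 9`. -/
theorem exists_saturated_nine :
    ∃ G : SimpleGraph (Fin 9), Saturated 5 G ∧ G.edgeSet.ncard = 11 :=
  ⟨GN9, (saturated_five_iff GN9).2 satN9, ncardN9⟩

/-- On at most four vertices the `5`-saturated graphs are the complete ones. -/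
theorem saturated_iff_top {n : ℕ} (hn : n ≤ 4) (G : SimpleGraph (Fin n)) :
    Saturated 5 G ↔ G = ⊤ := by
  have hno : ∀ G : SimpleGraph (Fin n), ¬ Has5 G := by
    rintro G ⟨a, b, c, d, e, hm⟩
    have := List.Nodup.length_le_card hm.nd
    rw [Fintype.card_fin] at this
    simp at this
    omega
  rw [saturated_five_iff]
  constructor
  · rintro ⟨-, h2⟩
    ext u v
    rw [SimpleGraph.top_adj]
    refine ⟨fun h => h.ne, fun huv => ?_⟩
    by_contra hn
    exact hno _ (h2 u v huv hn)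
  · rintro rfl
    exact ⟨hno _, fun u v huv hn => absurd (by simpa using huv) hn⟩

theorem ncard_top (n : ℕ) : (⊤ : SimpleGraph (Fin n)).edgeSet.ncard = n.choose 2 := by
  rw [← SimpleGraph.coe_edgeFinset, Set.ncard_coe_finset, SimpleGraph.card_edgeFinset_top_eq_card_choose_two,
    Fintype.card_fin]

theorem isLeast_small {n : ℕ} (hn : n ≤ 4) : IsLeast (satEdgeCounts n 5) (n.choose 2) := by
  constructor
  · exact ⟨⊤, (saturated_iff_top hn ⊤).2 rfl, ncard_top n⟩
  · rintro m ⟨G, hG, rfl⟩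
    rw [(saturated_iff_top hn G).1 hG, ncard_top n]

end DMP
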