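import Pool.Agent.DMP.Basic

/-! Degree monotone paths: component embeddings, disjoint sums, finite checks. -/

open scoped Classical

namespace DMP

/-- `φ` embeds `G` into `G'` as a union of components. -/
structure CompEmb {V W : Type*} (φ : V → W) (G : SimpleGraph V) (G' : SimpleGraph W) : Prop where
  inj : Function.Injective φ
  adj : ∀ x y, G'.Adj (φ x) (φ y) ↔ G.Adj x y
  closed : ∀ x w, G'.Adj (φ x) w → ∃ y, w = φ y

variable {V W : Type*} [Fintype V] [Fintype W]

theorem CompEmb.degree {φ : V → W} {G : SimpleGraph V} {G' : SimpleGraph W}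
    (h : CompEmb φ G G') (x : V) : G'.degree (φ x) = G.degree x := by
  rw [← SimpleGraph.card_neighborFinset_eq_degree, ← SimpleGraph.card_neighborFinset_eq_degree]
  have : G'.neighborFinset (φ x) = (G.neighborFinset x).image φ := by
    ext w
    simp only [SimpleGraph.mem_neighborFinset, Finset.mem_image]
    constructor
    · intro hw
      obtain ⟨y, rfl⟩ := h.closed x w hw
      exact ⟨y, (h.adj x y).1 hw, rfl⟩
    · rintro ⟨y, hy, rfl⟩
      exact (h.adj x y).2 hy
  rw [this, Finset.card_image_of_injective _ h.inj]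

omit [Fintype V] [Fintype W] in
theorem CompEmb.edge {φ : V → W} {G : SimpleGraph V} {G' : SimpleGraph W}
    (h : CompEmb φ G G') {u v : V} (huv : u ≠ v) :
    CompEmb φ (G ⊔ SimpleGraph.edge u v) (G' ⊔ SimpleGraph.edge (φ u) (φ v)) := by
  have huv' : φ u ≠ φ v := fun e => huv (h.inj e)
  refine ⟨h.inj, ?_, ?_⟩
  · intro x y
    rw [adj_sup_edge G huv, adj_sup_edge G' huv', h.adj, h.inj.eq_iff, h.inj.eq_iff, h.inj.eq_iff,
      h.inj.eq_iff]
  · intro x w hw
    rw [adj_sup_edge G' huv'] at hw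
    rcases hw with hw | ⟨-, hw⟩ | ⟨-, hw⟩
    · exact h.closed x w hw
    · exact ⟨v, hw⟩
    · exact ⟨u, hw⟩

theorem CompEmb.has5 {φ : V → W} {G : SimpleGraph V} {G' : SimpleGraph W}
    (h : CompEmb φ G G') (h5 : Has5 G) : Has5 G' := by
  obtain ⟨a, b, c, d, e, hm⟩ := h5
  refine ⟨φ a, φ b, φ c, φ d, φ e, ?_, (h.adj _ _).2 hm.ab, (h.adj _ _).2 hm.bc,
    (h.adj _ _).2 hm.cd, (h.adj _ _).2 hm.de, ?_, ?_, ?_, ?_⟩
  · have := hm.nd.map h.inj
    simpa using this
  · simpa only [h.degree] using hm.fab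
  · simpa only [h.degree] using hm.fbc
  · simpa only [h.degree] using hm.fcd
  · simpa only [h.degree] using hm.fde

/-- A monotone five-path of `G'` that starts in the image of `φ` comes from `G`. -/
theorem CompEmb.of_mem {φ : V → W} {G : SimpleGraph V} {G' : SimpleGraph W}
    (h : CompEmb φ G G') {a : V} {b c d e : W}
    (hm : M5 G' (fun x => G'.degree x) (φ a) b c d e) : Has5 G := by
  obtain ⟨b, rfl⟩ := h.closed a _ hm.ab
  obtain ⟨c, rfl⟩ := h.closed b _ hm.bc
  obtain ⟨d, rfl⟩ := h.closed c _ hm.cd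
  obtain ⟨e, rfl⟩ := h.closed d _ hm.de
  refine ⟨a, b, c, d, e, ?_, (h.adj _ _).1 hm.ab, (h.adj _ _).1 hm.bc,
    (h.adj _ _).1 hm.cd, (h.adj _ _).1 hm.de, ?_, ?_, ?_, ?_⟩
  · have := hm.nd
    have h2 : ([a, b, c, d, e].map φ).Nodup := by simpa using this
    exact List.Nodup.of_map _ h2
  · have := hm.fab; simpa only [h.degree] using this
  · have := hm.fbc; simpa only [h.degree] using this
  · have := hm.fcd; simpa only [h.degree] using this
  · have := hm.fde; simpa only [h.degree] using this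

/-- Disjoint sum of graphs. -/
def sumG {V W : Type*} (G : SimpleGraph V) (H : SimpleGraph W) : SimpleGraph (V ⊕ W) where
  Adj x y := match x, y with
    | Sum.inl a, Sum.inl b => G.Adj a b
    | Sum.inr a, Sum.inr b => H.Adj a b
    | _, _ => False
  symm := ⟨by
    rintro (a | a) (b | b) h
    · exact G.adj_symm h
    · exact h
    · exact h
    · exact H.adj_symm h⟩
  loopless := ⟨by
    rintro (a | a) h
    · exact G.irrefl h
    · exact H.irrefl h⟩

omit [Fintype V] [Fintype W] in
theorem compEmb_inl (G : SimpleGraph V) (H : SimpleGraph W) :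
    CompEmb (Sum.inl : V → V ⊕ W) G (sumG G H) := by
  refine ⟨Sum.inl_injective, fun x y => Iff.rfl, ?_⟩
  rintro x (w | w) h
  · exact ⟨w, rfl⟩
  · exact absurd h (by intro h; exact h)

omit [Fintype V] [Fintype W] in
theorem compEmb_inr (G : SimpleGraph V) (H : SimpleGraph W) :
    CompEmb (Sum.inr : W → V ⊕ W) H (sumG G H) := by
  refine ⟨Sum.inr_injective, fun x y => Iff.rfl, ?_⟩
  rintro x (w | w) h
  · exact absurd h (by intro h; exact h)
  · exact ⟨w, rfl⟩

omit [Fintype V] [Fintype W] in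
theorem compEmb_map {V' : Type*} {φ : V → V'} {G : SimpleGraph V} {G' : SimpleGraph V'}
    (h : CompEmb φ G G') (H : SimpleGraph W) :
    CompEmb (Sum.map φ id : V ⊕ W → V' ⊕ W) (sumG G H) (sumG G' H) := by
  refine ⟨Sum.map_injective.2 ⟨h.inj, Function.injective_id⟩, ?_, ?_⟩
  · rintro (x | x) (y | y)
    · exact h.adj x y
    · exact Iff.rfl
    · exact Iff.rfl
    · exact Iff.rfl
  · rintro (x | x) (w | w) hw
    · obtain ⟨y, rfl⟩ := h.closed x w hw
      exact ⟨Sum.inl y, rfl⟩
    · exact absurd hw (by intro h; exact h)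
    · exact absurd hw (by intro h; exact h)
    · exact ⟨Sum.inr w, rfl⟩

/-- Saturation stated with five-paths. -/
def Sat5 (G : SimpleGraph V) : Prop :=
  ¬ Has5 G ∧ ∀ u v : V, u ≠ v → ¬ G.Adj u v → Has5 (G ⊔ SimpleGraph.edge u v)

/-- `G` is compatible with the component type `D`. -/
def Comp (G : SimpleGraph V) (D : SimpleGraph W) : Prop :=
  ∀ (v : V) (w : W), Has5 (sumG G D ⊔ SimpleGraph.edge (Sum.inl v) (Sum.inr w))

theorem sat5_sum {G : SimpleGraph V} {D : SimpleGraph W} (hG : Sat5 G) (hD : Sat5 D)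
    (hGD : Comp G D) : Sat5 (sumG G D) := by
  refine ⟨?_, ?_⟩
  · rintro ⟨a, b, c, d, e, hm⟩
    rcases a with a | a
    · exact hG.1 ((compEmb_inl G D).of_mem hm)
    · exact hD.1 ((compEmb_inr G D).of_mem hm)
  · rintro (u | u) (v | v) huv hn
    · have huv' : u ≠ v := fun e => huv (by rw [e])
      exact ((compEmb_inl G D).edge huv').has5 (hG.2 u v huv' hn)
    · exact hGD u v
    · rw [SimpleGraph.edge_comm]
      exact hGD v u
    · have huv' : u ≠ v := fun e => huv (by rw [e])
      exact ((compEmb_inr G D).edge huv').has5 (hD.2 u v huv' hn)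

theorem comp_sum {G : SimpleGraph V} {D : SimpleGraph W}
    (hGD : Comp G D) (hDD : Comp D D) : Comp (sumG G D) D := by
  rintro (v | v) w
  · have h := (compEmb_map (compEmb_inl G D) D).edge
      (u := Sum.inl v) (v := Sum.inr w) (by simp)
    exact h.has5 (hGD v w)
  · have h := (compEmb_map (compEmb_inr G D) D).edge
      (u := Sum.inl v) (v := Sum.inr w) (by simp)
    exact h.has5 (hDD v w)

theorem ncard_edgeSet_eq (G : SimpleGraph V) : 2 * G.edgeSet.ncard = ∑ v, G.degree v := by
  rw [SimpleGraph.sum_degrees_eq_twice_card_edges, ← SimpleGraph.coe_edgeFinset,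
    Set.ncard_coe_finset]

theorem ncard_sum (G : SimpleGraph V) (D : SimpleGraph W) :
    (sumG G D).edgeSet.ncard = G.edgeSet.ncard + D.edgeSet.ncard := by
  have h1 := ncard_edgeSet_eq (sumG G D)
  rw [Fintype.sum_sum_type] at h1
  simp only [(compEmb_inl G D).degree, (compEmb_inr G D).degree, ← ncard_edgeSet_eq] at h1
  omega

/-- Transport to `Fin n`. -/
theorem exists_fin_of_sat5 {G : SimpleGraph V} (hG : Sat5 G) {n : ℕ} (hn : Fintype.card V = n) :
    ∃ G' : SimpleGraph (Fin n), Saturated 5 G' ∧ G'.edgeSet.ncard = G.edgeSet.ncard := by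
  let e : V ≃ Fin n := Fintype.equivFinOfCardEq hn
  obtain ⟨G', hc⟩ : ∃ G' : SimpleGraph (Fin n), CompEmb e G G' := by
    refine ⟨G.comap e.symm, e.injective, fun x y => ?_, fun x w _ => ⟨e.symm w, by simp⟩⟩
    simp [SimpleGraph.comap_adj]
  refine ⟨G', ?_, ?_⟩
  · rw [saturated_five_iff]
    refine ⟨?_, ?_⟩
    · rintro ⟨a, b, c, d, e', hm⟩
      obtain ⟨a, rfl⟩ := e.surjective a
      exact hG.1 (hc.of_mem hm)
    · intro u v huv hn
      obtain ⟨u, rfl⟩ := e.surjective u
      obtain ⟨v, rfl⟩ := e.surjective v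
      have huv' : u ≠ v := fun h => huv (by rw [h])
      exact (hc.edge huv').has5 (hG.2 u v huv' (fun h => hn ((hc.adj u v).2 h)))
  · have h1 := ncard_edgeSet_eq G'
    have h2 := ncard_edgeSet_eq G
    have h3 : ∑ v, G'.degree v = ∑ v, G.degree v := by
      rw [← e.sum_comp]
      simp only [hc.degree]
    omega

end DMP
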