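import Pool.Agent.DMP.UpperBasic

/-! Degree monotone paths: Boolean checks on explicit graphs. -/

namespace DMP

/-- A Boolean presentation of a graph: adjacency and degrees. -/
structure FG (V : Type) where
  adj : V → V → Bool
  dg : V → ℕ

variable {V W : Type} [DecidableEq V] [DecidableEq W]

def FG.plus (F : FG V) (u v : V) : FG V where
  adj x y := F.adj x y || (decide (x = u) && decide (y = v)) || (decide (x = v) && decide (y = u))
  dg x := F.dg x + bif (decide (x = u) || decide (x = v)) then 1 else 0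

/-- One step of a monotone path. -/
def FG.step (F : FG V) (x y : V) : Bool := F.adj x y && Nat.ble (F.dg x) (F.dg y)

def FG.path (F : FG V) (a b c d e : V) : Bool :=
  F.step a b && F.step b c && F.step c d && F.step d e &&
    !(decide (c = a)) && !(decide (d = a)) && !(decide (d = b)) && !(decide (e = a)) &&
    !(decide (e = b)) && !(decide (e = c))

/-- Search for a monotone five-path. -/
def FG.find (F : FG V) (vs : List V) : Bool :=
  vs.any fun a => vs.any fun b => F.step a b && vs.any fun c => F.step b c && !(decide (c = a)) &&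
    vs.any fun d => F.step c d && !(decide (d = a)) && !(decide (d = b)) &&
      vs.any fun e => F.step d e && !(decide (e = a)) && !(decide (e = b)) && !(decide (e = c))

def FG.sum (F : FG V) (F' : FG W) : FG (V ⊕ W) where
  adj x y := match x, y with
    | Sum.inl a, Sum.inl b => F.adj a b
    | Sum.inr a, Sum.inr b => F'.adj a b
    | _, _ => false
  dg x := match x with
    | Sum.inl a => F.dg a
    | Sum.inr a => F'.dg a

section
open scoped Classical

/-- `F` presents `G`. -/
def Rep [Fintype V] (F : FG V) (G : SimpleGraph V) : Prop :=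
  (∀ x y, G.Adj x y ↔ F.adj x y = true) ∧ ∀ x, G.degree x = F.dg x

theorem Rep.plus [Fintype V] {F : FG V} {G : SimpleGraph V} (h : Rep F G) {u v : V} (huv : u ≠ v)
    (hn : ¬ G.Adj u v) : Rep (F.plus u v) (G ⊔ SimpleGraph.edge u v) := by
  refine ⟨fun x y => ?_, fun x => ?_⟩
  · rw [adj_sup_edge G huv]
    simp only [FG.plus, Bool.or_eq_true, Bool.and_eq_true, decide_eq_true_eq, h.1, or_assoc]
  · refine Eq.trans (b := G.degree x + if x = u ∨ x = v then 1 else 0) ?_ ?_
    · refine (degree_inst _ x _ _).trans ((degree_sup_edge G huv hn x).trans ?_)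
      by_cases h1 : x = u ∨ x = v
      · rw [if_pos h1, if_pos h1]
      · rw [if_neg h1, if_neg h1]
    rw [h.2]
    simp only [FG.plus]
    by_cases h1 : x = u <;> by_cases h2 : x = v <;> simp [h1, h2]

theorem Rep.path_iff [Fintype V] {F : FG V} {G : SimpleGraph V} (h : Rep F G) (a b c d e : V) :
    M5 G (fun x => G.degree x) a b c d e ↔ F.path a b c d e = true := by
  constructor
  · rintro ⟨nd, ab, bc, cd, de, fab, fbc, fcd, fde⟩
    simp only [h.2] at fab fbc fcd fde
    simp only [List.nodup_cons, List.mem_cons, List.not_mem_nil, or_false, not_or] at nd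
    simp only [FG.path, FG.step, Bool.and_eq_true, Bool.not_eq_true', decide_eq_false_iff_not,
      Nat.ble_eq, ← h.1]
    tauto
  · intro hp
    simp only [FG.path, FG.step, Bool.and_eq_true, Bool.not_eq_true', decide_eq_false_iff_not,
      Nat.ble_eq, ← h.1, ← h.2] at hp
    obtain ⟨⟨⟨⟨⟨⟨⟨⟨⟨⟨ab, fab⟩, bc, fbc⟩, cd, fcd⟩, de, fde⟩, ca⟩, da⟩, db⟩, ea⟩, eb⟩, ec⟩ := hp
    refine ⟨?_, ab, bc, cd, de, fab, fbc, fcd, fde⟩
    have h1 := ab.ne
    have h2 := bc.ne
    have h3 := cd.ne
    have h4 := de.ne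
    simp only [List.nodup_cons, List.mem_cons, List.not_mem_nil, or_false, not_or,
      not_false_eq_true, List.nodup_nil, and_true]
    exact ⟨⟨h1, fun h => ca h.symm, fun h => da h.symm, fun h => ea h.symm⟩,
      ⟨h2, fun h => db h.symm, fun h => eb h.symm⟩, ⟨h3, fun h => ec h.symm⟩, h4⟩

theorem Rep.has5 [Fintype V] {F : FG V} {G : SimpleGraph V} (h : Rep F G) {a b c d e : V}
    (hp : F.path a b c d e = true) : Has5 G := ⟨a, b, c, d, e, (h.path_iff a b c d e).2 hp⟩

omit [DecidableEq V] in
theorem any_eq_true {vs : List V} {p : V → Bool} {a : V} (ha : a ∈ vs) (hp : p a = true) :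
    vs.any p = true := List.any_eq_true.2 ⟨a, ha, hp⟩

theorem Rep.find_iff [Fintype V] {F : FG V} {G : SimpleGraph V} (h : Rep F G) {vs : List V}
    (hvs : ∀ x, x ∈ vs) : Has5 G ↔ F.find vs = true := by
  constructor
  · rintro ⟨a, b, c, d, e, hm⟩
    have hp := (h.path_iff a b c d e).1 hm
    simp only [FG.path, Bool.and_eq_true, Bool.not_eq_true', decide_eq_false_iff_not] at hp
    refine any_eq_true (hvs a) (any_eq_true (hvs b) ?_)
    simp only [Bool.and_eq_true]
    refine ⟨by tauto, any_eq_true (hvs c) ?_⟩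
    simp only [Bool.and_eq_true, Bool.not_eq_true', decide_eq_false_iff_not]
    refine ⟨by tauto, any_eq_true (hvs d) ?_⟩
    simp only [Bool.and_eq_true, Bool.not_eq_true', decide_eq_false_iff_not]
    refine ⟨by tauto, any_eq_true (hvs e) ?_⟩
    simp only [Bool.and_eq_true, Bool.not_eq_true', decide_eq_false_iff_not]
    tauto
  · intro hf
    simp only [FG.find, List.any_eq_true, Bool.and_eq_true, Bool.not_eq_true',
      decide_eq_false_iff_not] at hf
    obtain ⟨a, -, b, -, h1, c, -, h2, d, -, h3, e, -, h4⟩ := hf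
    refine h.has5 (a := a) (b := b) (c := c) (d := d) (e := e) ?_
    simp only [FG.path, Bool.and_eq_true, Bool.not_eq_true', decide_eq_false_iff_not]
    tauto

omit [DecidableEq V] [DecidableEq W] in
theorem Rep.sum [Fintype V] [Fintype W] {F : FG V} {G : SimpleGraph V} {F' : FG W}
    {G' : SimpleGraph W} (h : Rep F G) (h' : Rep F' G') : Rep (F.sum F') (sumG G G') := by
  refine ⟨?_, ?_⟩
  · rintro (x | x) (y | y)
    · exact h.1 x y
    · simp [FG.sum, sumG]
    · simp [FG.sum, sumG]
    · exact h'.1 x y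
  · rintro (x | x)
    · rw [(compEmb_inl G G').degree]
      exact h.2 x
    · rw [(compEmb_inr G G').degree]
      exact h'.2 x

end

/-- The graph presented by `F`. -/
def FG.graph (F : FG V) (hs : ∀ x y, F.adj x y = true → F.adj y x = true)
    (hl : ∀ x, F.adj x x = false) : SimpleGraph V where
  Adj x y := F.adj x y = true
  symm := ⟨fun x y h => hs x y h⟩
  loopless := ⟨fun x h => by rw [hl x] at h; exact absurd h (by decide)⟩

omit [DecidableEq V] in
theorem FG.rep [Fintype V] (F : FG V) (hs : ∀ x y, F.adj x y = true → F.adj y x = true)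
    (hl : ∀ x, F.adj x x = false)
    (hd : ∀ x, (Finset.univ.filter (fun y => F.adj x y = true)).card = F.dg x) :
    Rep F (F.graph hs hl) := by
  refine ⟨fun x y => Iff.rfl, fun x => ?_⟩
  rw [← hd x, ← SimpleGraph.card_neighborFinset_eq_degree]
  congr 1
  ext y
  simp only [SimpleGraph.mem_neighborFinset, Finset.mem_filter, Finset.mem_univ, true_and]
  exact Iff.rfl

/-- The graph on `Fin n` with the edge list `L`. -/
def FG.ofList (n : ℕ) (L : List (ℕ × ℕ)) : FG (Fin n) where
  adj x y := L.any fun p => (Nat.beq p.1 x.1 && Nat.beq p.2 y.1) || (Nat.beq p.1 y.1 && Nat.beq p.2 x.1)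
  dg x := L.countP fun p => Nat.beq p.1 x.1 || Nat.beq p.2 x.1

theorem FG.ofList_symm (n : ℕ) (L : List (ℕ × ℕ)) (x y : Fin n)
    (h : (FG.ofList n L).adj x y = true) : (FG.ofList n L).adj y x = true := by
  simp only [FG.ofList, List.any_eq_true, Bool.or_eq_true] at h ⊢
  obtain ⟨p, hp, h⟩ := h
  exact ⟨p, hp, h.symm⟩

/-- Decoding of a vertex of a sum. -/
def dec (s t : ℕ) [NeZero s] [NeZero t] (k : ℕ) : Fin s ⊕ Fin t :=
  if k < s then Sum.inl (Fin.ofNat s k) else Sum.inr (Fin.ofNat t (k - s))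

/-- Check of the saturation of an explicit graph with a witness for each pair. -/
def chkA (n : ℕ) [NeZero n] (F : FG (Fin n)) (wit : List (ℕ × ℕ × ℕ × ℕ × ℕ × ℕ × ℕ)) : Bool :=
  (List.finRange n).all fun u => (List.finRange n).all fun v =>
    Nat.ble v.1 u.1 || F.adj u v || wit.any fun t => Nat.beq t.1 u.1 && Nat.beq t.2.1 v.1 &&
      (F.plus u v).path (Fin.ofNat n t.2.2.1) (Fin.ofNat n t.2.2.2.1) (Fin.ofNat n t.2.2.2.2.1)
        (Fin.ofNat n t.2.2.2.2.2.1) (Fin.ofNat n t.2.2.2.2.2.2)

def chkB (s t : ℕ) [NeZero s] [NeZero t] (F : FG (Fin s)) (F' : FG (Fin t))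
    (wit : List (ℕ × ℕ × ℕ × ℕ × ℕ × ℕ × ℕ)) : Bool :=
  (List.finRange s).all fun u => (List.finRange t).all fun v =>
    wit.any fun q => Nat.beq q.1 u.1 && Nat.beq q.2.1 (v.1 + s) &&
      ((F.sum F').plus (Sum.inl u) (Sum.inr v)).path (dec s t q.2.2.1) (dec s t q.2.2.2.1)
        (dec s t q.2.2.2.2.1) (dec s t q.2.2.2.2.2.1) (dec s t q.2.2.2.2.2.2)

theorem sat5_of_chk {n : ℕ} [NeZero n] {F : FG (Fin n)} {G : SimpleGraph (Fin n)} (h : Rep F G)
    {wit : List (ℕ × ℕ × ℕ × ℕ × ℕ × ℕ × ℕ)} (h1 : F.find (List.finRange n) = false)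
    (h2 : chkA n F wit = true) : Sat5 G := by
  refine ⟨fun h5 => ?_, ?_⟩
  · rw [h.find_iff (fun x => List.mem_finRange x), h1] at h5
    exact absurd h5 (by decide)
  · have key : ∀ u v : Fin n, u < v → ¬ G.Adj u v → Has5 (G ⊔ SimpleGraph.edge u v) := by
      intro u v huv hn
      simp only [chkA, List.all_eq_true, Bool.or_eq_true] at h2
      rcases h2 u (List.mem_finRange u) v (List.mem_finRange v) with (h3 | h3) | h3
      · have := Nat.le_of_ble_eq_true h3
        have := Fin.lt_def.1 huv
        omega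
      · exact absurd ((h.1 u v).2 h3) hn
      · rw [List.any_eq_true] at h3
        obtain ⟨t, -, h4⟩ := h3
        rw [Bool.and_eq_true] at h4
        exact (h.plus huv.ne hn).has5 h4.2
    intro u v huv hn
    rcases lt_or_gt_of_ne huv with hlt | hgt
    · exact key u v hlt hn
    · rw [SimpleGraph.edge_comm]
      exact key v u hgt (fun h => hn h.symm)

theorem comp_of_chk {s t : ℕ} [NeZero s] [NeZero t] {F : FG (Fin s)} {G : SimpleGraph (Fin s)}
    {F' : FG (Fin t)} {G' : SimpleGraph (Fin t)} (h : Rep F G) (h' : Rep F' G')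
    {wit : List (ℕ × ℕ × ℕ × ℕ × ℕ × ℕ × ℕ)} (h2 : chkB s t F F' wit = true) : Comp G G' := by
  intro u v
  simp only [chkB, List.all_eq_true] at h2
  have h3 := h2 u (List.mem_finRange u) v (List.mem_finRange v)
  rw [List.any_eq_true] at h3
  obtain ⟨q, -, h4⟩ := h3
  rw [Bool.and_eq_true] at h4
  have hn : ¬ (sumG G G').Adj (Sum.inl u) (Sum.inr v) := fun h => h
  exact ((h.sum h').plus (by simp) hn).has5 h4.2

end DMP
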