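import Pool.Agent.DMP.UpperCheck

/-! Degree monotone paths: the explicit components of the upper bound. -/

namespace DMP

set_option maxRecDepth 100000

/-- Edge list of `D`. -/
def LD : List (ℕ × ℕ) :=
    [(0, 1), (1, 2), (3, 4), (4, 5), (0, 3), (1, 4), (2, 5)]

def FD : FG (Fin 6) := FG.ofList 6 LD

theorem FD_irr : ∀ x, FD.adj x x = false := by decide +kernel

theorem FD_dg : ∀ x, (Finset.univ.filter (fun y => FD.adj x y = true)).card = FD.dg x := by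
  decide +kernel

def GD : SimpleGraph (Fin 6) := FD.graph (FG.ofList_symm 6 LD) FD_irr

theorem repD : Rep FD GD := FG.rep FD _ _ FD_dg

def WAD : List (ℕ × ℕ × ℕ × ℕ × ℕ × ℕ × ℕ) :=
    [(0, 2, 3, 0, 2, 1, 4), (0, 4, 5, 2, 1, 0, 4), (0, 5, 2, 1, 0, 5, 4), (1, 3, 2, 5, 4, 3, 1),
    (1, 5, 0, 3, 4, 5, 1), (2, 3, 0, 1, 2, 3, 4), (2, 4, 3, 0, 1, 2, 4), (3, 5, 0, 1, 4, 3, 5)]

theorem findD : FD.find (List.finRange 6) = false := by decide +kernel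

theorem chkAD : chkA 6 FD WAD = true := by decide +kernel

theorem satD : Sat5 GD := sat5_of_chk repD findD chkAD

theorem sumD : (∑ x, FD.dg x) = 14 := by decide +kernel

theorem ncardD : GD.edgeSet.ncard = 7 := by
  have h := ncard_edgeSet_eq GD
  have h2 : ∑ x, FD.dg x = 14 := sumD
  simp only [repD.2] at h
  omega

def WBD : List (ℕ × ℕ × ℕ × ℕ × ℕ × ℕ × ℕ) :=
    [(0, 6, 1, 0, 6, 7, 10), (0, 7, 2, 5, 4, 1, 0), (0, 8, 1, 0, 8, 7, 10), (0, 9, 1, 0, 9, 10,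
    7), (0, 10, 2, 5, 4, 1, 0), (0, 11, 1, 0, 11, 10, 7), (1, 6, 8, 11, 10, 7, 6), (1, 7, 0, 3,
    4, 1, 7), (1, 8, 6, 9, 10, 7, 8), (1, 9, 6, 7, 10, 9, 1), (1, 10, 0, 3, 4, 1, 10), (1, 11,
    6, 9, 10, 11, 1), (2, 6, 0, 1, 2, 6, 7), (2, 7, 0, 3, 4, 1, 2), (2, 8, 0, 1, 2, 8, 7), (2,
    9, 0, 1, 2, 9, 10), (2, 10, 0, 3, 4, 1, 2), (2, 11, 0, 1, 2, 11, 10), (3, 6, 0, 1, 4, 3, 6),
    (3, 7, 0, 1, 4, 3, 7), (3, 8, 0, 1, 4, 3, 8), (3, 9, 0, 1, 4, 3, 9), (3, 10, 0, 1, 4, 3,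
    10), (3, 11, 0, 1, 4, 3, 11), (4, 6, 8, 11, 10, 7, 6), (4, 7, 3, 0, 1, 4, 7), (4, 8, 6, 9,
    10, 7, 8), (4, 9, 6, 7, 10, 9, 4), (4, 10, 3, 0, 1, 4, 10), (4, 11, 6, 9, 10, 11, 4), (5, 6,
    0, 1, 4, 5, 6), (5, 7, 0, 1, 4, 5, 7), (5, 8, 0, 1, 4, 5, 8), (5, 9, 0, 1, 4, 5, 9), (5, 10,
    0, 1, 4, 5, 10), (5, 11, 0, 1, 4, 5, 11)]

theorem chkBD : chkB 6 6 FD FD WBD = true := by decide +kernel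

theorem compD : Comp GD GD := comp_of_chk repD repD chkBD

/-- Edge list of `S7`. -/
def LS7 : List (ℕ × ℕ) :=
    [(0, 4), (0, 6), (1, 3), (1, 6), (2, 5), (2, 6), (3, 4), (3, 5), (4, 5)]

def FS7 : FG (Fin 7) := FG.ofList 7 LS7

theorem FS7_irr : ∀ x, FS7.adj x x = false := by decide +kernel

theorem FS7_dg : ∀ x, (Finset.univ.filter (fun y => FS7.adj x y = true)).card = FS7.dg x := by
  decide +kernel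

def GS7 : SimpleGraph (Fin 7) := FS7.graph (FG.ofList_symm 7 LS7) FS7_irr

theorem repS7 : Rep FS7 GS7 := FG.rep FS7 _ _ FS7_dg

def WAS7 : List (ℕ × ℕ × ℕ × ℕ × ℕ × ℕ × ℕ) :=
    [(0, 1, 0, 1, 3, 4, 5), (0, 2, 0, 2, 5, 3, 4), (0, 3, 1, 6, 0, 4, 3), (0, 5, 1, 3, 4, 0, 5),
    (1, 2, 0, 4, 3, 1, 2), (1, 4, 0, 6, 1, 3, 4), (1, 5, 0, 4, 3, 1, 5), (2, 3, 0, 4, 5, 2, 3),
    (2, 4, 0, 6, 2, 5, 3), (3, 6, 0, 4, 5, 3, 6), (4, 6, 1, 3, 5, 4, 6), (5, 6, 0, 4, 3, 5, 6)]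

theorem findS7 : FS7.find (List.finRange 7) = false := by decide +kernel

theorem chkAS7 : chkA 7 FS7 WAS7 = true := by decide +kernel

theorem satS7 : Sat5 GS7 := sat5_of_chk repS7 findS7 chkAS7

theorem sumS7 : (∑ x, FS7.dg x) = 18 := by decide +kernel

theorem ncardS7 : GS7.edgeSet.ncard = 9 := by
  have h := ncard_edgeSet_eq GS7
  have h2 : ∑ x, FS7.dg x = 18 := sumS7
  simp only [repS7.2] at h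
  omega

def WBS7 : List (ℕ × ℕ × ℕ × ℕ × ℕ × ℕ × ℕ) :=
    [(0, 7, 1, 3, 4, 0, 6), (0, 8, 1, 3, 4, 0, 8), (0, 9, 1, 3, 4, 0, 9), (0, 10, 1, 3, 4, 0,
    10), (0, 11, 1, 3, 4, 0, 11), (0, 12, 1, 3, 4, 0, 12), (1, 7, 0, 4, 3, 1, 6), (1, 8, 0, 4,
    3, 1, 8), (1, 9, 0, 4, 3, 1, 9), (1, 10, 0, 4, 3, 1, 10), (1, 11, 0, 4, 3, 1, 11), (1, 12,
    0, 4, 3, 1, 12), (2, 7, 0, 4, 3, 5, 2), (2, 8, 0, 4, 3, 5, 2), (2, 9, 0, 4, 3, 5, 2), (2,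
    10, 0, 4, 3, 5, 2), (2, 11, 0, 4, 3, 5, 2), (2, 12, 0, 4, 3, 5, 2), (3, 7, 9, 12, 11, 8, 7),
    (3, 8, 0, 4, 5, 3, 8), (3, 9, 7, 10, 11, 8, 9), (3, 10, 7, 8, 11, 10, 3), (3, 11, 0, 4, 5,
    3, 11), (3, 12, 7, 8, 11, 12, 3), (4, 7, 9, 12, 11, 8, 7), (4, 8, 1, 3, 5, 4, 8), (4, 9, 7,
    10, 11, 8, 9), (4, 10, 7, 8, 11, 10, 4), (4, 11, 1, 3, 5, 4, 11), (4, 12, 7, 8, 11, 12, 4),
    (5, 7, 9, 12, 11, 8, 7), (5, 8, 0, 4, 3, 5, 8), (5, 9, 7, 10, 11, 8, 9), (5, 10, 7, 8, 11,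
    10, 5), (5, 11, 0, 4, 3, 5, 11), (5, 12, 7, 8, 11, 12, 5), (6, 7, 9, 12, 11, 8, 7), (6, 8,
    7, 10, 11, 8, 6), (6, 9, 7, 10, 11, 8, 9), (6, 10, 7, 8, 11, 10, 6), (6, 11, 10, 7, 8, 11,
    6), (6, 12, 7, 8, 11, 12, 6)]

theorem chkBS7 : chkB 7 6 FS7 FD WBS7 = true := by decide +kernel

theorem compS7 : Comp GS7 GD := comp_of_chk repS7 repD chkBS7

/-- Edge list of `S8`. -/
def LS8 : List (ℕ × ℕ) :=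
    [(0, 2), (0, 6), (0, 7), (1, 3), (1, 5), (2, 3), (2, 4), (2, 5), (3, 4), (4, 7), (5, 6)]

def FS8 : FG (Fin 8) := FG.ofList 8 LS8

theorem FS8_irr : ∀ x, FS8.adj x x = false := by decide +kernel

theorem FS8_dg : ∀ x, (Finset.univ.filter (fun y => FS8.adj x y = true)).card = FS8.dg x := by
  decide +kernel

def GS8 : SimpleGraph (Fin 8) := FS8.graph (FG.ofList_symm 8 LS8) FS8_irr

theorem repS8 : Rep FS8 GS8 := FG.rep FS8 _ _ FS8_dg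

def WAS8 : List (ℕ × ℕ × ℕ × ℕ × ℕ × ℕ × ℕ) :=
    [(0, 1, 1, 3, 4, 2, 0), (0, 3, 1, 5, 2, 0, 3), (0, 4, 1, 3, 2, 0, 4), (0, 5, 1, 3, 2, 0, 5),
    (1, 2, 4, 3, 1, 5, 2), (1, 4, 3, 1, 5, 2, 4), (1, 6, 0, 6, 1, 3, 2), (1, 7, 0, 7, 1, 3, 2),
    (2, 6, 1, 5, 6, 0, 2), (2, 7, 0, 7, 4, 3, 2), (3, 5, 6, 0, 2, 3, 5), (3, 6, 0, 6, 5, 2, 3),
    (3, 7, 0, 7, 4, 2, 3), (4, 5, 1, 3, 2, 4, 5), (4, 6, 0, 6, 5, 2, 4), (5, 7, 0, 7, 4, 2, 5),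
    (6, 7, 0, 6, 7, 4, 2)]

theorem findS8 : FS8.find (List.finRange 8) = false := by decide +kernel

theorem chkAS8 : chkA 8 FS8 WAS8 = true := by decide +kernel

theorem satS8 : Sat5 GS8 := sat5_of_chk repS8 findS8 chkAS8

theorem sumS8 : (∑ x, FS8.dg x) = 22 := by decide +kernel

theorem ncardS8 : GS8.edgeSet.ncard = 11 := by
  have h := ncard_edgeSet_eq GS8
  have h2 : ∑ x, FS8.dg x = 22 := sumS8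
  simp only [repS8.2] at h
  omega

def WBS8 : List (ℕ × ℕ × ℕ × ℕ × ℕ × ℕ × ℕ) :=
    [(0, 8, 1, 3, 4, 2, 0), (0, 9, 1, 3, 2, 0, 9), (0, 10, 1, 3, 4, 2, 0), (0, 11, 1, 3, 4, 2,
    0), (0, 12, 1, 3, 2, 0, 12), (0, 13, 1, 3, 4, 2, 0), (1, 8, 3, 1, 8, 9, 12), (1, 9, 4, 3, 1,
    5, 2), (1, 10, 3, 1, 10, 9, 12), (1, 11, 3, 1, 11, 12, 9), (1, 12, 4, 3, 1, 5, 2), (1, 13,
    3, 1, 13, 12, 9), (2, 8, 10, 13, 12, 9, 8), (2, 9, 8, 11, 12, 9, 2), (2, 10, 8, 11, 12, 9,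
    10), (2, 11, 8, 9, 12, 11, 2), (2, 12, 11, 8, 9, 12, 2), (2, 13, 8, 9, 12, 13, 2), (3, 8,
    10, 9, 8, 3, 2), (3, 9, 1, 5, 2, 3, 9), (3, 10, 8, 9, 10, 3, 2), (3, 11, 8, 9, 12, 11, 3),
    (3, 12, 1, 5, 2, 3, 12), (3, 13, 8, 9, 12, 13, 3), (4, 8, 10, 9, 8, 4, 2), (4, 9, 1, 3, 2,
    4, 9), (4, 10, 8, 9, 10, 4, 2), (4, 11, 8, 9, 12, 11, 4), (4, 12, 1, 3, 2, 4, 12), (4, 13,
    8, 9, 12, 13, 4), (5, 8, 1, 3, 4, 2, 5), (5, 9, 1, 3, 2, 5, 9), (5, 10, 1, 3, 4, 2, 5), (5,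
    11, 1, 3, 4, 2, 5), (5, 12, 1, 3, 2, 5, 12), (5, 13, 1, 3, 4, 2, 5), (6, 8, 0, 6, 8, 9, 12),
    (6, 9, 1, 5, 6, 0, 2), (6, 10, 0, 6, 10, 9, 12), (6, 11, 0, 6, 11, 12, 9), (6, 12, 1, 5, 6,
    0, 2), (6, 13, 0, 6, 13, 12, 9), (7, 8, 0, 7, 8, 9, 12), (7, 9, 0, 7, 4, 3, 2), (7, 10, 0,
    7, 10, 9, 12), (7, 11, 0, 7, 11, 12, 9), (7, 12, 0, 7, 4, 3, 2), (7, 13, 0, 7, 4, 3, 2)]

theorem chkBS8 : chkB 8 6 FS8 FD WBS8 = true := by decide +kernel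

theorem compS8 : Comp GS8 GD := comp_of_chk repS8 repD chkBS8

/-- Edge list of `S9`. -/
def LS9 : List (ℕ × ℕ) :=
    [(0, 3), (0, 4), (0, 7), (1, 6), (1, 8), (2, 4), (2, 5), (2, 7), (3, 8), (5, 6), (6, 7), (7,
    8)]

def FS9 : FG (Fin 9) := FG.ofList 9 LS9

theorem FS9_irr : ∀ x, FS9.adj x x = false := by decide +kernel

theorem FS9_dg : ∀ x, (Finset.univ.filter (fun y => FS9.adj x y = true)).card = FS9.dg x := by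
  decide +kernel

def GS9 : SimpleGraph (Fin 9) := FS9.graph (FG.ofList_symm 9 LS9) FS9_irr

theorem repS9 : Rep FS9 GS9 := FG.rep FS9 _ _ FS9_dg

def WAS9 : List (ℕ × ℕ × ℕ × ℕ × ℕ × ℕ × ℕ) :=
    [(0, 1, 3, 8, 1, 0, 7), (0, 2, 1, 8, 7, 0, 2), (0, 5, 1, 6, 5, 0, 7), (0, 6, 1, 8, 7, 0, 6),
    (0, 8, 1, 6, 7, 0, 8), (1, 2, 3, 8, 1, 2, 7), (1, 3, 0, 3, 8, 1, 6), (1, 4, 0, 4, 1, 8, 7),
    (1, 5, 1, 6, 5, 2, 7), (1, 7, 3, 8, 1, 6, 7), (2, 3, 0, 3, 8, 7, 2), (2, 6, 1, 8, 7, 2, 6),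
    (2, 8, 1, 6, 7, 8, 2), (3, 4, 0, 3, 4, 2, 7), (3, 5, 0, 3, 5, 2, 7), (3, 6, 0, 3, 8, 7, 6),
    (3, 7, 1, 8, 3, 0, 7), (4, 5, 0, 4, 2, 5, 6), (4, 6, 0, 4, 2, 7, 6), (4, 7, 3, 0, 4, 2, 7),
    (4, 8, 0, 4, 2, 7, 8), (5, 7, 1, 6, 5, 2, 7), (5, 8, 1, 6, 5, 8, 7), (6, 8, 3, 0, 7, 8, 6)]

theorem findS9 : FS9.find (List.finRange 9) = false := by decide +kernel

theorem chkAS9 : chkA 9 FS9 WAS9 = true := by decide +kernel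

theorem satS9 : Sat5 GS9 := sat5_of_chk repS9 findS9 chkAS9

theorem sumS9 : (∑ x, FS9.dg x) = 24 := by decide +kernel

theorem ncardS9 : GS9.edgeSet.ncard = 12 := by
  have h := ncard_edgeSet_eq GS9
  have h2 : ∑ x, FS9.dg x = 24 := sumS9
  simp only [repS9.2] at h
  omega

def WBS9 : List (ℕ × ℕ × ℕ × ℕ × ℕ × ℕ × ℕ) :=
    [(0, 9, 11, 10, 9, 0, 7), (0, 10, 1, 8, 7, 0, 10), (0, 11, 9, 10, 11, 0, 7), (0, 12, 9, 10,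
    13, 12, 0), (0, 13, 1, 8, 7, 0, 13), (0, 14, 9, 10, 13, 14, 0), (1, 9, 3, 8, 1, 9, 10), (1,
    10, 3, 8, 1, 6, 7), (1, 11, 3, 8, 1, 11, 10), (1, 12, 3, 8, 1, 12, 13), (1, 13, 3, 8, 1, 6,
    7), (1, 14, 3, 8, 1, 6, 7), (2, 9, 11, 10, 9, 2, 7), (2, 10, 1, 8, 7, 2, 10), (2, 11, 9, 10,
    11, 2, 7), (2, 12, 9, 10, 13, 12, 2), (2, 13, 1, 8, 7, 2, 13), (2, 14, 9, 10, 13, 14, 2),
    (3, 9, 0, 3, 9, 10, 13), (3, 10, 1, 8, 3, 0, 7), (3, 11, 0, 3, 11, 10, 13), (3, 12, 0, 3,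
    12, 13, 10), (3, 13, 1, 8, 3, 0, 7), (3, 14, 0, 3, 14, 13, 10), (4, 9, 0, 4, 9, 10, 13), (4,
    10, 3, 0, 4, 2, 7), (4, 11, 0, 4, 11, 10, 13), (4, 12, 0, 4, 12, 13, 10), (4, 13, 3, 0, 4,
    2, 7), (4, 14, 0, 4, 14, 13, 10), (5, 9, 1, 6, 5, 9, 10), (5, 10, 1, 6, 5, 2, 7), (5, 11, 1,
    6, 5, 2, 7), (5, 12, 1, 6, 5, 2, 7), (5, 13, 1, 6, 5, 2, 7), (5, 14, 1, 6, 5, 2, 7), (6, 9,
    11, 10, 9, 6, 7), (6, 10, 1, 8, 7, 6, 10), (6, 11, 9, 10, 11, 6, 7), (6, 12, 9, 10, 13, 12,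
    6), (6, 13, 1, 8, 7, 6, 13), (6, 14, 9, 10, 13, 14, 6), (7, 9, 11, 14, 13, 10, 9), (7, 10,
    9, 12, 13, 10, 7), (7, 11, 9, 12, 13, 10, 11), (7, 12, 9, 10, 13, 12, 7), (7, 13, 12, 9, 10,
    13, 7), (7, 14, 9, 10, 13, 14, 7), (8, 9, 11, 10, 9, 8, 7), (8, 10, 1, 6, 7, 8, 10), (8, 11,
    9, 10, 11, 8, 7), (8, 12, 9, 10, 13, 12, 8), (8, 13, 1, 6, 7, 8, 13), (8, 14, 9, 10, 13, 14,
    8)]

theorem chkBS9 : chkB 9 6 FS9 FD WBS9 = true := by decide +kernel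

theorem compS9 : Comp GS9 GD := comp_of_chk repS9 repD chkBS9

/-- Edge list of `K4`. -/
def LK4 : List (ℕ × ℕ) :=
    [(0, 1), (0, 2), (0, 3), (1, 2), (1, 3), (2, 3)]

def FK4 : FG (Fin 4) := FG.ofList 4 LK4

theorem FK4_irr : ∀ x, FK4.adj x x = false := by decide +kernel

theorem FK4_dg : ∀ x, (Finset.univ.filter (fun y => FK4.adj x y = true)).card = FK4.dg x := by
  decide +kernel

def GK4 : SimpleGraph (Fin 4) := FK4.graph (FG.ofList_symm 4 LK4) FK4_irr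

theorem repK4 : Rep FK4 GK4 := FG.rep FK4 _ _ FK4_dg

def WAK4 : List (ℕ × ℕ × ℕ × ℕ × ℕ × ℕ × ℕ) :=
    []

theorem findK4 : FK4.find (List.finRange 4) = false := by decide +kernel

theorem chkAK4 : chkA 4 FK4 WAK4 = true := by decide +kernel

theorem satK4 : Sat5 GK4 := sat5_of_chk repK4 findK4 chkAK4

theorem sumK4 : (∑ x, FK4.dg x) = 12 := by decide +kernel

theorem ncardK4 : GK4.edgeSet.ncard = 6 := by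
  have h := ncard_edgeSet_eq GK4
  have h2 : ∑ x, FK4.dg x = 12 := sumK4
  simp only [repK4.2] at h
  omega

def WBK4 : List (ℕ × ℕ × ℕ × ℕ × ℕ × ℕ × ℕ) :=
    [(0, 4, 6, 9, 8, 5, 4), (0, 5, 1, 2, 3, 0, 5), (0, 6, 4, 7, 8, 5, 6), (0, 7, 4, 5, 8, 7, 0),
    (0, 8, 1, 2, 3, 0, 8), (0, 9, 4, 5, 8, 9, 0), (1, 4, 6, 9, 8, 5, 4), (1, 5, 0, 2, 3, 1, 5),
    (1, 6, 4, 7, 8, 5, 6), (1, 7, 4, 5, 8, 7, 1), (1, 8, 0, 2, 3, 1, 8), (1, 9, 4, 5, 8, 9, 1),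
    (2, 4, 6, 9, 8, 5, 4), (2, 5, 0, 1, 3, 2, 5), (2, 6, 4, 7, 8, 5, 6), (2, 7, 4, 5, 8, 7, 2),
    (2, 8, 0, 1, 3, 2, 8), (2, 9, 4, 5, 8, 9, 2), (3, 4, 6, 9, 8, 5, 4), (3, 5, 0, 1, 2, 3, 5),
    (3, 6, 4, 7, 8, 5, 6), (3, 7, 4, 5, 8, 7, 3), (3, 8, 0, 1, 2, 3, 8), (3, 9, 4, 5, 8, 9, 3)]

theorem chkBK4 : chkB 4 6 FK4 FD WBK4 = true := by decide +kernel

theorem compK4 : Comp GK4 GD := comp_of_chk repK4 repD chkBK4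

/-- Edge list of `S11`. -/
def LS11 : List (ℕ × ℕ) :=
    [(0, 2), (0, 9), (1, 2), (1, 7), (1, 8), (1, 9), (2, 3), (3, 9), (4, 5), (4, 7), (5, 8), (6,
    8), (6, 10), (7, 10)]

def FS11 : FG (Fin 11) := FG.ofList 11 LS11

theorem FS11_irr : ∀ x, FS11.adj x x = false := by decide +kernel

theorem FS11_dg : ∀ x, (Finset.univ.filter (fun y => FS11.adj x y = true)).card = FS11.dg x := by
  decide +kernel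

def GS11 : SimpleGraph (Fin 11) := FS11.graph (FG.ofList_symm 11 LS11) FS11_irr

theorem repS11 : Rep FS11 GS11 := FG.rep FS11 _ _ FS11_dg

def WAS11 : List (ℕ × ℕ × ℕ × ℕ × ℕ × ℕ × ℕ) :=
    [(0, 1, 3, 9, 0, 2, 1), (0, 3, 0, 9, 3, 2, 1), (0, 4, 2, 0, 4, 7, 1), (0, 5, 2, 0, 5, 8, 1),
    (0, 6, 2, 0, 6, 8, 1), (0, 7, 2, 0, 9, 1, 7), (0, 8, 2, 0, 9, 1, 8), (0, 10, 2, 0, 10, 7,
    1), (1, 3, 0, 9, 3, 2, 1), (1, 4, 6, 10, 7, 4, 1), (1, 5, 10, 6, 8, 5, 1), (1, 6, 4, 5, 8,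
    6, 1), (1, 10, 5, 4, 7, 10, 1), (2, 4, 5, 4, 7, 1, 2), (2, 5, 4, 5, 8, 1, 2), (2, 6, 4, 5,
    8, 1, 2), (2, 7, 0, 9, 1, 2, 7), (2, 8, 0, 9, 1, 8, 2), (2, 9, 4, 5, 8, 1, 9), (2, 10, 4, 5,
    8, 1, 2), (3, 4, 0, 9, 3, 2, 1), (3, 5, 0, 9, 3, 2, 1), (3, 6, 0, 9, 3, 2, 1), (3, 7, 0, 9,
    3, 2, 1), (3, 8, 0, 9, 3, 8, 1), (3, 10, 0, 9, 3, 2, 1), (4, 6, 5, 8, 6, 4, 7), (4, 8, 5, 4,
    7, 1, 8), (4, 9, 5, 4, 7, 1, 9), (4, 10, 5, 4, 10, 7, 1), (5, 6, 4, 5, 6, 8, 1), (5, 7, 4,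
    5, 8, 1, 7), (5, 9, 4, 5, 8, 1, 9), (5, 10, 4, 5, 10, 7, 1), (6, 7, 4, 5, 8, 1, 7), (6, 9,
    4, 5, 8, 1, 9), (7, 8, 0, 9, 1, 8, 7), (7, 9, 0, 2, 1, 9, 7), (8, 9, 0, 2, 1, 8, 9), (8, 10,
    4, 7, 10, 8, 1), (9, 10, 4, 5, 8, 1, 9)]

theorem findS11 : FS11.find (List.finRange 11) = false := by decide +kernel

theorem chkAS11 : chkA 11 FS11 WAS11 = true := by decide +kernel

theorem satS11 : Sat5 GS11 := sat5_of_chk repS11 findS11 chkAS11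

theorem sumS11 : (∑ x, FS11.dg x) = 28 := by decide +kernel

theorem ncardS11 : GS11.edgeSet.ncard = 14 := by
  have h := ncard_edgeSet_eq GS11
  have h2 : ∑ x, FS11.dg x = 28 := sumS11
  simp only [repS11.2] at h
  omega

def WBS11 : List (ℕ × ℕ × ℕ × ℕ × ℕ × ℕ × ℕ) :=
    [(0, 11, 2, 0, 11, 12, 15), (0, 12, 3, 9, 0, 2, 1), (0, 13, 2, 0, 13, 12, 15), (0, 14, 2, 0,
    14, 15, 12), (0, 15, 3, 9, 0, 2, 1), (0, 16, 2, 0, 16, 15, 12), (1, 11, 13, 16, 15, 12, 11),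
    (1, 12, 11, 14, 15, 12, 1), (1, 13, 11, 14, 15, 12, 13), (1, 14, 11, 12, 15, 14, 1), (1, 15,
    14, 11, 12, 15, 1), (1, 16, 11, 12, 15, 16, 1), (2, 11, 4, 5, 8, 1, 2), (2, 12, 0, 9, 1, 2,
    12), (2, 13, 4, 5, 8, 1, 2), (2, 14, 4, 5, 8, 1, 2), (2, 15, 0, 9, 1, 2, 15), (2, 16, 4, 5,
    8, 1, 2), (3, 11, 0, 9, 3, 2, 1), (3, 12, 0, 9, 3, 2, 1), (3, 13, 0, 9, 3, 2, 1), (3, 14, 0,
    9, 3, 2, 1), (3, 15, 0, 9, 3, 2, 1), (3, 16, 0, 9, 3, 16, 15), (4, 11, 5, 4, 11, 12, 15),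
    (4, 12, 6, 10, 7, 4, 12), (4, 13, 5, 4, 13, 12, 15), (4, 14, 5, 4, 14, 15, 12), (4, 15, 6,
    10, 7, 4, 15), (4, 16, 5, 4, 16, 15, 12), (5, 11, 4, 5, 11, 12, 15), (5, 12, 10, 6, 8, 5,
    12), (5, 13, 4, 5, 13, 12, 15), (5, 14, 4, 5, 14, 15, 12), (5, 15, 10, 6, 8, 5, 15), (5, 16,
    4, 5, 16, 15, 12), (6, 11, 4, 5, 8, 6, 11), (6, 12, 4, 5, 8, 6, 12), (6, 13, 4, 5, 8, 6,
    13), (6, 14, 4, 5, 8, 6, 14), (6, 15, 4, 5, 8, 6, 15), (6, 16, 4, 5, 8, 6, 16), (7, 11, 4,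
    5, 8, 1, 7), (7, 12, 0, 9, 1, 7, 12), (7, 13, 4, 5, 8, 1, 7), (7, 14, 4, 5, 8, 1, 7), (7,
    15, 0, 9, 1, 7, 15), (7, 16, 4, 5, 8, 1, 7), (8, 11, 5, 4, 7, 1, 8), (8, 12, 0, 9, 1, 8,
    12), (8, 13, 5, 4, 7, 1, 8), (8, 14, 5, 4, 7, 1, 8), (8, 15, 0, 9, 1, 8, 15), (8, 16, 5, 4,
    7, 1, 8), (9, 11, 4, 5, 8, 1, 9), (9, 12, 0, 2, 1, 9, 12), (9, 13, 4, 5, 8, 1, 9), (9, 14,
    4, 5, 8, 1, 9), (9, 15, 0, 2, 1, 9, 15), (9, 16, 4, 5, 8, 1, 9), (10, 11, 4, 7, 10, 11, 12),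
    (10, 12, 5, 4, 7, 10, 12), (10, 13, 4, 7, 10, 13, 12), (10, 14, 4, 7, 10, 14, 15), (10, 15,
    5, 4, 7, 10, 15), (10, 16, 4, 7, 10, 16, 15)]

theorem chkBS11 : chkB 11 6 FS11 FD WBS11 = true := by decide +kernel

theorem compS11 : Comp GS11 GD := comp_of_chk repS11 repD chkBS11

/-- Edge list of `N9`. -/
def LN9 : List (ℕ × ℕ) :=
    [(0, 1), (0, 5), (1, 5), (2, 4), (2, 7), (3, 4), (3, 5), (3, 8), (5, 7), (6, 7), (6, 8)]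

def FN9 : FG (Fin 9) := FG.ofList 9 LN9

theorem FN9_irr : ∀ x, FN9.adj x x = false := by decide +kernel

theorem FN9_dg : ∀ x, (Finset.univ.filter (fun y => FN9.adj x y = true)).card = FN9.dg x := by
  decide +kernel

def GN9 : SimpleGraph (Fin 9) := FN9.graph (FG.ofList_symm 9 LN9) FN9_irr

theorem repN9 : Rep FN9 GN9 := FG.rep FN9 _ _ FN9_dg

def WAN9 : List (ℕ × ℕ × ℕ × ℕ × ℕ × ℕ × ℕ) :=
    [(0, 2, 1, 0, 2, 7, 5), (0, 3, 4, 2, 7, 5, 3), (0, 4, 1, 0, 4, 3, 5), (0, 6, 1, 0, 6, 7, 5),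
    (0, 7, 2, 4, 3, 5, 7), (0, 8, 1, 0, 8, 3, 5), (1, 2, 0, 1, 2, 7, 5), (1, 3, 4, 2, 7, 5, 3),
    (1, 4, 0, 1, 4, 3, 5), (1, 6, 0, 1, 6, 7, 5), (1, 7, 2, 4, 3, 5, 7), (1, 8, 0, 1, 8, 3, 5),
    (2, 3, 4, 2, 7, 5, 3), (2, 5, 8, 6, 7, 2, 5), (2, 6, 4, 2, 6, 7, 5), (2, 8, 3, 8, 2, 7, 5),
    (3, 6, 2, 7, 6, 3, 5), (3, 7, 0, 1, 5, 3, 7), (4, 5, 6, 8, 3, 4, 5), (4, 6, 2, 4, 6, 7, 5),
    (4, 7, 2, 4, 3, 5, 7), (4, 8, 2, 4, 8, 3, 5), (5, 6, 4, 2, 7, 6, 5), (5, 8, 2, 4, 3, 8, 5),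
    (7, 8, 2, 4, 3, 8, 7)]

theorem findN9 : FN9.find (List.finRange 9) = false := by decide +kernel

theorem chkAN9 : chkA 9 FN9 WAN9 = true := by decide +kernel

theorem satN9 : Sat5 GN9 := sat5_of_chk repN9 findN9 chkAN9

theorem sumN9 : (∑ x, FN9.dg x) = 22 := by decide +kernel

theorem ncardN9 : GN9.edgeSet.ncard = 11 := by
  have h := ncard_edgeSet_eq GN9
  have h2 : ∑ x, FN9.dg x = 22 := sumN9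
  simp only [repN9.2] at h
  omega

end DMP
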